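import Mathlib

namespace Pool.Agent.Lib.MP_d3f853_an

open Function

variable {P : Type*}

/-- Finite support. -/
def FinS (u : P → ℝ) : Prop := (support u).Finite

/-- Pairing of functions. -/
noncomputable def ip (u v : P → ℝ) : ℝ := ∑ᶠ p, u p * v p

theorem FinS.add {u v : P → ℝ} (hu : FinS u) (hv : FinS v) : FinS (u + v) :=
  (hu.union hv).subset (support_add u v)

theorem FinS.of_subset {u v : P → ℝ} (hu : FinS u) (h : ∀ p, u p = 0 → v p = 0) : FinS v :=
  Set.Finite.subset hu fun p hp h0 => hp (h p h0)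

theorem FinS.smul {u : P → ℝ} (c : ℝ) (hu : FinS u) : FinS (c • u) :=
  hu.of_subset fun p hp => by simp [hp]

theorem FinS.neg {u : P → ℝ} (hu : FinS u) : FinS (-u) :=
  hu.of_subset fun p hp => by simp [hp]

theorem FinS.sub {u v : P → ℝ} (hu : FinS u) (hv : FinS v) : FinS (u - v) := by
  rw [sub_eq_add_neg]; exact hu.add hv.neg

theorem finS_zero : FinS (0 : P → ℝ) := by simp [FinS]

theorem FinS.sum {ι : Type*} (s : Finset ι) (f : ι → P → ℝ) (h : ∀ i ∈ s, FinS (f i)) :
    FinS (∑ i ∈ s, f i) :=
  Finset.sum_induction f FinS (fun _ _ => FinS.add) finS_zero h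

theorem FinS.mul_right {u : P → ℝ} (hu : FinS u) (v : P → ℝ) :
    HasFiniteSupport (fun p => u p * v p) :=
  Set.Finite.subset hu fun p hp h0 => hp (by simp [h0])

theorem finS_single [DecidableEq P] (p : P) (c : ℝ) : FinS (Pi.single p c : P → ℝ) :=
  (Set.finite_singleton p).subset Pi.support_single_subset

theorem ip_comm (u v : P → ℝ) : ip u v = ip v u :=
  finsum_congr fun _ => mul_comm _ _

theorem ip_add_right {u : P → ℝ} (hu : FinS u) (v w : P → ℝ) :
    ip u (v + w) = ip u v + ip u w := by
  unfold ip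
  rw [← finsum_add_distrib (hu.mul_right v) (hu.mul_right w)]
  exact finsum_congr fun p => by simp [mul_add]

theorem ip_add_left {u v : P → ℝ} (hu : FinS u) (hv : FinS v) (w : P → ℝ) :
    ip (u + v) w = ip u w + ip v w := by
  unfold ip
  rw [← finsum_add_distrib (hu.mul_right w) (hv.mul_right w)]
  exact finsum_congr fun p => by simp [add_mul]

theorem ip_smul_right (c : ℝ) (u v : P → ℝ) : ip u (c • v) = c * ip u v := by
  unfold ip
  rw [← smul_eq_mul, smul_finsum]
  exact finsum_congr fun p => by simp; ring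

theorem ip_smul_left (c : ℝ) (u v : P → ℝ) : ip (c • u) v = c * ip u v := by
  rw [ip_comm, ip_smul_right, ip_comm]

theorem ip_zero_right (u : P → ℝ) : ip u 0 = 0 := by simp [ip]

theorem ip_zero_left (u : P → ℝ) : ip 0 u = 0 := by simp [ip]

theorem ip_sub_right {u : P → ℝ} (hu : FinS u) (v w : P → ℝ) :
    ip u (v - w) = ip u v - ip u w := by
  rw [sub_eq_add_neg, ip_add_right hu, ← neg_one_smul ℝ w, ip_smul_right]; ring

theorem ip_sum_left {ι : Type*} (s : Finset ι) (f : ι → P → ℝ) (h : ∀ i ∈ s, FinS (f i))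
    (w : P → ℝ) : ip (∑ i ∈ s, f i) w = ∑ i ∈ s, ip (f i) w := by
  classical
  induction s using Finset.induction_on with
  | empty => simp [ip_zero_left]
  | insert a s ha ih =>
    rw [Finset.sum_insert ha, Finset.sum_insert ha,
      ip_add_left (h a (Finset.mem_insert_self _ _))
        (FinS.sum s f fun i hi => h i (Finset.mem_insert_of_mem hi)),
      ih fun i hi => h i (Finset.mem_insert_of_mem hi)]

theorem ip_single_left [DecidableEq P] (p : P) (v : P → ℝ) :
    ip (Pi.single p 1) v = v p := by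
  unfold ip
  rw [finsum_eq_single _ p]
  · simp
  · intro x hx; simp [hx]

theorem ip_self_nonneg (u : P → ℝ) : 0 ≤ ip u u :=
  finsum_nonneg fun p => mul_self_nonneg (u p)

theorem sq_le_ip_self {u : P → ℝ} (hu : FinS u) (p : P) : u p * u p ≤ ip u u :=
  single_le_finsum (f := fun p => u p * u p) p (hu.mul_right u) fun q => mul_self_nonneg (u q)

theorem ip_self_le_of_le {u v : P → ℝ} (hv : FinS v) (h : ∀ p, u p * u p ≤ v p * v p) :
    ip u u ≤ ip v v := by
  have hu : FinS u := hv.of_subset fun p hp => by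
    have := h p
    rw [hp, mul_zero] at this
    exact mul_self_eq_zero.1 (le_antisymm this (mul_self_nonneg _))
  exact finsum_le_finsum' (hu.mul_right u) (hv.mul_right v) h

theorem ip_add_self_le {u v : P → ℝ} (hu : FinS u) (hv : FinS v) :
    ip (u + v) (u + v) ≤ 2 * ip u u + 2 * ip v v := by
  have h1 : ip (u + v) (u + v) = ip u u + ip u v + (ip u v + ip v v) := by
    rw [ip_add_left hu hv, ip_add_right hu, ip_add_right hv, ip_comm v u]
  have h2 : ip (u - v) (u - v) = ip u u - ip u v - (ip u v - ip v v) := by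
    rw [ip_sub_right (hu.sub hv), ip_comm (u - v) u, ip_comm (u - v) v, ip_sub_right hu,
      ip_sub_right hv, ip_comm v u]
  have h3 := ip_self_nonneg (u - v)
  linarith

theorem ip_congr_right {u v w : P → ℝ} (h : ∀ p, u p ≠ 0 → v p = w p) : ip u v = ip u w :=
  finsum_congr fun p => by
    by_cases hp : u p = 0
    · simp [hp]
    · rw [h p hp]

end Pool.Agent.Lib.MP_d3f853_an
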