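import Mathlib
import Pool.Agent.Lib.MP_d3f853_an.Ip

namespace Pool.Agent.Lib.MP_d3f853_an

open Function MeasureTheory
open scoped Pointwise

variable {Γ X I : Type*} [Group Γ] [MulAction Γ X] [DecidableEq I]

/-- Operators on families of functions. -/
abbrev Op (I X : Type*) := Module.End ℝ (I × X → ℝ)

/-- Elementary operator. -/
def gen (a : X → ℝ) (γ : Γ) (i i' : I) : Op I X where
  toFun u := fun p => if p.1 = i then a p.2 * u (i', γ⁻¹ • p.2) else 0
  map_add' u v := by
    ext p; simp only [Pi.add_apply]; split_ifs <;> ring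
  map_smul' c u := by
    ext p; simp only [Pi.smul_apply, smul_eq_mul, RingHom.id_apply]; split_ifs <;> ring

theorem gen_apply (a : X → ℝ) (γ : Γ) (i i' : I) (u : I × X → ℝ) (p : I × X) :
    gen a γ i i' u p = if p.1 = i then a p.2 * u (i', γ⁻¹ • p.2) else 0 := rfl

/-- Bounded function. -/
def Bdd {Y : Type*} (a : Y → ℝ) : Prop := ∃ A, ∀ x, |a x| ≤ A

theorem Bdd.mul {Y : Type*} {a b : Y → ℝ} (ha : Bdd a) (hb : Bdd b) : Bdd (fun x => a x * b x) := by
  obtain ⟨A, hA⟩ := ha
  obtain ⟨B, hB⟩ := hb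
  refine ⟨A * B, fun x => ?_⟩
  rw [abs_mul]
  exact mul_le_mul (hA x) (hB x) (abs_nonneg _) ((abs_nonneg _).trans (hA x))

theorem Bdd.add {Y : Type*} {a b : Y → ℝ} (ha : Bdd a) (hb : Bdd b) : Bdd (fun x => a x + b x) := by
  obtain ⟨A, hA⟩ := ha
  obtain ⟨B, hB⟩ := hb
  exact ⟨A + B, fun x => (abs_add_le _ _).trans (add_le_add (hA x) (hB x))⟩

theorem bdd_const {Y : Type*} (c : ℝ) : Bdd (fun _ : Y => c) := ⟨|c|, fun _ => le_rfl⟩

theorem Bdd.comp {Y Y' : Type*} {a : Y → ℝ} (ha : Bdd a) (f : Y' → Y) : Bdd (fun x => a (f x)) := by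
  obtain ⟨A, hA⟩ := ha
  exact ⟨A, fun x => hA _⟩

theorem Bdd.sum {Y ι : Type*} (s : Finset ι) (f : ι → Y → ℝ) (h : ∀ i ∈ s, Bdd (f i)) :
    Bdd (fun x => ∑ i ∈ s, f i x) := by
  classical
  induction s using Finset.induction_on with
  | empty => simpa using bdd_const (0 : ℝ)
  | insert a s ha ih =>
    simp only [Finset.sum_insert ha]
    exact (h a (Finset.mem_insert_self _ _)).add (ih fun i hi => h i (Finset.mem_insert_of_mem hi))

theorem Bdd.integrable {mX : MeasurableSpace X} {μ : Measure X} [IsFiniteMeasure μ] {a : X → ℝ}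
    (hb : Bdd a) (ha : Measurable a) : Integrable a μ := by
  obtain ⟨A, hA⟩ := hb
  exact Integrable.of_bound ha.aestronglyMeasurable A (ae_of_all _ hA)

variable (Γ) in
/-- Finite sums of elementary operators with bounded `G`-measurable coefficients. -/
inductive Nice (G : MeasurableSpace X) : Op I X → Prop
  | gen (a : X → ℝ) (γ : Γ) (i i' : I) (ha : Measurable[G] a) (hb : Bdd a) :
      Nice G (gen a γ i i')
  | zero : Nice G 0
  | add {Z Z' : Op I X} : Nice G Z → Nice G Z' → Nice G (Z + Z')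

variable (Γ) in
/-- Invariant sigma-algebra. -/
def Inv (G : MeasurableSpace X) : Prop := ∀ γ : Γ, Measurable[G, G] (fun x : X => γ • x)

theorem gen_smul (c : ℝ) (a : X → ℝ) (γ : Γ) (i i' : I) :
    c • gen a γ i i' = gen (fun x => c * a x) γ i i' := by
  ext u p
  simp only [LinearMap.smul_apply, Pi.smul_apply, gen_apply, smul_eq_mul]
  split_ifs <;> ring

theorem gen_mul (a b : X → ℝ) (γ γ' : Γ) (i i' k k' : I) :
    gen a γ i i' * gen b γ' k k' =
      gen (fun x => (if i' = k then 1 else 0) * (a x * b (γ⁻¹ • x))) (γ * γ') i k' := by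
  ext u p
  simp only [Module.End.mul_apply, gen_apply, mul_inv_rev, mul_smul]
  split_ifs <;> ring

variable {G : MeasurableSpace X}

theorem Nice.smul {Z : Op I X} (h : Nice Γ G Z) (c : ℝ) : Nice Γ G (c • Z) := by
  induction h with
  | gen a γ i i' ha hb =>
    rw [gen_smul]; exact Nice.gen _ _ _ _ (ha.const_mul c) ((bdd_const c).mul hb)
  | zero => rw [smul_zero]; exact Nice.zero
  | add _ _ ih ih' => rw [smul_add]; exact ih.add ih'

theorem Nice.sub {Z Z' : Op I X} (h : Nice Γ G Z) (h' : Nice Γ G Z') : Nice Γ G (Z - Z') := by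
  rw [sub_eq_add_neg, ← neg_one_smul ℝ Z']; exact h.add (h'.smul _)

theorem Nice.sum {ι : Type*} (s : Finset ι) (f : ι → Op I X) (h : ∀ i ∈ s, Nice Γ G (f i)) :
    Nice Γ G (∑ i ∈ s, f i) :=
  Finset.sum_induction f (Nice Γ G) (fun _ _ => Nice.add) Nice.zero h

theorem Nice.mono {G' : MeasurableSpace X} (hG : G ≤ G') {Z : Op I X} (h : Nice Γ G Z) :
    Nice Γ G' Z := by
  induction h with
  | gen a γ i i' ha hb => exact Nice.gen _ _ _ _ (ha.mono hG le_rfl) hb
  | zero => exact Nice.zero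
  | add _ _ ih ih' => exact ih.add ih'

theorem Nice.mul (hG : Inv Γ G) {Z Z' : Op I X} (h : Nice Γ G Z) (h' : Nice Γ G Z') :
    Nice Γ G (Z * Z') := by
  induction h with
  | gen a γ i i' ha hb =>
    induction h' with
    | gen b γ' k k' ha' hb' =>
      rw [gen_mul]
      exact Nice.gen _ _ _ _ ((ha.mul (ha'.comp (hG γ⁻¹))).const_mul _)
        ((bdd_const _).mul (hb.mul (hb'.comp _)))
    | zero => rw [mul_zero]; exact Nice.zero
    | add _ _ ih ih' => rw [mul_add]; exact ih.add ih'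
  | zero => rw [zero_mul]; exact Nice.zero
  | add _ _ ih ih' => rw [add_mul]; exact ih.add ih'

/-- Multiplication operator. -/
def mulOp (b : I × X → ℝ) : Op I X where
  toFun u := fun p => b p * u p
  map_add' u v := by ext p; simp [mul_add]
  map_smul' c u := by ext p; simp; ring

omit [DecidableEq I] in
theorem mulOp_apply (b u : I × X → ℝ) (p : I × X) : mulOp b u p = b p * u p := rfl

theorem nice_mulOp [Fintype I] {b : I × X → ℝ} (hb : ∀ i, Measurable[G] fun x => b (i, x))
    (hb' : Bdd b) : Nice Γ G (mulOp b) := by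
  have : mulOp b = ∑ i, gen (fun x => b (i, x)) (1 : Γ) i i := by
    ext u p
    simp only [mulOp_apply, LinearMap.sum_apply, Finset.sum_apply, gen_apply, inv_one, one_smul]
    simp
  rw [this]
  exact Nice.sum _ _ fun i _ => Nice.gen _ _ _ _ (hb i) (hb'.comp _)

theorem nice_one [Fintype I] : Nice Γ G (1 : Op I X) := by
  have : (1 : Op I X) = mulOp fun _ => 1 := by ext u p; simp [mulOp_apply]
  rw [this]
  exact nice_mulOp (fun _ => measurable_const) (bdd_const _)

theorem Nice.pow [Fintype I] (hG : Inv Γ G) {Z : Op I X} (h : Nice Γ G Z) (n : ℕ) :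
    Nice Γ G (Z ^ n) := by
  induction n with
  | zero => rw [pow_zero]; exact nice_one
  | succ n ih => rw [pow_succ]; exact ih.mul hG h

theorem Nice.measurable (hG : Inv Γ G) {Z : Op I X} (h : Nice Γ G Z) {u : I × X → ℝ}
    (hu : ∀ i, Measurable[G] fun x => u (i, x)) (k : I) : Measurable[G] fun x => Z u (k, x) := by
  induction h with
  | gen a γ i i' ha hb =>
    simp only [gen_apply]
    split_ifs
    · exact ha.mul ((hu i').comp (hG γ⁻¹))
    · exact measurable_const
  | zero => exact measurable_const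
  | add _ _ ih ih' => exact ih.add ih'

theorem Nice.bound {Z : Op I X} (h : Nice Γ G Z) :
    ∃ C, 0 ≤ C ∧ ∀ (u : I × X → ℝ) (K : ℝ), (∀ p, |u p| ≤ K) → ∀ p, |Z u p| ≤ C * K := by
  induction h with
  | gen a γ i i' ha hb =>
    obtain ⟨A, hA⟩ := hb
    refine ⟨|A|, abs_nonneg _, fun u K hu p => ?_⟩
    have hK : 0 ≤ K := (abs_nonneg _).trans (hu p)
    rw [gen_apply]
    split_ifs
    · rw [abs_mul]
      exact mul_le_mul ((hA _).trans (le_abs_self _)) (hu _) (abs_nonneg _) (abs_nonneg _)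
    · rw [abs_zero]; positivity
  | zero => exact ⟨0, le_rfl, fun u K hu p => by simp⟩
  | add _ _ ih ih' =>
    obtain ⟨C, hC, h⟩ := ih
    obtain ⟨C', hC', h'⟩ := ih'
    refine ⟨C + C', by positivity, fun u K hu p => ?_⟩
    rw [LinearMap.add_apply, Pi.add_apply, add_mul]
    exact (abs_add_le _ _).trans (add_le_add (h u K hu p) (h' u K hu p))

theorem Nice.bdd {Z : Op I X} (h : Nice Γ G Z) {u : I × X → ℝ} (hu : Bdd u) : Bdd (Z u) := by
  obtain ⟨C, -, hC⟩ := h.bound
  obtain ⟨K, hK⟩ := hu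
  exact ⟨C * K, hC u K hK⟩

/-- Kernel entries are measurable. -/
theorem Nice.measurable_kernel [DecidableEq X] (hG : Inv Γ G)
    (hfix : ∀ γ : Γ, MeasurableSet[G] {x : X | γ • x = x}) {Z : Op I X} (h : Nice Γ G Z)
    (i k : I) (γ γ' : Γ) :
    Measurable[G] fun y : X => Z (Pi.single (i, γ • y) 1) (k, γ' • y) := by
  induction h with
  | gen a δ j j' ha hb =>
    simp only [gen_apply]
    split_ifs
    · refine (ha.comp (hG γ')).mul ?_
      by_cases hj : j' = i
      · subst hj
        have : (fun y : X => (Pi.single (j', γ • y) (1 : ℝ) : I × X → ℝ) (j', δ⁻¹ • γ' • y)) =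
            Set.indicator {x : X | (γ⁻¹ * δ⁻¹ * γ') • x = x} fun _ => 1 := by
          ext y
          by_cases hy : (γ⁻¹ * δ⁻¹ * γ') • y = y
          · have : δ⁻¹ • γ' • y = γ • y := by
              rw [mul_smul, mul_smul, inv_smul_eq_iff] at hy; exact hy
            rw [this, Set.indicator_of_mem (by exact hy)]; simp
          · have : δ⁻¹ • γ' • y ≠ γ • y := by
              intro h; apply hy; rw [mul_smul, mul_smul, h, inv_smul_smul]
            rw [Set.indicator_of_notMem (by exact hy), Pi.single_eq_of_ne]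
            simpa using this
        rw [this]
        exact measurable_const.indicator (hfix _)
      · have : (fun y : X => (Pi.single (i, γ • y) (1 : ℝ) : I × X → ℝ) (j', δ⁻¹ • γ' • y)) =
            fun _ => 0 := by
          ext y
          rw [Pi.single_eq_of_ne]
          simp [hj]
        rw [this]; exact measurable_const
    · exact measurable_const
  | zero => exact measurable_const
  | add _ _ ih ih' => exact ih.add ih'

theorem Nice.bdd_kernel [DecidableEq X] {Z : Op I X} (h : Nice Γ G Z) {Y : Type*}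
    (p q : Y → I × X) : Bdd fun y => Z (Pi.single (p y) 1) (q y) := by
  obtain ⟨C, -, hC⟩ := h.bound
  refine ⟨C * 1, fun y => hC _ 1 (fun r => ?_) _⟩
  by_cases hr : r = p y
  · subst hr; simp
  · rw [Pi.single_eq_of_ne hr]; simp

/-- Finite propagation. -/
def Loc (Z : Op I X) (B : Set Γ) : Prop :=
  ∀ (u : I × X → ℝ) (p : I × X), (∀ i, ∀ γ ∈ B, u (i, γ⁻¹ • p.2) = 0) → Z u p = 0

omit [DecidableEq I] in
theorem Loc.mono {Z : Op I X} {B B' : Set Γ} (h : Loc Z B) (hB : B ⊆ B') : Loc Z B' :=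
  fun u p hu => h u p fun i γ hγ => hu i γ (hB hγ)

omit [DecidableEq I] in
theorem Loc.add {Z Z' : Op I X} {B : Set Γ} (h : Loc Z B) (h' : Loc Z' B) : Loc (Z + Z') B :=
  fun u p hu => by rw [LinearMap.add_apply, Pi.add_apply, h u p hu, h' u p hu, add_zero]

omit [DecidableEq I] in
theorem Loc.smul {Z : Op I X} {B : Set Γ} (h : Loc Z B) (c : ℝ) : Loc (c • Z) B :=
  fun u p hu => by rw [LinearMap.smul_apply, Pi.smul_apply, h u p hu, smul_zero]

omit [DecidableEq I] in
theorem Loc.sub {Z Z' : Op I X} {B : Set Γ} (h : Loc Z B) (h' : Loc Z' B) : Loc (Z - Z') B :=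
  fun u p hu => by rw [LinearMap.sub_apply, Pi.sub_apply, h u p hu, h' u p hu, sub_zero]

omit [DecidableEq I] in
theorem Loc.mul {Z Z' : Op I X} {B B' : Set Γ} (h : Loc Z B) (h' : Loc Z' B') :
    Loc (Z * Z') (B * B') := by
  intro u p hu
  refine h _ p fun i γ hγ => h' u _ fun i' γ' hγ' => ?_
  have := hu i' (γ * γ') (Set.mul_mem_mul hγ hγ')
  rwa [mul_inv_rev, mul_smul] at this

omit [DecidableEq I] in
theorem loc_mulOp (b : I × X → ℝ) : Loc (mulOp b) ({1} : Set Γ) := by
  intro u p hu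
  have := hu p.1 1 rfl
  rw [inv_one, one_smul] at this
  rw [mulOp_apply, this, mul_zero]

omit [DecidableEq I] in
theorem loc_one : Loc (1 : Op I X) ({1} : Set Γ) := by
  intro u p hu
  have := hu p.1 1 rfl
  rwa [inv_one, one_smul] at this

omit [DecidableEq I] in
theorem Loc.pow {Z : Op I X} {B : Set Γ} (h : Loc Z B) (n : ℕ) : Loc (Z ^ n) (B ^ n) := by
  induction n with
  | zero => rw [pow_zero, pow_zero]; exact loc_one
  | succ n ih => rw [pow_succ, pow_succ]; exact ih.mul h

theorem Nice.loc {Z : Op I X} (h : Nice Γ G Z) : ∃ B : Set Γ, B.Finite ∧ Loc Z B := by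
  induction h with
  | gen a γ i i' ha hb =>
    refine ⟨{γ}, Set.finite_singleton _, fun u p hu => ?_⟩
    rw [gen_apply, hu i' γ rfl]; simp
  | zero => exact ⟨∅, Set.finite_empty, fun u p _ => rfl⟩
  | add _ _ ih ih' =>
    obtain ⟨B, hB, h⟩ := ih
    obtain ⟨B', hB', h'⟩ := ih'
    exact ⟨B ∪ B', hB.union hB', (h.mono Set.subset_union_left).add (h'.mono Set.subset_union_right)⟩

omit [DecidableEq I] in
theorem Loc.finS [Fintype I] {Z : Op I X} {B : Set Γ} (h : Loc Z B) (hB : B.Finite)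
    {u : I × X → ℝ} (hu : FinS u) : FinS (Z u) := by
  have hfin : (Set.univ ×ˢ (Set.image2 (fun (γ : Γ) (q : I × X) => γ • q.2) B (support u)) :
      Set (I × X)).Finite := Set.finite_univ.prod (hB.image2 _ hu)
  refine hfin.subset fun p hp => ⟨Set.mem_univ _, ?_⟩
  by_contra hcon
  refine hp (h u p fun i γ hγ => ?_)
  by_contra h0
  exact hcon ⟨γ, hγ, (i, γ⁻¹ • p.2), h0, smul_inv_smul _ _⟩

theorem Nice.finS [Fintype I] {Z : Op I X} (h : Nice Γ G Z) {u : I × X → ℝ} (hu : FinS u) :
    FinS (Z u) := by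
  obtain ⟨B, hB, hl⟩ := h.loc
  exact hl.finS hB hu

/-- Adjointness for the local pairing. -/
def Adj (Z Z' : Op I X) : Prop := ∀ u v : I × X → ℝ, FinS u → ip (Z u) v = ip u (Z' v)

/-- The reindexing attached to an elementary operator. -/
def genEquiv (γ : Γ) (i i' : I) : I × X ≃ I × X :=
  (Equiv.swap i i').prodCongr (MulAction.toPerm γ⁻¹)

theorem adj_gen (a : X → ℝ) (γ : Γ) (i i' : I) :
    Adj (gen a γ i i') (gen (fun x => a (γ • x)) γ⁻¹ i' i) := by
  intro u v _
  unfold ip
  rw [← finsum_comp_equiv (genEquiv γ i i' : I × X ≃ I × X)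
    (f := fun q => u q * gen (fun x => a (γ • x)) γ⁻¹ i' i v q)]
  refine finsum_congr fun p => ?_
  obtain ⟨k, x⟩ := p
  simp only [gen_apply, genEquiv, Equiv.prodCongr_apply, Prod.map, MulAction.toPerm_apply,
    smul_inv_smul, inv_inv]
  by_cases hk : k = i
  · subst hk; simp; ring
  · have : Equiv.swap i i' k ≠ i' := by
      intro h; apply hk
      have := congrArg (Equiv.swap i i') h
      simpa using this
    simp [hk, this]

theorem Adj.add [Fintype I] {Z Z' W W' : Op I X} (hZ : Nice Γ G Z) (hW : Nice Γ G W)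
    (h : Adj Z Z') (h' : Adj W W') : Adj (Z + W) (Z' + W') := by
  intro u v hu
  rw [LinearMap.add_apply, LinearMap.add_apply, ip_add_left (hZ.finS hu) (hW.finS hu),
    ip_add_right hu, h u v hu, h' u v hu]

omit [DecidableEq I] in
theorem Adj.smul {Z Z' : Op I X} (h : Adj Z Z') (c : ℝ) : Adj (c • Z) (c • Z') := by
  intro u v hu
  rw [LinearMap.smul_apply, LinearMap.smul_apply, ip_smul_left, ip_smul_right, h u v hu]

theorem Adj.sub [Fintype I] {Z Z' W W' : Op I X} (hZ : Nice Γ G Z) (hW : Nice Γ G W)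
    (h : Adj Z Z') (h' : Adj W W') : Adj (Z - W) (Z' - W') := by
  rw [sub_eq_add_neg, sub_eq_add_neg, ← neg_one_smul ℝ W, ← neg_one_smul ℝ W']
  exact Adj.add hZ (hW.smul _) h (h'.smul _)

theorem Adj.mul [Fintype I] {Z Z' W W' : Op I X} (hW : Nice Γ G W)
    (h : Adj Z Z') (h' : Adj W W') : Adj (Z * W) (W' * Z') := by
  intro u v hu
  rw [Module.End.mul_apply, Module.End.mul_apply, h _ v (hW.finS hu), h' u _ hu]

omit [DecidableEq I] in
theorem adj_mulOp (b : I × X → ℝ) : Adj (mulOp b) (mulOp b) := by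
  intro u v _
  exact finsum_congr fun p => by simp only [mulOp_apply]; ring

omit [DecidableEq I] in
theorem adj_one : Adj (1 : Op I X) 1 := fun _ _ _ => rfl

theorem Adj.pow [Fintype I] {Z : Op I X} (hZ : Nice Γ G Z) (h : Adj Z Z) (n : ℕ) :
    Adj (Z ^ n) (Z ^ n) := by
  induction n with
  | zero => rw [pow_zero]; exact adj_one
  | succ n ih =>
    have := Adj.mul hZ ih h
    rwa [← pow_succ, ← pow_succ'] at this

theorem Nice.schur [Fintype I] {Z : Op I X} (h : Nice Γ G Z) :
    ∃ C, 0 < C ∧ ∀ u : I × X → ℝ, FinS u → ip (Z u) (Z u) ≤ C * ip u u := by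
  induction h with
  | gen a γ i i' ha hb =>
    obtain ⟨A, hA⟩ := hb
    refine ⟨(|A| + 1) * (|A| + 1), by positivity, fun u hu => ?_⟩
    have h1 : ip ((|A| + 1) • u ∘ genEquiv γ i i') ((|A| + 1) • u ∘ genEquiv γ i i') =
        (|A| + 1) * (|A| + 1) * ip u u := by
      rw [ip_smul_left, ip_smul_right, mul_assoc]
      congr 2
      exact finsum_comp_equiv (genEquiv γ i i' : I × X ≃ I × X) (f := fun q => u q * u q)
    rw [← h1]
    apply ip_self_le_of_le
    · apply FinS.smul
      exact Set.Finite.preimage (genEquiv γ i i' : I × X ≃ I × X).injective.injOn hu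
    · rintro ⟨k, x⟩
      rw [gen_apply]
      split_ifs with hk
      · simp only at hk
        subst hk
        simp only [genEquiv, Pi.smul_apply, comp_apply, Equiv.prodCongr_apply, Prod.map,
          Equiv.swap_apply_left, MulAction.toPerm_apply, smul_eq_mul]
        have h2 : a x * a x ≤ (|A| + 1) * (|A| + 1) := by
          rw [← abs_mul_abs_self (a x)]
          have : |a x| ≤ |A| + 1 := by linarith [hA x, le_abs_self A]
          exact mul_le_mul this this (abs_nonneg _) (by positivity)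
        nlinarith [mul_self_nonneg (u (i', γ⁻¹ • x))]
      · rw [mul_zero]; exact mul_self_nonneg _
  | zero => exact ⟨1, one_pos, fun u _ => by simp [ip_zero_left, ip_self_nonneg]⟩
  | add hZ hZ' ih ih' =>
    obtain ⟨C, hC, h⟩ := ih
    obtain ⟨C', hC', h'⟩ := ih'
    refine ⟨2 * C + 2 * C', by positivity, fun u hu => ?_⟩
    rw [LinearMap.add_apply]
    have := ip_add_self_le (hZ.finS hu) (hZ'.finS hu)
    nlinarith [h u hu, h' u hu]

end Pool.Agent.Lib.MP_d3f853_an
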