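import Mathlib
import Pool.Agent.Lib.MP_d3f853_an.Nice

namespace Pool.Agent.Lib.MP_d3f853_an

open Function MeasureTheory
open scoped Pointwise

variable {Γ X I : Type*} [Group Γ] [MulAction Γ X] [DecidableEq I]
  {mX : MeasurableSpace X} {μ : Measure X}

variable (Γ) in
/-- Measure preserving action. -/
def MP (μ : Measure X) : Prop := ∀ γ : Γ, MeasurePreserving (fun x : X => γ • x) μ μ

theorem MP.inv (h : MP Γ μ) : Inv Γ mX := fun γ => (h γ).measurable

theorem MP.integral_comp (h : MP Γ μ) (γ : Γ) (f : X → ℝ) :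
    ∫ x, f (γ • x) ∂μ = ∫ x, f x ∂μ := by
  let e : X ≃ᵐ X :=
    { toEquiv := MulAction.toPerm γ
      measurable_toFun := (h γ).measurable
      measurable_invFun := (h γ⁻¹).measurable }
  exact MeasurePreserving.integral_comp' (f := e) (h γ) f

theorem Nice.integrable (hμ : MP Γ μ) {Z : Op I X} (h : Nice Γ mX Z) {u : I × X → ℝ}
    (hu : ∀ i, Integrable (fun x => u (i, x)) μ) (k : I) : Integrable (fun x => Z u (k, x)) μ := by
  induction h with
  | gen a γ i i' ha hb =>
    simp only [gen_apply]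
    split_ifs
    · obtain ⟨A, hA⟩ := hb
      exact ((hμ γ⁻¹).integrable_comp_of_integrable (hu i')).bdd_mul ha.aestronglyMeasurable
        (ae_of_all _ hA)
    · exact integrable_zero _ _ _
  | zero => exact integrable_zero _ _ _
  | add _ _ ih ih' => exact ih.add ih'

theorem integrable_mul_bdd {f g : X → ℝ} (hf : Integrable f μ) (hg : Measurable g) (hb : Bdd g) :
    Integrable (fun x => f x * g x) μ := by
  obtain ⟨A, hA⟩ := hb
  exact hf.mul_bdd hg.aestronglyMeasurable (ae_of_all _ hA)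

/-- Adjointness for the global pairing. -/
def GAdj [Fintype I] (μ : Measure X) (Z Z' : Op I X) : Prop :=
  ∀ u v : I × X → ℝ, (∀ i, Integrable (fun x => u (i, x)) μ) →
    (∀ i, Measurable fun x => v (i, x)) → Bdd v →
    ∑ k, ∫ x, Z u (k, x) * v (k, x) ∂μ = ∑ k, ∫ x, u (k, x) * Z' v (k, x) ∂μ

theorem Nice.exists_adj [Fintype I] (hμ : MP Γ μ) {G : MeasurableSpace X} (hG : Inv Γ G)
    (hle : G ≤ mX) {Z : Op I X} (h : Nice Γ G Z) :
    ∃ Z' : Op I X, Nice Γ G Z' ∧ Adj Z Z' ∧ Adj Z' Z ∧ GAdj μ Z Z' := by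
  induction h with
  | gen a γ i i' ha hb =>
    refine ⟨_, Nice.gen (fun x => a (γ • x)) γ⁻¹ i' i (ha.comp (hG γ)) (hb.comp _),
      adj_gen a γ i i', ?_, ?_⟩
    · have := adj_gen (fun x => a (γ • x)) γ⁻¹ i' i
      simpa using this
    · intro u v hu hv hb'
      rw [Finset.sum_eq_single i, Finset.sum_eq_single i']
      · simp only [gen_apply, if_true, inv_inv]
        rw [← hμ.integral_comp γ]
        congr 1; ext x; simp only [inv_smul_smul]; ring
      · intro k _ hk; simp [gen_apply, hk]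
      · simp
      · intro k _ hk; simp [gen_apply, hk]
      · simp
  | zero =>
    exact ⟨0, Nice.zero, fun u v _ => by simp [ip_zero_left, ip_zero_right],
      fun u v _ => by simp [ip_zero_left, ip_zero_right], fun u v _ _ _ => by simp⟩
  | @add Z W hZ hW ih ih' =>
    obtain ⟨Z', hZ', h1, h2, h3⟩ := ih
    obtain ⟨W', hW', h1', h2', h3'⟩ := ih'
    refine ⟨Z' + W', hZ'.add hW', Adj.add hZ hW h1 h1', Adj.add hZ' hW' h2 h2', ?_⟩
    intro u v hu hv hb
    have e1 : ∀ k, ∫ x, (Z + W) u (k, x) * v (k, x) ∂μ =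
        ∫ x, Z u (k, x) * v (k, x) ∂μ + ∫ x, W u (k, x) * v (k, x) ∂μ := by
      intro k
      rw [← integral_add
        (integrable_mul_bdd ((hZ.mono hle).integrable hμ hu k) (hv k) (hb.comp _))
        (integrable_mul_bdd ((hW.mono hle).integrable hμ hu k) (hv k) (hb.comp _))]
      congr 1; ext x; simp [add_mul]
    have e2 : ∀ k, ∫ x, u (k, x) * (Z' + W') v (k, x) ∂μ =
        ∫ x, u (k, x) * Z' v (k, x) ∂μ + ∫ x, u (k, x) * W' v (k, x) ∂μ := by
      intro k
      rw [← integral_add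
        (integrable_mul_bdd (hu k) ((hZ'.mono hle).measurable hμ.inv hv k) ((hZ'.bdd hb).comp _))
        (integrable_mul_bdd (hu k) ((hW'.mono hle).measurable hμ.inv hv k) ((hW'.bdd hb).comp _))]
      congr 1; ext x; simp [mul_add]
    simp only [e1, e2, Finset.sum_add_distrib, h3 u v hu hv hb, h3' u v hu hv hb]

variable [Fintype I] [DecidableEq X]

/-- The trace. -/
noncomputable def tr (μ : Measure X) (Z : Op I X) : ℝ :=
  ∑ i, ∫ y, Z (Pi.single (i, y) 1) (i, y) ∂μ

variable [IsFiniteMeasure μ]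

omit [Fintype I] in
theorem Nice.integrable_kernel (hμ : MP Γ μ)
    (hfix : ∀ γ : Γ, MeasurableSet {x : X | γ • x = x}) {Z : Op I X} (h : Nice Γ mX Z)
    (i : I) : Integrable (fun y : X => Z (Pi.single (i, y) 1) (i, y)) μ := by
  have := h.measurable_kernel hμ.inv hfix i i 1 1
  simp only [one_smul] at this
  exact (h.bdd_kernel (fun y => (i, y)) (fun y => (i, y))).integrable this

theorem tr_add (hμ : MP Γ μ) (hfix : ∀ γ : Γ, MeasurableSet {x : X | γ • x = x})
    {Z W : Op I X} (hZ : Nice Γ mX Z) (hW : Nice Γ mX W) : tr μ (Z + W) = tr μ Z + tr μ W := by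
  unfold tr
  rw [← Finset.sum_add_distrib]
  refine Finset.sum_congr rfl fun i _ => ?_
  rw [← integral_add (hZ.integrable_kernel hμ hfix i) (hW.integrable_kernel hμ hfix i)]
  rfl

omit [IsFiniteMeasure μ] in
theorem tr_smul (c : ℝ) (Z : Op I X) : tr μ (c • Z) = c * tr μ Z := by
  unfold tr
  rw [Finset.mul_sum]
  refine Finset.sum_congr rfl fun i _ => ?_
  rw [← integral_const_mul]
  rfl

theorem tr_sub (hμ : MP Γ μ) (hfix : ∀ γ : Γ, MeasurableSet {x : X | γ • x = x})
    {Z W : Op I X} (hZ : Nice Γ mX Z) (hW : Nice Γ mX W) : tr μ (Z - W) = tr μ Z - tr μ W := by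
  rw [sub_eq_add_neg, ← neg_one_smul ℝ W, tr_add hμ hfix hZ (hW.smul _), tr_smul]; ring

omit [Fintype I] in
theorem gen_single (a : X → ℝ) (γ : Γ) (i i' k : I) (y : X) :
    gen a γ i i' (Pi.single (k, y) 1) =
      (if k = i' then a (γ • y) else 0) • (Pi.single (i, γ • y) 1 : I × X → ℝ) := by
  ext ⟨j, x⟩
  rw [gen_apply, Pi.smul_apply, smul_eq_mul]
  by_cases h : (j, x) = (i, γ • y)
  · obtain ⟨rfl, rfl⟩ := Prod.mk.inj h
    by_cases hk : k = i'
    · subst hk; simp
    · simp [hk, Ne.symm hk]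
  · rw [Pi.single_eq_of_ne h, mul_zero]
    split_ifs with hj
    · simp only at hj
      subst hj
      rw [Pi.single_eq_of_ne, mul_zero]
      intro h'
      apply h
      have : γ⁻¹ • x = y := congrArg Prod.snd h'
      rw [← this, smul_inv_smul]
    · rfl

theorem tr_comm (hμ : MP Γ μ) (hfix : ∀ γ : Γ, MeasurableSet {x : X | γ • x = x})
    {Z W : Op I X} (hZ : Nice Γ mX Z) (hW : Nice Γ mX W) : tr μ (Z * W) = tr μ (W * Z) := by
  induction hZ with
  | gen a γ i i' ha hb =>
    unfold tr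
    rw [Finset.sum_eq_single i, Finset.sum_eq_single i']
    · simp only [Module.End.mul_apply, gen_single, map_smul, if_true, gen_apply, Pi.smul_apply,
        smul_eq_mul]
      rw [← hμ.integral_comp γ]
      simp only [inv_smul_smul]
    · intro k _ hk; simp [gen_single, hk]
    · simp
    · intro k _ hk; simp [gen_apply, hk]
    · simp
  | zero => rw [zero_mul, mul_zero]
  | add hZ hZ' ih ih' =>
    rw [add_mul, mul_add, tr_add hμ hfix (hZ.mul hμ.inv hW) (hZ'.mul hμ.inv hW),
      tr_add hμ hfix (hW.mul hμ.inv hZ) (hW.mul hμ.inv hZ'), ih, ih']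

omit [Fintype I] in
theorem Adj.diag {Z Z' : Op I X} (h : Adj Z Z') (Y : Op I X) (p : I × X) :
    (Z' * (Y * Z)) (Pi.single p 1) p = ip (Z (Pi.single p 1)) (Y (Z (Pi.single p 1))) := by
  rw [h _ _ (finS_single p 1), ip_single_left]; rfl

omit [Fintype I] in
theorem Adj.unique {Z Z' Z'' : Op I X} (h : Adj Z Z') (h' : Adj Z Z'') : Z' = Z'' := by
  ext v p
  rw [← ip_single_left p (Z' v), ← ip_single_left p (Z'' v), ← h _ _ (finS_single p 1),
    ← h' _ _ (finS_single p 1)]

omit [IsFiniteMeasure μ] in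
theorem tr_nonneg {Z : Op I X} (h : ∀ p, 0 ≤ Z (Pi.single p 1) p) : 0 ≤ tr μ Z :=
  Finset.sum_nonneg fun _ _ => integral_nonneg fun _ => h _

end Pool.Agent.Lib.MP_d3f853_an
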