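import Mathlib
import Pool.Agent.Lib.MP_d3f853_an.Trace

namespace Pool.Agent.Lib.MP_d3f853_an

open Function MeasureTheory
open scoped Pointwise

variable {Γ X I : Type*} [Group Γ] [MulAction Γ X] [DecidableEq I]
  {mX : MeasurableSpace X} {μ : Measure X}

/-- The loss functional. -/
noncomputable def loss (T' : Op I X) (l : ℝ) (p : I × X) (v : I × X → ℝ) : ℝ :=
  1 - 2 * v p + ip v v + l * ip (T' v) (T' v)

/-- Indicator of a set of indices. -/
def indS (S : Finset I) : I × X → ℝ := fun p => if p.1 ∈ S then 1 else 0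

theorem exists_test [Fintype I] [DecidableEq X] [IsProbabilityMeasure μ] (hμ : MP Γ μ)
    (hfix : ∀ γ : Γ, MeasurableSet {x : X | γ • x = x})
    {T T' : Op I X} (hT : Nice Γ mX T) (hT' : Nice Γ mX T') (h1 : Adj T T') (h2 : Adj T' T)
    (S : Finset I) (hQ : T * mulOp (indS S) = T) {l ε : ℝ} (hl : 0 ≤ l) (hε : 0 < ε) :
    ∃ B : Set Γ, B.Finite ∧ ∀ b : I × X → ℝ, (∀ p, b p = 0 ∨ b p = 1) →
      (∀ i, Measurable fun x => b (i, x)) →
      ∃ f : I × X → ℝ, (∀ i, Integrable (fun y => f (i, y)) μ) ∧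
        ∑ i, ∫ y, f (i, y) ∂μ ≤ S.card + ε ∧
        ∀ p, (b p = 0 → f p = 0) ∧ (b p = 1 → ∃ v : I × X → ℝ,
          (∀ q, v q ≠ 0 → b q = 1 ∧ ∃ γ ∈ B, q.2 = γ • p.2) ∧ loss T' l p v = f p) := by
  obtain ⟨C, hC, hschur⟩ := hT.schur
  obtain ⟨BT, hBT, hlT⟩ := hT.loc
  obtain ⟨BT', hBT', hlT'⟩ := hT'.loc
  obtain ⟨L, hL⟩ := exists_nat_gt (l * C * S.card / ε)
  have hL0 : (0 : ℝ) < L := lt_of_le_of_lt (by positivity) hL
  set B1 : Set Γ := {1} ∪ ({1} * BT * (BT' * {1})) with hB1
  have hB1f : B1.Finite := (Set.finite_singleton _).union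
    (((Set.finite_singleton _).mul hBT).mul (hBT'.mul (Set.finite_singleton _)))
  have hpowf : ∀ n : ℕ, (B1 ^ n).Finite := by
    intro n
    induction n with
    | zero => rw [pow_zero]; exact Set.finite_singleton _
    | succ n ih => rw [pow_succ]; exact ih.mul hB1f
  refine ⟨⋃ i ∈ Finset.range L, B1 ^ (2 * i) * {1}, Set.Finite.biUnion (Finset.finite_toSet _)
    fun i _ => (hpowf _).mul (Set.finite_singleton _), ?_⟩
  intro b hb hbm
  have hG := hμ.inv
  set P : Op I X := mulOp b with hP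
  set Q : Op I X := mulOp (indS S) with hQdef
  have hPn : Nice Γ mX P := nice_mulOp hbm ⟨1, fun p => by rcases hb p with h | h <;> simp [h]⟩
  have hQn : Nice Γ mX Q := nice_mulOp (fun i => measurable_const (a := if i ∈ S then (1 : ℝ) else 0))
    ⟨1, fun p => by simp only [indS]; split_ifs <;> simp⟩
  have hPP : P * P = P := by
    ext u p
    simp only [hP, Module.End.mul_apply, mulOp_apply]
    rcases hb p with h | h <;> simp [h]
  have hQQ : Q * Q = Q := by
    ext u p
    simp only [hQdef, Module.End.mul_apply, mulOp_apply, indS]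
    split_ifs <;> simp
  have hQT' : Q * T' = T' := by
    have := Adj.mul hQn h1 (adj_mulOp (indS S))
    rw [hQ] at this
    exact this.unique h1
  obtain ⟨A, hA⟩ : ∃ A : Op I X, A = P * T := ⟨_, rfl⟩
  obtain ⟨A', hA'⟩ : ∃ A' : Op I X, A' = T' * P := ⟨_, rfl⟩
  have hAn : Nice Γ mX A := hA ▸ hPn.mul hG hT
  have hA'n : Nice Γ mX A' := hA' ▸ hT'.mul hG hPn
  have hadjA : Adj A A' := by rw [hA, hA']; exact Adj.mul hT (adj_mulOp b) h1
  have hadjA' : Adj A' A := by rw [hA, hA']; exact Adj.mul hPn h2 (adj_mulOp b)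
  have hPA : P * A = A := by rw [hA, ← mul_assoc, hPP]
  have hAQ : A * Q = A := by rw [hA, mul_assoc, hQ]
  have hQA' : Q * A' = A' := by rw [hA', ← mul_assoc, hQT']
  have hA'P : A' * P = A' := by rw [hA', mul_assoc, hPP]
  obtain ⟨W, hW⟩ : ∃ W : Op I X, W = P - C⁻¹ • (A * A') := ⟨_, rfl⟩
  obtain ⟨W', hW'⟩ : ∃ W' : Op I X, W' = Q - C⁻¹ • (A' * A) := ⟨_, rfl⟩
  have hWn : Nice Γ mX W := hW ▸ hPn.sub ((hAn.mul hG hA'n).smul _)
  have hW'n : Nice Γ mX W' := hW' ▸ hQn.sub ((hA'n.mul hG hAn).smul _)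
  have hadjW : Adj W W := hW ▸ Adj.sub hPn ((hAn.mul hG hA'n).smul _) (adj_mulOp b)
    ((Adj.mul hA'n hadjA hadjA').smul _)
  have hadjW' : Adj W' W' := hW' ▸ Adj.sub hQn ((hA'n.mul hG hAn).smul _) (adj_mulOp _)
    ((Adj.mul hAn hadjA' hadjA).smul _)
  have hWA : SemiconjBy A W' W := by
    unfold SemiconjBy
    rw [hW, hW', mul_sub, sub_mul, hAQ, hPA, mul_smul_comm, smul_mul_assoc, mul_assoc]
  have hWA' : SemiconjBy A' W W' := by
    unfold SemiconjBy
    rw [hW, hW', mul_sub, sub_mul, hA'P, hQA', mul_smul_comm, smul_mul_assoc, mul_assoc]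
  have hWP : W * P = W := by
    rw [hW, sub_mul, hPP, smul_mul_assoc, mul_assoc, hA'P]
  have hPW : P * W = W := by
    rw [hW, mul_sub, hPP, mul_smul_comm, ← mul_assoc, hPA]
  have hW'Q : W' * Q = W' := by
    rw [hW', sub_mul, hQQ, smul_mul_assoc, mul_assoc, hAQ]
  have hQW' : Q * W' = W' := by
    rw [hW', mul_sub, hQQ, mul_smul_comm, ← mul_assoc, hQA']
  have cPW : ∀ n, P * W ^ n = W ^ n * P := fun n =>
    (Commute.pow_right (show Commute P W from hPW.trans hWP.symm) n)
  have cQW : ∀ n, Q * W' ^ n = W' ^ n * Q := fun n =>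
    (Commute.pow_right (show Commute Q W' from hQW'.trans hW'Q.symm) n)
  have cA : ∀ n, A * W' ^ n = W ^ n * A := fun n => hWA.pow_right n
  have cA' : ∀ n, A' * W ^ n = W' ^ n * A' := fun n => hWA'.pow_right n
  set a : ℕ → ℝ := fun k => tr μ (W ^ k * P) with ha
  set a' : ℕ → ℝ := fun k => tr μ (W' ^ k * Q) with ha'
  set d : ℕ → ℝ := fun k => tr μ (W ^ k * (A * A')) with hd
  have had : ∀ k, a k - a (k + 1) = C⁻¹ * d k := by
    intro k
    simp only [ha, hd]
    rw [← tr_sub hμ hfix ((hWn.pow hG _).mul hG hPn) ((hWn.pow hG _).mul hG hPn), ← tr_smul]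
    congr 1
    rw [pow_succ, mul_assoc, hWP, ← mul_sub, ← mul_smul_comm, hW, sub_sub_cancel]
  have ha'd : ∀ k, a' k - a' (k + 1) = C⁻¹ * d k := by
    intro k
    have e : d k = tr μ (W' ^ k * (A' * A)) := by
      simp only [hd]
      rw [← mul_assoc, ← cA, mul_assoc,
        tr_comm hμ hfix hAn ((hW'n.pow hG _).mul hG hA'n), mul_assoc]
    simp only [ha']
    rw [e, ← tr_sub hμ hfix ((hW'n.pow hG _).mul hG hQn) ((hW'n.pow hG _).mul hG hQn), ← tr_smul]
    congr 1
    rw [pow_succ, mul_assoc, hW'Q, ← mul_sub, ← mul_smul_comm, hW', sub_sub_cancel]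
  have haa' : ∀ k, a 0 - a k = a' 0 - a' k := by
    intro k
    induction k with
    | zero => simp
    | succ k ih => linarith [had k, ha'd k]
  have ha'0 : a' 0 = S.card := by
    simp only [ha', pow_zero, one_mul, tr, hQdef, mulOp_apply, indS, Pi.single_eq_same, mul_one]
    have : ∀ i : I, ∫ _ : X, (if i ∈ S then (1 : ℝ) else 0) ∂μ = if i ∈ S then 1 else 0 := by
      intro i; simp
    simp only [this]
    simp
  have ha'even : ∀ n, 0 ≤ a' (2 * n) := by
    intro n
    apply tr_nonneg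
    intro p
    have e : W' ^ (2 * n) * Q = (Q * W' ^ n) * (1 * (W' ^ n * Q)) := by
      rw [one_mul, cQW, mul_assoc, ← mul_assoc Q, cQW, mul_assoc, hQQ, ← mul_assoc, ← pow_add,
        two_mul]
    rw [e, Adj.diag (Adj.mul hQn (Adj.pow hW'n hadjW' n) (adj_mulOp _))]
    exact ip_self_nonneg _
  have hadjAW : ∀ n, Adj (A' * W ^ n) (W ^ n * A) := fun n =>
    Adj.mul (hWn.pow hG n) hadjA' (Adj.pow hWn hadjW n)
  have e2 : ∀ n, W ^ (2 * n) * (A * A') = (W ^ n * A) * (1 * (A' * W ^ n)) := by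
    intro n
    rw [one_mul, cA', mul_assoc, ← mul_assoc A, cA, ← mul_assoc, ← mul_assoc, ← mul_assoc,
      ← pow_add, two_mul]
  have hd0 : ∀ k, 0 ≤ d k := by
    intro k
    apply tr_nonneg
    intro p
    obtain ⟨n, rfl | rfl⟩ := Nat.even_or_odd' k
    · rw [e2, Adj.diag (hadjAW n)]
      exact ip_self_nonneg _
    · have e : W ^ (2 * n + 1) * (A * A') = (W ^ n * A) * (W' * (A' * W ^ n)) := by
        rw [cA', ← mul_assoc W', ← pow_succ', mul_assoc, ← mul_assoc A, cA, ← mul_assoc,
          ← mul_assoc, ← mul_assoc, ← pow_add]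
        congr 3; ring
      rw [e, Adj.diag (hadjAW n)]
      set u := (A' * W ^ n) (Pi.single p 1) with hu
      have hufin : FinS u := (hA'n.mul hG (hWn.pow hG n)).finS (finS_single p 1)
      have hQu : Q u = u := by
        rw [hu, ← Module.End.mul_apply, ← mul_assoc, hQA']
      have e3 : ip u (W' u) = ip u u - C⁻¹ * ip (A u) (A u) := by
        rw [hW', LinearMap.sub_apply, ip_sub_right hufin, hQu, LinearMap.smul_apply, ip_smul_right,
          Module.End.mul_apply, hadjA u _ hufin]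
      have e4 : ip (A u) (A u) ≤ ip (T u) (T u) := by
        apply ip_self_le_of_le (hT.finS hufin)
        intro q
        simp only [hA, hP, Module.End.mul_apply, mulOp_apply]
        rcases hb q with h | h <;> simp [h, mul_self_nonneg]
      have e5 := hschur u hufin
      rw [e3, sub_nonneg, inv_mul_le_iff₀ hC]
      linarith
  have hanti : Antitone a := antitone_nat_of_succ_le fun k => by
    have := had k
    have := mul_nonneg (inv_nonneg.2 hC.le) (hd0 k)
    linarith
  have hbound : ∀ n, a 0 - a (2 * n) ≤ S.card := fun n => by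
    rw [haa', ha'0]; linarith [ha'even n]
  obtain ⟨i, hi, hdi⟩ : ∃ i ∈ Finset.range L, C⁻¹ * d (4 * i) ≤ S.card / L := by
    have hLpos : 0 < L := by exact_mod_cast hL0
    apply Finset.exists_le_of_sum_le (Finset.nonempty_range_iff.2 hLpos.ne')
    have h3 : ∑ i ∈ Finset.range L, C⁻¹ * d (4 * i) ≤
        ∑ i ∈ Finset.range L, (a (4 * i) - a (4 * (i + 1))) := by
      refine Finset.sum_le_sum fun i _ => ?_
      rw [← had]
      have : a (4 * (i + 1)) ≤ a (4 * i + 1) := hanti (by omega)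
      linarith
    rw [Finset.sum_range_sub' (fun i => a (4 * i))] at h3
    have h4 := hbound (2 * L)
    rw [show 2 * (2 * L) = 4 * L by ring] at h4
    simp only [Finset.sum_const, Finset.card_range, nsmul_eq_mul, mul_zero] at h3 ⊢
    rw [mul_div_cancel₀ _ hL0.ne']
    linarith
  obtain ⟨n, hn⟩ : ∃ n : ℕ, n = 2 * i := ⟨_, rfl⟩
  set M : Op I X := P - (2 : ℝ) • (W ^ n * P) + W ^ (2 * n) * P + l • (W ^ (2 * n) * (A * A'))
    with hM
  have hn1 : Nice Γ mX ((2 : ℝ) • (W ^ n * P)) := ((hWn.pow hG _).mul hG hPn).smul _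
  have hn2 : Nice Γ mX (W ^ (2 * n) * P) := (hWn.pow hG _).mul hG hPn
  have hn3 : Nice Γ mX (l • (W ^ (2 * n) * (A * A'))) :=
    ((hWn.pow hG _).mul hG (hAn.mul hG hA'n)).smul _
  have hMn : Nice Γ mX M := ((hPn.sub hn1).add hn2).add hn3
  refine ⟨fun p => M (Pi.single p 1) p, fun i => hMn.integrable_kernel hμ hfix i, ?_, ?_⟩
  · have e : tr μ M = a 0 - 2 * a n + a (2 * n) + l * d (2 * n) := by
      rw [hM, tr_add hμ hfix ((hPn.sub hn1).add hn2) hn3, tr_add hμ hfix (hPn.sub hn1) hn2,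
        tr_sub hμ hfix hPn hn1, tr_smul, tr_smul]
      simp only [ha, hd, pow_zero, one_mul]
    change tr μ M ≤ _
    rw [e]
    have h5 : a (2 * n) ≤ a n := hanti (by omega)
    have h6 := hbound i
    rw [← hn] at h6
    have h7 : d (2 * n) ≤ C * (S.card / L) := by
      rw [show 2 * n = 4 * i by omega]
      rwa [inv_mul_le_iff₀ hC] at hdi
    have h8 : l * d (2 * n) ≤ ε := by
      rw [div_lt_iff₀ hε] at hL
      calc l * d (2 * n) ≤ l * (C * (S.card / L)) := mul_le_mul_of_nonneg_left h7 hl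
        _ = l * C * S.card / L := by ring
        _ ≤ ε := by rw [div_le_iff₀ hL0]; linarith
    linarith
  · intro p
    constructor
    · intro hp
      have hP0 : P (Pi.single p 1) = 0 := by
        ext q
        rw [hP, mulOp_apply]
        by_cases hq : q = p
        · subst hq; simp [hp]
        · simp [hq]
      simp [hM, hA', hP0]
    · intro hp
      have hP1 : P (Pi.single p 1) = Pi.single p 1 := by
        ext q
        rw [hP, mulOp_apply]
        by_cases hq : q = p
        · subst hq; simp [hp]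
        · simp [hq]
      refine ⟨(W ^ n * P) (Pi.single p 1), ?_, ?_⟩
      · intro q hq
        constructor
        · rw [← cPW, Module.End.mul_apply, hP, mulOp_apply] at hq
          rcases hb q with h | h
          · simp [h] at hq
          · exact h
        · have hlW : Loc W B1 := by
            rw [hW, hA, hA']
            refine ((loc_mulOp b).mono Set.subset_union_left).sub (Loc.smul ?_ _)
            exact (((loc_mulOp b).mul hlT).mul (hlT'.mul (loc_mulOp b))).mono
              Set.subset_union_right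
          have hl2 : Loc (W ^ n * P) (B1 ^ n * {1}) := (hlW.pow n).mul (loc_mulOp b)
          by_contra hcon
          refine hq (hl2 _ q fun j γ hγ => ?_)
          rw [Pi.single_eq_of_ne]
          intro h
          refine hcon ⟨γ, Set.mem_biUnion (Finset.mem_coe.2 hi) (hn ▸ hγ), ?_⟩
          rw [← h, smul_inv_smul]
      · have hadjV : Adj (W ^ n * P) (P * W ^ n) :=
          Adj.mul hPn (Adj.pow hWn hadjW n) (adj_mulOp b)
        have e1 : W ^ (2 * n) * P = (P * W ^ n) * (1 * (W ^ n * P)) := by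
          rw [one_mul, cPW, mul_assoc, ← mul_assoc P, cPW, mul_assoc, hPP, ← mul_assoc, ← pow_add,
            two_mul]
        have e3 : T' ((W ^ n * P) (Pi.single p 1)) = (A' * W ^ n) (Pi.single p 1) := by
          rw [← Module.End.mul_apply, ← cPW, ← mul_assoc, hA']
        unfold loss
        rw [e3]
        simp only [hM, LinearMap.add_apply, LinearMap.sub_apply, LinearMap.smul_apply, Pi.add_apply,
          Pi.sub_apply, Pi.smul_apply, smul_eq_mul]
        rw [e1, e2, Adj.diag hadjV, Adj.diag (hadjAW n), hP1]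
        simp

end Pool.Agent.Lib.MP_d3f853_an
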