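import Mathlib
import Pool.Agent.Lib.MP_d3f853_an.Test

namespace Pool.Agent.Lib.MP_d3f853_an

open Function MeasureTheory
open scoped Pointwise

variable {Γ X I : Type*} [Group Γ] [MulAction Γ X] [DecidableEq I] [Fintype I] [DecidableEq X]

/-- A finitely supported vector near `y`. -/
noncomputable def uvec (B : Finset Γ) (c : B → I → ℝ) (y : X) : I × X → ℝ :=
  ∑ γ : B, ∑ k, c γ k • (Pi.single (k, (γ : Γ) • y) 1 : I × X → ℝ)

theorem uvec_apply (B : Finset Γ) (c : B → I → ℝ) (y : X) (q : I × X) :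
    uvec B c y q = ∑ γ : B, if q.2 = (γ : Γ) • y then c γ q.1 else 0 := by
  obtain ⟨k, x⟩ := q
  simp only [uvec, Finset.sum_apply, Pi.smul_apply, smul_eq_mul]
  refine Finset.sum_congr rfl fun γ _ => ?_
  rw [Finset.sum_eq_single k]
  · by_cases h : x = (γ : Γ) • y
    · subst h; simp
    · simp [h]
  · intro j _ hj
    rw [Pi.single_eq_of_ne, mul_zero]
    intro h; exact hj (congrArg Prod.fst h).symm
  · simp

theorem finS_uvec (B : Finset Γ) (c : B → I → ℝ) (y : X) : FinS (uvec B c y) :=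
  FinS.sum _ _ fun _ _ => FinS.sum _ _ fun _ _ => (finS_single _ _).smul _

theorem ip_uvec (B : Finset Γ) (c : B → I → ℝ) (y : X) (w : I × X → ℝ) :
    ip (uvec B c y) w = ∑ γ : B, ∑ k, c γ k * w (k, (γ : Γ) • y) := by
  unfold uvec
  rw [ip_sum_left _ _ fun _ _ => FinS.sum _ _ fun _ _ => (finS_single _ _).smul _]
  refine Finset.sum_congr rfl fun γ _ => ?_
  rw [ip_sum_left _ _ fun _ _ => (finS_single _ _).smul _]
  refine Finset.sum_congr rfl fun k _ => ?_
  rw [ip_smul_left, ip_single_left]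

theorem map_uvec (Z : Op I X) (B : Finset Γ) (c : B → I → ℝ) (y : X) (q : I × X) :
    Z (uvec B c y) q = ∑ γ : B, ∑ k, c γ k * Z (Pi.single (k, (γ : Γ) • y) 1) q := by
  simp only [uvec, map_sum, map_smul, Finset.sum_apply, Pi.smul_apply, smul_eq_mul]

omit [DecidableEq I] [Fintype I] [DecidableEq X] in
theorem FinS.mulOp {u : I × X → ℝ} (hu : FinS u) (b : I × X → ℝ) : FinS (mulOp b u) :=
  hu.of_subset fun p hp => by rw [mulOp_apply, hp, mul_zero]

omit [DecidableEq I] [Fintype I] [DecidableEq X] in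
theorem energy_eq {T T' : Op I X} (h2 : Adj T' T) (l : ℝ) (b : I × X → ℝ) {u : I × X → ℝ}
    (hu : FinS u) :
    ip (mulOp b u) (mulOp b u) + l * ip (T' (mulOp b u)) (T' (mulOp b u)) =
      ip u ((mulOp b * ((1 + l • (T * T')) * mulOp b)) u) := by
  have hw := hu.mulOp b
  rw [Module.End.mul_apply, ← adj_mulOp b u _ hu, Module.End.mul_apply, LinearMap.add_apply,
    ip_add_right hw, LinearMap.smul_apply, ip_smul_right, h2 _ _ hw]
  rfl

/-- Loss of a candidate. -/
noncomputable def lossR (T' : Op I X) (l : ℝ) (B : Finset Γ) (b : I × X → ℝ) (p : I × X)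
    (c : B → I → ℝ) : ℝ :=
  loss T' l p (mulOp b (uvec B c p.2))

theorem lossR_eq {T T' : Op I X} (h2 : Adj T' T) (l : ℝ) (B : Finset Γ) (b : I × X → ℝ)
    (p : I × X) (c : B → I → ℝ) :
    lossR T' l B b p c = 1 - 2 * (∑ γ : B, ∑ k, c γ k *
        mulOp b (Pi.single (k, (γ : Γ) • p.2) 1) p) +
      ∑ γ : B, ∑ k, c γ k * ∑ γ' : B, ∑ k', c γ' k' *
        (mulOp b * ((1 + l • (T * T')) * mulOp b)) (Pi.single (k', (γ' : Γ) • p.2) 1)
          (k, (γ : Γ) • p.2) := by
  unfold lossR loss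
  rw [add_assoc, energy_eq h2 l b (finS_uvec B c p.2), ip_uvec, map_uvec]
  simp only [map_uvec]

theorem continuous_lossR {T T' : Op I X} (h2 : Adj T' T) (l : ℝ) (B : Finset Γ) (b : I × X → ℝ)
    (p : I × X) : Continuous (lossR T' l B b p) := by
  have : lossR T' l B b p = _ := funext fun c => lossR_eq h2 l B b p c
  rw [this]
  fun_prop

theorem measurable_lossR {G : MeasurableSpace X} (hG : Inv Γ G)
    (hfix : ∀ γ : Γ, MeasurableSet[G] {x : X | γ • x = x})
    {T T' : Op I X} (hT : Nice Γ G T) (hT' : Nice Γ G T') (h2 : Adj T' T) (l : ℝ) (B : Finset Γ)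
    {b : I × X → ℝ} (hb : ∀ i, Measurable[G] fun x => b (i, x)) (hb' : Bdd b) (i : I)
    (c : B → I → ℝ) : Measurable[G] fun y => lossR T' l B b (i, y) c := by
  have hP : Nice Γ G (mulOp b) := nice_mulOp hb hb'
  have hR : Nice Γ G (mulOp b * ((1 + l • (T * T')) * mulOp b)) :=
    hP.mul hG ((nice_one.add ((hT.mul hG hT').smul l)).mul hG hP)
  simp only [lossR_eq h2]
  refine (measurable_const.sub (Measurable.const_mul ?_ _)).add ?_
  · refine Finset.measurable_sum _ fun γ _ => Finset.measurable_sum _ fun k _ => ?_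
    have := hP.measurable_kernel hG hfix k i γ 1
    simp only [one_smul] at this
    exact this.const_mul _
  · refine Finset.measurable_sum _ fun γ _ => Finset.measurable_sum _ fun k _ => ?_
    refine Measurable.const_mul ?_ _
    refine Finset.measurable_sum _ fun γ' _ => Finset.measurable_sum _ fun k' _ => ?_
    exact (hR.measurable_kernel hG hfix k' k γ' γ).const_mul _

omit [DecidableEq I] [Fintype I] [DecidableEq X] in
theorem loss_facts (T' : Op I X) {l : ℝ} (hl : 0 ≤ l) (p : I × X) {v : I × X → ℝ} (hv : FinS v) :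
    0 ≤ loss T' l p v ∧ (1 - loss T' l p v) / 2 ≤ v p ∧
      (loss T' l p v ≤ 2 → ip v v + l * ip (T' v) (T' v) ≤ 6 ∧ ∀ q, |v q| ≤ 3) := by
  have h1 := sq_le_ip_self hv p
  have h2 : 0 ≤ l * ip (T' v) (T' v) := mul_nonneg hl (ip_self_nonneg _)
  have h3 := ip_self_nonneg v
  unfold loss
  refine ⟨by nlinarith [mul_self_nonneg (1 - v p)], by linarith, fun h => ?_⟩
  have h4 : ip v v + l * ip (T' v) (T' v) ≤ 6 := by nlinarith [mul_self_nonneg (2 - v p)]
  refine ⟨h4, fun q => ?_⟩
  have h5 := sq_le_ip_self hv q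
  rw [abs_le]
  constructor <;> nlinarith

/-- Rational candidates. -/
def Cand (B : Finset Γ) (I : Type*) := {c : B → I → ℚ // ∀ γ k, |c γ k| ≤ 4}

instance (B : Finset Γ) : Countable (Cand B I) := by unfold Cand; infer_instance

omit [Group Γ] [DecidableEq I] [Fintype I] in
instance (B : Finset Γ) : Inhabited (Cand B I) := ⟨⟨fun _ _ => 0, fun _ _ => by simp⟩⟩

/-- Real coefficients of a candidate. -/
def Cand.toR {B : Finset Γ} (c : Cand B I) : B → I → ℝ := fun γ k => (c.1 γ k : ℝ)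

omit [Group Γ] [DecidableEq I] [Fintype I] in
theorem Cand.abs_le {B : Finset Γ} (c : Cand B I) (γ : B) (k : I) : |c.toR γ k| ≤ 4 := by
  have := c.2 γ k
  unfold Cand.toR
  exact_mod_cast this

/-- Optimal loss. -/
noncomputable def phi (T' : Op I X) (l : ℝ) (B : Finset Γ) (b : I × X → ℝ) (p : I × X) : ℝ :=
  ⨅ c : Cand B I, lossR T' l B b p c.toR

theorem lossR_nonneg (T' : Op I X) {l : ℝ} (hl : 0 ≤ l) (B : Finset Γ) (b : I × X → ℝ)
    (p : I × X) (c : B → I → ℝ) : 0 ≤ lossR T' l B b p c :=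
  (loss_facts T' hl p ((finS_uvec B c p.2).mulOp b)).1

theorem phi_le (T' : Op I X) {l : ℝ} (hl : 0 ≤ l) (B : Finset Γ) (b : I × X → ℝ)
    (p : I × X) (c : Cand B I) : phi T' l B b p ≤ lossR T' l B b p c.toR :=
  ciInf_le ⟨0, by rintro _ ⟨c, rfl⟩; exact lossR_nonneg T' hl B b p _⟩ c

theorem phi_nonneg (T' : Op I X) {l : ℝ} (hl : 0 ≤ l) (B : Finset Γ) (b : I × X → ℝ)
    (p : I × X) : 0 ≤ phi T' l B b p :=
  le_ciInf fun _ => lossR_nonneg T' hl B b p _

theorem phi_le_one (T' : Op I X) {l : ℝ} (hl : 0 ≤ l) (B : Finset Γ) (b : I × X → ℝ)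
    (p : I × X) : phi T' l B b p ≤ 1 := by
  refine (phi_le T' hl B b p default).trans (le_of_eq ?_)
  have : uvec B (default : Cand B I).toR p.2 = 0 := by
    ext q; simp [uvec_apply, Cand.toR, default]
  unfold lossR loss
  rw [this]
  simp [ip_zero_left]

theorem measurable_phi {G : MeasurableSpace X} (hG : Inv Γ G)
    (hfix : ∀ γ : Γ, MeasurableSet[G] {x : X | γ • x = x})
    {T T' : Op I X} (hT : Nice Γ G T) (hT' : Nice Γ G T') (h2 : Adj T' T) (l : ℝ) (B : Finset Γ)
    {b : I × X → ℝ} (hb : ∀ i, Measurable[G] fun x => b (i, x)) (hb' : Bdd b) (i : I) :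
    Measurable[G] fun y => phi T' l B b (i, y) :=
  Measurable.iInf fun c => measurable_lossR hG hfix hT hT' h2 l B hb hb' i c.toR

theorem phi_mono (T' : Op I X) {l : ℝ} (hl : 0 ≤ l) (B : Finset Γ) {b b' : I × X → ℝ}
    (hb' : ∀ p, b' p = 0 ∨ b' p = 1) (h : ∀ p, b' p = 1 → b p = 1) (p : I × X) :
    phi T' l B b p ≤ phi T' l B b' p := by
  refine le_ciInf fun c => ?_
  let c' : Cand B I := ⟨fun γ k => if b' (k, (γ : Γ) • p.2) = 1 then c.1 γ k else 0, fun γ k => by
    dsimp only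
    split_ifs
    · exact c.2 γ k
    · simp⟩
  refine (phi_le T' hl B b p c').trans (le_of_eq ?_)
  unfold lossR
  congr 1
  ext q
  rw [mulOp_apply, mulOp_apply, uvec_apply, uvec_apply, Finset.mul_sum, Finset.mul_sum]
  refine Finset.sum_congr rfl fun γ _ => ?_
  split_ifs with hq
  · simp only [Cand.toR, c', ← hq]
    rcases hb' q with h0 | h1
    · simp [h0]
    · simp [h1, h q h1]
  · simp

theorem phi_le_loss {T T' : Op I X} (h2 : Adj T' T) {l : ℝ} (hl : 0 ≤ l) (B : Finset Γ)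
    (b : I × X → ℝ) (p : I × X) (v : I × X → ℝ)
    (hv : ∀ q, v q ≠ 0 → b q = 1 ∧ ∃ γ ∈ B, q.2 = γ • p.2) :
    phi T' l B b p ≤ loss T' l p v := by
  classical
  have hfin : FinS v := by
    refine Set.Finite.subset (Set.finite_univ.prod ((B.finite_toSet).image fun γ : Γ => γ • p.2)) ?_
    intro q hq
    obtain ⟨-, γ, hγ, h⟩ := hv q hq
    exact ⟨Set.mem_univ _, γ, hγ, h.symm⟩
  by_cases hbig : 1 ≤ loss T' l p v
  · exact (phi_le_one T' hl B b p).trans hbig
  have hv3 := ((loss_facts T' hl p hfin).2.2 (by linarith)).2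
  let rep : X → Γ := fun x => if h : ∃ γ ∈ B, x = γ • p.2 then h.choose else 1
  let c : B → I → ℝ := fun γ k =>
    if rep ((γ : Γ) • p.2) = γ then v (k, (γ : Γ) • p.2) else 0
  have hc3 : ∀ γ k, |c γ k| ≤ 3 := by
    intro γ k
    simp only [c]
    split_ifs
    · exact hv3 _
    · simp
  have hcv : mulOp b (uvec B c p.2) = v := by
    ext q
    rw [mulOp_apply, uvec_apply]
    by_cases hq : v q = 0
    · rw [hq, Finset.sum_eq_zero, mul_zero]
      intro γ _
      split_ifs with h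
      · simp only [c, ← h]
        split_ifs
        · exact hq
        · rfl
      · rfl
    · obtain ⟨hb1, hex⟩ := hv q hq
      have hrep : rep q.2 = hex.choose := by simp only [rep, dif_pos hex]
      rw [hb1, one_mul, Finset.sum_eq_single (⟨hex.choose, hex.choose_spec.1⟩ : B)]
      · rw [if_pos hex.choose_spec.2]
        simp only [c, ← hex.choose_spec.2, hrep, if_true]
      · intro γ _ hγ
        split_ifs with h
        · simp only [c, ← h, hrep]
          rw [if_neg]
          intro h'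
          exact hγ (Subtype.ext h'.symm)
        · rfl
      · simp
  have hval : lossR T' l B b p c = loss T' l p v := by unfold lossR; rw [hcv]
  rw [← hval]
  refine le_of_forall_pos_lt_add fun η hη => ?_
  have hopen : IsOpen ({c' : B → I → ℝ | lossR T' l B b p c' < lossR T' l B b p c + η} ∩
      ⋂ γ, ⋂ k, {c' : B → I → ℝ | |c' γ k| < 4}) := by
    refine (isOpen_lt (continuous_lossR h2 l B b p) continuous_const).inter ?_
    refine isOpen_iInter_of_finite fun γ => isOpen_iInter_of_finite fun k => ?_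
    exact isOpen_lt (by fun_prop) continuous_const
  have hdense : DenseRange (fun (c' : B → I → ℚ) (γ : B) (k : I) => (c' γ k : ℝ)) :=
    DenseRange.piMap fun _ => DenseRange.piMap fun _ => Rat.denseRange_cast
  obtain ⟨c', hc'1, hc'2⟩ := hdense.exists_mem_open hopen ⟨c, by
    refine ⟨by simp [hη], ?_⟩
    simp only [Set.mem_iInter, Set.mem_ofPred_eq]
    intro γ k; linarith [hc3 γ k]⟩
  simp only [Set.mem_iInter, Set.mem_ofPred_eq] at hc'1 hc'2
  refine lt_of_le_of_lt (phi_le T' hl B b p ⟨c', fun γ k => ?_⟩) hc'1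
  have := (hc'2 γ k).le
  exact_mod_cast this

theorem exists_selection {G : MeasurableSpace X} (hG : Inv Γ G)
    (hfix : ∀ γ : Γ, MeasurableSet[G] {x : X | γ • x = x})
    {T T' : Op I X} (hT : Nice Γ G T) (hT' : Nice Γ G T') (h2 : Adj T' T) (l : ℝ) (B : Finset Γ)
    {b : I × X → ℝ} (hb : ∀ i, Measurable[G] fun x => b (i, x)) (hb' : Bdd b) {ε : ℝ}
    (hε : 0 < ε) :
    ∃ c : I × X → B → I → ℝ, (∀ i γ k, Measurable[G] fun y => c (i, y) γ k) ∧
      (∀ p γ k, |c p γ k| ≤ 4) ∧ ∀ p, lossR T' l B b p (c p) ≤ phi T' l B b p + ε := by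
  classical
  obtain ⟨e, he⟩ := exists_surjective_nat (Cand B I)
  have hex : ∀ p : I × X, ∃ n, lossR T' l B b p (e n).toR < phi T' l B b p + ε := by
    intro p
    obtain ⟨c, hc⟩ := exists_lt_of_ciInf_lt
      (show (⨅ c : Cand B I, lossR T' l B b p c.toR) < phi T' l B b p + ε from
        lt_add_of_pos_right _ hε)
    obtain ⟨n, rfl⟩ := he c
    exact ⟨n, hc⟩
  refine ⟨fun p => (e (Nat.find (hex p))).toR, fun i γ k => ?_, fun p γ k => Cand.abs_le _ _ _,
    fun p => (Nat.find_spec (hex p)).le⟩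
  exact Measurable.find (f := fun n _ => (e n).toR γ k)
    (p := fun n y => lossR T' l B b (i, y) (e n).toR < phi T' l B b (i, y) + ε)
    (fun _ => measurable_const)
    (fun n => measurableSet_lt (measurable_lossR hG hfix hT hT' h2 l B hb hb' i _)
      ((measurable_phi hG hfix hT hT' h2 l B hb hb' i).add_const _)) (fun y => hex (i, y))

end Pool.Agent.Lib.MP_d3f853_an
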