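import Mathlib

set_option warn.classDefReducibility false

namespace Pool.Agent.Lib.MP_d3f853_an

open MeasureTheory
open scoped ENNReal

/-- Conditional Shannon entropy, given the sigma-algebra `G`, of the countable partition of `X`
into the fibres of `α`. -/
noncomputable def condEntropy {X : Type*} (G : MeasurableSpace X) {mX : MeasurableSpace X}
    (μ : Measure X) (α : X → ℕ) : ℝ≥0∞ :=
  ∑' n : ℕ, ∫⁻ x, ENNReal.ofReal
    (Real.negMulLog ((μ[(α ⁻¹' {n}).indicator (fun _ => (1 : ℝ)) | G]) x)) ∂μ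

/-- The sigma-algebra of invariant measurable sets. -/
def invSigma (Γ X : Type*) [SMul Γ X] [MeasurableSpace X] : MeasurableSpace X :=
  ⨅ γ : Γ, MeasurableSpace.invariants (fun x : X => γ • x)

/-- The smallest invariant sigma-algebra containing the fibres of `α`. -/
def orbitSigma (Γ : Type*) {X : Type*} [SMul Γ X] (α : X → ℕ) : MeasurableSpace X :=
  ⨆ γ : Γ, MeasurableSpace.comap (fun x : X => α (γ • x)) ⊤

/-- Rokhlin entropy relative to `A`. -/
noncomputable def rokhlinEntropy (Γ : Type*) {X : Type*} [SMul Γ X] (A : MeasurableSpace X)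
    [MeasurableSpace X] (μ : Measure X) : ℝ≥0∞ :=
  ⨅ (α : X → ℕ) (_ : Measurable α)
    (_ : ∀ s, MeasurableSet s →
      ∃ t, MeasurableSet[orbitSigma Γ α ⊔ A ⊔ invSigma Γ X] t ∧ s =ᵐ[μ] t),
    condEntropy (A ⊔ invSigma Γ X) μ α

/-- The closed span in `L¹` of the products `a · U_γ f_s` with `a` in `L^∞(X, A, μ)`. -/
noncomputable def orbitModule (Γ : Type*) [Group Γ] {X : Type*} [MulAction Γ X]
    (A : MeasurableSpace X) {mX : MeasurableSpace X} {μ : Measure X} {𝕜 : Type*} [RCLike 𝕜]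
    {m : ℕ} (f : Fin m → Lp 𝕜 1 μ) : Submodule 𝕜 (Lp 𝕜 1 μ) :=
  (Submodule.span 𝕜 {g : Lp 𝕜 1 μ | ∃ (a : X → 𝕜) (γ : Γ) (s : Fin m),
    AEStronglyMeasurable[A] a μ ∧ MemLp a ∞ μ ∧
      g =ᵐ[μ] fun x => a x * f s (γ⁻¹ • x)}).topologicalClosure

end Pool.Agent.Lib.MP_d3f853_an
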