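import Mathlib
import Pool.Agent.Lib.MP_d3f853_an.Defs

namespace Pool.Agent.Lib.MP_d3f853_an

open Function MeasureTheory Filter Topology
open scoped ENNReal

variable {X : Type*} {mX : MeasurableSpace X} {μ : Measure X}

theorem negMulLog_le_aux {p : ℝ} (hp : 0 ≤ p) (l : ℝ) :
    Real.negMulLog p ≤ l * p + Real.exp (-l) - p := by
  have hq := Real.exp_pos (-l)
  have h := Real.negMulLog_le_one_sub_self (div_nonneg hp hq.le)
  rcases hp.eq_or_lt with rfl | hp'
  · simp [hq.le]
  · rw [Real.negMulLog, Real.log_div hp'.ne' hq.ne', Real.log_exp] at h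
    have h2 := mul_le_mul_of_nonneg_left h hq.le
    have e1 : Real.exp (-l) * (-(p / Real.exp (-l)) * (Real.log p - -l)) =
        -p * Real.log p - l * p := by field_simp; ring
    have e2 : Real.exp (-l) * (1 - p / Real.exp (-l)) = Real.exp (-l) - p := by field_simp
    rw [e1, e2] at h2
    rw [Real.negMulLog]
    linarith

theorem atom_bound [IsProbabilityMeasure μ] {G : MeasurableSpace X} (hG : G ≤ mX) {s : Set X}
    (hs : MeasurableSet[mX] s) (l : ℝ) :
    ∫⁻ x, ENNReal.ofReal (Real.negMulLog ((μ[s.indicator (fun _ => (1 : ℝ)) | G]) x)) ∂μ ≤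
      ENNReal.ofReal (l * μ.real s + Real.exp (-l) - μ.real s) := by
  set p := μ[s.indicator (fun _ => (1 : ℝ)) | G] with hp
  have hi : Integrable (s.indicator (fun _ => (1 : ℝ))) μ := (integrable_const 1).indicator hs
  have h0 : 0 ≤ᵐ[μ] p := condExp_nonneg (ae_of_all _ fun x => Set.indicator_nonneg (by simp) x)
  have h1 : p ≤ᵐ[μ] fun _ => 1 := by
    have := condExp_mono (m := G) hi (integrable_const (1 : ℝ))
      (ae_of_all _ fun x => Set.indicator_le_self' (by simp) x)
    rwa [condExp_const hG] at this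
  have hpi : Integrable p μ := integrable_condExp
  have hint : ∫ x, p x ∂μ = μ.real s := by
    rw [hp, integral_condExp hG, integral_indicator hs]; simp
  have i1 : Integrable (fun x => l * p x + Real.exp (-l)) μ :=
    (hpi.const_mul l).add (integrable_const _)
  have e : ∫ x, (l * p x + Real.exp (-l) - p x) ∂μ = l * μ.real s + Real.exp (-l) - μ.real s := by
    rw [integral_sub i1 hpi, integral_add (hpi.const_mul l) (integrable_const _),
      integral_const_mul, hint]
    simp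
  have i2 : Integrable (fun x => l * p x + Real.exp (-l) - p x) μ := i1.sub hpi
  rw [← e, ofReal_integral_eq_lintegral_ofReal i2]
  · refine lintegral_mono_ae ?_
    filter_upwards [h0] with x hx
    exact ENNReal.ofReal_le_ofReal (negMulLog_le_aux hx l)
  · filter_upwards [h0, h1] with x hx hx'
    exact (Real.negMulLog_nonneg hx hx').trans (negMulLog_le_aux hx l)

/-- Cost of a set with a code length. -/
noncomputable def cost (μ : Measure X) (W : Set X) (c : ℝ) : ℝ≥0∞ :=
  ENNReal.ofReal c * μ W + ENNReal.ofReal (Real.exp (-c))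

/-- A countable family of sets that can be coded cheaply. -/
def Cheap (μ : Measure X) (ε : ℝ≥0∞) (𝓦 : Set (Set X)) : Prop :=
  ∃ (ι : Type) (_ : Countable ι) (W : ι → Set X) (c : ι → ℝ), (∀ i, MeasurableSet (W i)) ∧
    (∀ i, 1 ≤ c i) ∧ ∑' i, cost μ (W i) (c i) ≤ ε ∧ 𝓦 = Set.range W

theorem Cheap.measurableSet {ε : ℝ≥0∞} {𝓦 : Set (Set X)} (h : Cheap μ ε 𝓦) :
    ∀ W ∈ 𝓦, MeasurableSet W := by
  obtain ⟨ι, _, W, c, h1, -, -, rfl⟩ := h
  rintro _ ⟨i, rfl⟩
  exact h1 i

theorem Cheap.countable {ε : ℝ≥0∞} {𝓦 : Set (Set X)} (h : Cheap μ ε 𝓦) : 𝓦.Countable := by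
  obtain ⟨ι, _, W, c, -, -, -, rfl⟩ := h
  exact Set.countable_range W

theorem Cheap.mono {ε ε' : ℝ≥0∞} {𝓦 : Set (Set X)} (h : Cheap μ ε 𝓦) (hε : ε ≤ ε') :
    Cheap μ ε' 𝓦 := by
  obtain ⟨ι, hι, W, c, h1, h2, h3, h4⟩ := h
  exact ⟨ι, hι, W, c, h1, h2, h3.trans hε, h4⟩

theorem Cheap.iUnion {κ : Type} [Countable κ] {ε : κ → ℝ≥0∞} {𝓦 : κ → Set (Set X)}
    (h : ∀ k, Cheap μ (ε k) (𝓦 k)) : Cheap μ (∑' k, ε k) (⋃ k, 𝓦 k) := by
  choose ι hι W c h1 h2 h3 h4 using h
  refine ⟨Σ k, ι k, inferInstance, fun p => W p.1 p.2, fun p => c p.1 p.2, fun p => h1 _ _,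
    fun p => h2 _ _, ?_, ?_⟩
  · rw [ENNReal.tsum_sigma (fun k i => cost μ (W k i) (c k i))]
    exact ENNReal.tsum_le_tsum h3
  · rw [Set.range_sigma_eq_iUnion_range]
    exact Set.iUnion_congr h4

theorem Cheap.union {ε ε' : ℝ≥0∞} {𝓦 𝓦' : Set (Set X)} (h : Cheap μ ε 𝓦) (h' : Cheap μ ε' 𝓦') :
    Cheap μ (ε + ε') (𝓦 ∪ 𝓦') := by
  have := Cheap.iUnion (μ := μ) (κ := Bool) (ε := fun b => cond b ε ε')
    (𝓦 := fun b => cond b 𝓦 𝓦') (by rintro (_ | _) <;> assumption)
  rw [tsum_fintype, Fintype.sum_bool] at this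
  rwa [Set.union_eq_iUnion]

theorem exists_cost_le {ε : ℝ≥0∞} (hε : 0 < ε) :
    ∃ (c η : ℝ), 1 ≤ c ∧ 0 < η ∧ ENNReal.ofReal c * ENNReal.ofReal η +
      ENNReal.ofReal (Real.exp (-c)) ≤ ε := by
  obtain ⟨e, he0, he⟩ : ∃ e : ℝ, 0 < e ∧ ENNReal.ofReal e ≤ ε := by
    by_cases h : ε = ⊤
    · exact ⟨1, one_pos, by simp [h]⟩
    · exact ⟨ε.toReal, ENNReal.toReal_pos hε.ne' h, (ENNReal.ofReal_toReal h).le⟩
  obtain ⟨c, hc1, hc⟩ := ((eventually_ge_atTop (1 : ℝ)).and
    (Real.tendsto_exp_neg_atTop_nhds_zero.eventually (gt_mem_nhds (half_pos he0)))).exists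
  have hc0 : 0 < c := by linarith
  refine ⟨c, e / 2 / c, hc1, by positivity, le_trans ?_ he⟩
  rw [← ENNReal.ofReal_mul hc0.le, ← ENNReal.ofReal_add (by positivity) (Real.exp_pos _).le]
  apply ENNReal.ofReal_le_ofReal
  rw [mul_div_cancel₀ _ hc0.ne']
  linarith

theorem cheap_single {ε : ℝ≥0∞} (hε : 0 < ε) :
    ∃ η : ℝ, 0 < η ∧ ∀ S : Set X, MeasurableSet S → μ S ≤ ENNReal.ofReal η → Cheap μ ε {S} := by
  obtain ⟨c, η, hc, hη, h⟩ := exists_cost_le hε
  refine ⟨η, hη, fun S hS hS' => ⟨Unit, inferInstance, fun _ => S, fun _ => c, fun _ => hS,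
    fun _ => hc, ?_, by simp⟩⟩
  rw [tsum_fintype, Fintype.sum_unique]
  refine le_trans ?_ h
  unfold cost
  gcongr

theorem Cheap.exists_partition [IsProbabilityMeasure μ] {ε : ℝ≥0∞} (hε : ε ≤ 1)
    {𝓦 : Set (Set X)} (h : Cheap μ ε 𝓦) :
    ∃ α : X → ℕ, Measurable α ∧ (∀ G : MeasurableSpace X, G ≤ mX → condEntropy G μ α ≤ 4 * ε) ∧
      ∀ W ∈ 𝓦, ∃ s : Set ℕ, W =ᵐ[μ] α ⁻¹' s := by
  classical
  obtain ⟨ι, _, W, c, hW, hc, hcost, rfl⟩ := h
  obtain ⟨e, he⟩ := exists_injective_nat (Finset ι)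
  set A : Finset ι → Set X := fun s => {x | ∀ i, x ∈ W i ↔ i ∈ s} with hA
  have hAm : ∀ s, MeasurableSet (A s) := by
    intro s
    simp only [hA, Set.ofPred_forall]
    refine MeasurableSet.iInter fun i => ?_
    by_cases hi : i ∈ s
    · simpa [hi] using hW i
    · simp only [hi, iff_false]; exact (hW i).compl
  have hAu : ∀ s t x, x ∈ A s → x ∈ A t → s = t := fun s t x hs ht =>
    Finset.ext fun i => (hs i).symm.trans (ht i)
  set α : X → ℕ := fun x => if h : ∃ s, x ∈ A s then e h.choose + 1 else 0 with hα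
  have hα1 : ∀ s x, x ∈ A s → α x = e s + 1 := by
    intro s x hx
    have h : ∃ s, x ∈ A s := ⟨s, hx⟩
    simp only [hα, dif_pos h, hAu _ _ x h.choose_spec hx]
  have hα2 : ∀ s, α ⁻¹' {e s + 1} = A s := by
    intro s
    ext x
    refine ⟨fun hx => ?_, hα1 s x⟩
    by_cases h : ∃ s, x ∈ A s
    · obtain ⟨t, ht⟩ := h
      have h1 : α x = e s + 1 := hx
      rw [hα1 t x ht] at h1
      rwa [← he (Nat.succ_injective h1)]
    · have h1 : α x = e s + 1 := hx
      simp [hα, dif_neg h] at h1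
  have hμW : ∑' i, μ (W i) ≤ ε := by
    refine le_trans (ENNReal.tsum_le_tsum fun i => ?_) hcost
    refine le_trans ?_ le_self_add
    exact le_mul_of_one_le_left' (by simpa using ENNReal.ofReal_le_ofReal (hc i))
  have hae : ∀ᵐ x ∂μ, ∃ s, x ∈ A s := by
    filter_upwards [ae_finite_setOfPred_mem (μ := μ) (s := W)
      (ne_top_of_le_ne_top ENNReal.one_ne_top (hμW.trans hε))] with x hx
    exact ⟨hx.toFinset, fun i => by simp⟩
  have hαm : Measurable α := by
    refine measurable_to_countable fun y => ?_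
    by_cases h : ∃ s, y ∈ A s
    · obtain ⟨s, hs⟩ := h
      rw [hα1 s y hs, hα2]; exact hAm s
    · have : α ⁻¹' {α y} = (⋃ s, A s)ᶜ := by
        ext x
        simp only [hα, dif_neg h, Set.mem_preimage, Set.mem_singleton_iff, Set.mem_compl_iff,
          Set.mem_iUnion]
        split_ifs with h' <;> simp [h']
      rw [this]
      exact (MeasurableSet.iUnion hAm).compl
  refine ⟨α, hαm, fun G hG => ?_, ?_⟩
  · unfold condEntropy
    have hinj : Injective fun s : Finset ι => e s + 1 := fun s t h => he (Nat.succ_injective h)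
    rw [← hinj.tsum_eq]
    swap
    · intro n hn
      by_contra hcon
      apply hn
      have h0 : (α ⁻¹' {n}).indicator (fun _ => (1 : ℝ)) =ᵐ[μ] 0 := by
        filter_upwards [hae] with x hx
        obtain ⟨s, hs⟩ := hx
        rw [Set.indicator_of_notMem]
        · rfl
        · intro hx
          exact hcon ⟨s, (hα1 s x hs).symm.trans hx⟩
      have h1 := condExp_congr_ae (m := G) h0
      rw [condExp_zero] at h1
      refine (lintegral_congr_ae ?_).trans lintegral_zero
      filter_upwards [h1] with x hx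
      simp [hx]
    simp only [hα2]
    set q : ι → ℝ := fun i => Real.exp (-c i) with hq
    have hq0 : ∀ i, 0 ≤ q i := fun i => (Real.exp_pos _).le
    have b1 : ∀ s : Finset ι, ∫⁻ x, ENNReal.ofReal
        (Real.negMulLog ((μ[(A s).indicator (fun _ => (1 : ℝ)) | G]) x)) ∂μ ≤
        (∑' i, ENNReal.ofReal (c i) * μ (A s ∩ W i)) + (if s = ∅ then ε else 0) +
          (if s = ∅ then 0 else ENNReal.ofReal (∏ i ∈ s, q i)) := by
      intro s
      refine (atom_bound hG (hAm s) (∑ i ∈ s, c i)).trans ?_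
      by_cases hs : s = ∅
      · subst hs
        simp only [Finset.sum_empty, zero_mul, neg_zero, Real.exp_zero, zero_add, if_true, add_zero]
        refine le_trans ?_ le_add_self
        rw [← probReal_compl_eq_one_sub (hAm ∅), ofReal_measureReal]
        refine le_trans (measure_mono ?_) ((measure_iUnion_le W).trans hμW)
        intro x hx
        simpa [hA] using hx
      · simp only [if_neg hs, add_zero]
        have e1 : Real.exp (-∑ i ∈ s, c i) = ∏ i ∈ s, q i := by
          rw [← Finset.sum_neg_distrib, Real.exp_sum]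
        rw [e1]
        refine (ENNReal.ofReal_le_ofReal (sub_le_self _ measureReal_nonneg)).trans
          (ENNReal.ofReal_add_le.trans ?_)
        gcongr
        have hc0 : ∀ i, 0 ≤ c i := fun i => zero_le_one.trans (hc i)
        rw [Finset.sum_mul, ENNReal.ofReal_sum_of_nonneg
          (f := fun i => c i * μ.real (A s)) fun i _ => mul_nonneg (hc0 i) measureReal_nonneg]
        refine le_trans (Finset.sum_le_sum fun i hi => ?_) (ENNReal.sum_le_tsum s)
        rw [ENNReal.ofReal_mul (hc0 i), ofReal_measureReal, Set.inter_eq_left.2]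
        exact fun x hx => (hx i).2 hi
    refine (ENNReal.tsum_le_tsum b1).trans ?_
    rw [ENNReal.tsum_add, ENNReal.tsum_add, tsum_ite_eq]
    have b2 : ∑' s : Finset ι, ∑' i, ENNReal.ofReal (c i) * μ (A s ∩ W i) ≤ ε := by
      rw [ENNReal.tsum_comm]
      refine le_trans (ENNReal.tsum_le_tsum fun i => ?_) hcost
      rw [ENNReal.tsum_mul_left]
      refine le_trans ?_ le_self_add
      gcongr
      rw [← measure_iUnion _ fun s => (hAm s).inter (hW i)]
      · exact measure_mono (Set.iUnion_subset fun s => Set.inter_subset_right)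
      · intro s t hst
        exact Set.disjoint_left.2 fun x hx hx' => hst (hAu s t x hx.1 hx'.1)
    have b3 : ∑' s : Finset ι, (if s = ∅ then 0 else ENNReal.ofReal (∏ i ∈ s, q i)) ≤ 2 * ε := by
      refine ENNReal.summable.tsum_le_of_sum_le fun T => ?_
      set t := T.biUnion id with ht
      have hsub : T ⊆ t.powerset := fun s hs =>
        Finset.mem_powerset.2 (Finset.subset_biUnion_of_mem id hs)
      refine (Finset.sum_le_sum_of_subset hsub).trans ?_
      have hqt : ENNReal.ofReal (∑ i ∈ t, q i) ≤ ε := by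
        rw [ENNReal.ofReal_sum_of_nonneg fun i _ => hq0 i]
        refine le_trans (ENNReal.sum_le_tsum t) (le_trans (ENNReal.tsum_le_tsum fun i => ?_) hcost)
        exact le_add_self
      have hqt0 : 0 ≤ ∑ i ∈ t, q i := Finset.sum_nonneg fun i _ => hq0 i
      have hqt1 : ∑ i ∈ t, q i ≤ 1 := by simpa using hqt.trans hε
      have e1 : ∑ s ∈ t.powerset, (if s = ∅ then 0 else ENNReal.ofReal (∏ i ∈ s, q i)) =
          ENNReal.ofReal (∏ i ∈ t, (1 + q i) - 1) := by
        rw [Finset.prod_one_add, ← Finset.add_sum_erase _ _ (Finset.empty_mem_powerset t),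
          ← Finset.add_sum_erase _ _ (Finset.empty_mem_powerset t), if_pos rfl, zero_add,
          Finset.prod_empty, add_sub_cancel_left, ENNReal.ofReal_sum_of_nonneg
            fun s _ => Finset.prod_nonneg fun i _ => hq0 i]
        exact Finset.sum_congr rfl fun s hs => if_neg (Finset.ne_of_mem_erase hs)
      rw [e1]
      have e2 := Real.prod_one_add_le_exp_sum t hq0
      have e3 := Real.abs_exp_sub_one_le (x := ∑ i ∈ t, q i) (by rwa [abs_of_nonneg hqt0])
      rw [abs_of_nonneg hqt0] at e3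
      have e4 := le_abs_self (Real.exp (∑ i ∈ t, q i) - 1)
      calc _ ≤ ENNReal.ofReal (2 * ∑ i ∈ t, q i) := ENNReal.ofReal_le_ofReal (by linarith)
        _ = 2 * ENNReal.ofReal (∑ i ∈ t, q i) := by
          rw [ENNReal.ofReal_mul (by norm_num)]; simp
        _ ≤ 2 * ε := by gcongr
    calc _ ≤ ε + ε + 2 * ε := by gcongr
      _ = 4 * ε := by ring
  · rintro _ ⟨i, rfl⟩
    refine ⟨{n | ∃ s, i ∈ s ∧ n = e s + 1}, ?_⟩
    filter_upwards [hae] with x hx
    obtain ⟨s, hs⟩ := hx
    refine propext ⟨fun h => ⟨s, (hs i).1 h, hα1 s x hs⟩, ?_⟩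
    rintro ⟨t, ht, h⟩
    rw [hα1 s x hs] at h
    exact (hs i).2 (he (Nat.succ_injective h) ▸ ht)

end Pool.Agent.Lib.MP_d3f853_an
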