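import Mathlib
import Pool.Agent.Lib.MP_d3f853_an.Trace

namespace Pool.Agent.Lib.MP_d3f853_an

open Function MeasureTheory Filter Topology MeasurableSpace
open scoped Pointwise ENNReal

theorem sum_weight_prod {κ J : Type*} [Fintype κ] [DecidableEq κ] [Fintype J] (w : Bool → ℝ)
    (hw : ∑ b, w b = 1) (c : J → κ) (hc : Injective c) (f : J → Bool → ℝ) :
    ∑ ω : κ → Bool, (∏ k, w (ω k)) * ∏ j, f j (ω (c j)) = ∏ j, ∑ b, w b * f j b := by
  classical
  set g : κ → Bool → ℝ := Function.extend c f (fun _ _ => 1) with hg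
  have h1 : ∀ j, g (c j) = f j := fun j => hc.extend_apply _ _ _
  have h2 : ∀ k, k ∉ Set.range c → g k = fun _ => 1 := fun k hk =>
    Function.extend_apply' _ _ _ hk
  have e1 : ∀ ω : κ → Bool, ∏ j, f j (ω (c j)) = ∏ k, g k (ω k) := fun ω =>
    Fintype.prod_of_injective c hc _ _ (fun k hk => by rw [h2 k hk]) fun j => by rw [h1]
  have e2 : ∏ j, ∑ b, w b * f j b = ∏ k, ∑ b, w b * g k b :=
    Fintype.prod_of_injective c hc _ _ (fun k hk => by rw [h2 k hk]; simpa using hw)
      fun j => by rw [h1]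
  simp only [e1, e2, ← Finset.prod_mul_distrib]
  rw [Finset.prod_univ_sum, Fintype.piFinset_univ]

theorem sum_weight_pairs {κ D : Type*} [Fintype κ] [DecidableEq κ] [Fintype D] (w : Bool → ℝ)
    (hw : ∑ b, w b = 1) (c : D × Bool → κ) (hc : Injective c) :
    ∑ ω : κ → Bool, (∏ k, w (ω k)) *
      ∏ d, (if ω (c (d, true)) = ω (c (d, false)) then (1 : ℝ) else 0) =
        (∑ b, w b * w b) ^ Fintype.card D := by
  classical
  have e1 : ∀ ω : κ → Bool, ∏ d, (if ω (c (d, true)) = ω (c (d, false)) then (1 : ℝ) else 0) =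
      ∑ σ : D → Bool, ∏ j : D × Bool, (if ω (c j) = σ j.1 then (1 : ℝ) else 0) := by
    intro ω
    have : ∀ d, (if ω (c (d, true)) = ω (c (d, false)) then (1 : ℝ) else 0) =
        ∑ t : Bool, ∏ b : Bool, (if ω (c (d, b)) = t then (1 : ℝ) else 0) := by
      intro d
      simp only [Fintype.sum_bool, Fintype.prod_bool]
      cases ω (c (d, true)) <;> cases ω (c (d, false)) <;> simp
    simp only [this]
    rw [Finset.prod_univ_sum]
    simp only [Fintype.piFinset_univ, Fintype.prod_prod_type]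
  simp only [e1, Finset.mul_sum]
  rw [Finset.sum_comm]
  have e2 : ∀ σ : D → Bool, ∑ ω : κ → Bool, (∏ k, w (ω k)) *
      ∏ j : D × Bool, (if ω (c j) = σ j.1 then (1 : ℝ) else 0) = ∏ d, w (σ d) * w (σ d) := by
    intro σ
    rw [sum_weight_prod w hw c hc (fun j b => if b = σ j.1 then (1 : ℝ) else 0)]
    simp [Fintype.prod_prod_type, sq]
  simp only [e2]
  rw [← Finset.card_univ, ← Finset.prod_const, Finset.prod_univ_sum, Fintype.piFinset_univ]

variable {Γ X : Type*} [Group Γ] [MulAction Γ X]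

theorem exists_avoid {x y : X} (hx : (MulAction.orbit Γ x).Infinite)
    (hy : (MulAction.orbit Γ y).Infinite) (W : Finset X) :
    ∃ δ : Γ, δ • x ∉ W ∧ δ • y ∉ W := by
  classical
  by_contra hcon
  let pt : X ⊕ X → X := Sum.elim (fun _ => x) (fun _ => y)
  let tg : X ⊕ X → X := Sum.elim id id
  let g : X ⊕ X → Γ := fun i => if h : ∃ δ : Γ, δ • pt i = tg i then h.choose else 1
  have hcov : ⋃ i ∈ W.disjSum W, (g i) • ((MulAction.stabilizer Γ (pt i) : Subgroup Γ) : Set Γ) =
      Set.univ := by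
    refine Set.eq_univ_of_forall fun δ => ?_
    have key : ∀ i ∈ W.disjSum W, δ • pt i = tg i →
        δ ∈ ⋃ i ∈ W.disjSum W, (g i) • ((MulAction.stabilizer Γ (pt i) : Subgroup Γ) : Set Γ) := by
      intro i hi h
      refine Set.mem_biUnion (Finset.mem_coe.2 hi) ?_
      have h' : ∃ δ : Γ, δ • pt i = tg i := ⟨δ, h⟩
      rw [mem_leftCoset_iff, SetLike.mem_coe, MulAction.mem_stabilizer_iff, mul_smul, h,
        inv_smul_eq_iff]
      simp only [g, dif_pos h']
      exact h'.choose_spec.symm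
    by_cases h1 : δ • x ∈ W
    · exact key (Sum.inl (δ • x)) (Finset.inl_mem_disjSum.2 h1) rfl
    · by_cases h2 : δ • y ∈ W
      · exact key (Sum.inr (δ • y)) (Finset.inr_mem_disjSum.2 h2) rfl
      · exact absurd ⟨δ, h1, h2⟩ hcon
  obtain ⟨i, -, hi⟩ := Subgroup.exists_finiteIndex_of_leftCoset_cover hcov
  have h0 := hi.index_ne_zero
  rw [MulAction.index_stabilizer] at h0
  cases i with
  | inl w => exact h0 hx.ncard
  | inr w => exact h0 hy.ncard

theorem exists_pairs {x : X} (hx : (MulAction.orbit Γ x).Infinite) {γ : Γ} (hγ : γ • x ≠ x)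
    (N : ℕ) : ∃ D : Finset Γ, D.card = N ∧
      Injective fun j : D × Bool => (j.1 : Γ) • (if j.2 then γ • x else x) := by
  classical
  have hy : (MulAction.orbit Γ (γ • x)).Infinite := by
    rwa [MulAction.orbit_smul]
  suffices h : ∃ D : Finset Γ, D.card = N ∧ ∀ d ∈ D, ∀ d' ∈ D, ∀ b b' : Bool,
      d • (if b then γ • x else x) = d' • (if b' then γ • x else x) → d = d' ∧ b = b' by
    obtain ⟨D, h1, h2⟩ := h
    refine ⟨D, h1, ?_⟩
    rintro ⟨⟨d, hd⟩, b⟩ ⟨⟨d', hd'⟩, b'⟩ h
    obtain ⟨rfl, rfl⟩ := h2 d hd d' hd' b b' h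
    rfl
  induction N with
  | zero => exact ⟨∅, rfl, by simp⟩
  | succ N ih =>
    obtain ⟨D, h1, h2⟩ := ih
    obtain ⟨δ, h3, h4⟩ := exists_avoid hx hy
      ((D ×ˢ Finset.univ).image fun j : Γ × Bool => j.1 • (if j.2 then γ • x else x))
    have h5 : ∀ d ∈ D, ∀ b b' : Bool,
        δ • (if b then γ • x else x) ≠ d • (if b' then γ • x else x) := by
      intro d hd b b' h
      have : δ • (if b then γ • x else x) ∈
          ((D ×ˢ Finset.univ).image fun j : Γ × Bool => j.1 • (if j.2 then γ • x else x)) :=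
        Finset.mem_image.2 ⟨(d, b'), by simp [hd], h.symm⟩
      cases b
      · exact h3 this
      · exact h4 this
    have hδ : δ ∉ D := fun h => h5 δ h true true rfl
    refine ⟨insert δ D, by rw [Finset.card_insert_of_notMem hδ, h1], ?_⟩
    intro d hd d' hd' b b' h
    rcases Finset.mem_insert.1 hd with rfl | hd1 <;>
      rcases Finset.mem_insert.1 hd' with rfl | hd1'
    · refine ⟨rfl, ?_⟩
      have := smul_left_cancel _ h
      cases b <;> cases b'
      · rfl
      · exact absurd this.symm hγ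
      · exact absurd this hγ
      · rfl
    · exact absurd h (h5 _ hd1' _ _)
    · exact absurd h.symm (h5 _ hd1 _ _)
    · exact h2 d hd1 d' hd1' b b' h

variable {mX : MeasurableSpace X} {μ : Measure X}

theorem avg_le [IsProbabilityMeasure μ] {Ω : Type*} [Fintype Ω] (w : Ω → ℝ) (A : Ω → Set X)
    (hA : ∀ ω, MeasurableSet (A ω)) {c : ℝ}
    (h : ∀ x, ∑ ω, w ω * (A ω).indicator (fun _ => (1 : ℝ)) x ≤ c) :
    ∑ ω, w ω * μ.real (A ω) ≤ c := by
  have hi : ∀ ω, Integrable (fun x => w ω * (A ω).indicator (fun _ => (1 : ℝ)) x) μ := fun ω =>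
    ((integrable_const 1).indicator (hA ω)).const_mul _
  have e : ∀ ω, w ω * μ.real (A ω) = ∫ x, w ω * (A ω).indicator (fun _ => (1 : ℝ)) x ∂μ := by
    intro ω
    rw [integral_const_mul, integral_indicator (hA ω)]; simp
  simp only [e]
  rw [← integral_finsetSum _ fun ω _ => hi ω]
  simpa using integral_mono (integrable_finsetSum _ fun ω _ => hi ω) (integrable_const c) h

theorem measurableSet_fix [StandardBorelSpace X] (hG : Inv Γ mX) (γ : Γ) :
    MeasurableSet {x : X | γ • x = x} :=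
  measurableSet_eq_fun (hG γ) measurable_id

theorem exists_separating_set [Countable Γ] [StandardBorelSpace X] [IsProbabilityMeasure μ]
    (hμ : MP Γ μ) (hap : ∀ᵐ x ∂μ, (MulAction.orbit Γ x).Infinite) (γ : Γ) {η ε : ℝ}
    (hη : 0 < η) (hε : 0 < ε) :
    ∃ S : Set X, MeasurableSet S ∧ μ.real S ≤ η ∧
      μ.real {x | γ • x ≠ x ∧ ∀ δ : Γ, δ • γ • x ∈ S ↔ δ • x ∈ S} ≤ ε := by
  classical
  obtain ⟨a, ha⟩ : ∃ a : ℝ, a = min (η / 2) (1 / 2) := ⟨_, rfl⟩
  have ha0 : 0 < a := by rw [ha]; exact lt_min (by positivity) (by norm_num)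
  have ha1 : 2 * a ≤ η := by have := min_le_left (η / 2) (1 / 2); rw [← ha] at this; linarith
  have ha2 : a ≤ 1 / 2 := ha ▸ min_le_right _ _
  let w : Bool → ℝ := fun b => if b then a else 1 - a
  have hw : ∑ b, w b = 1 := by simp [w]
  have hw0 : ∀ b, 0 ≤ w b := fun b => by cases b <;> simp [w] <;> linarith
  obtain ⟨ρ, hρ⟩ : ∃ ρ : ℝ, ρ = ∑ b, w b * w b := ⟨_, rfl⟩
  have hρ1 : ρ < 1 := by rw [hρ]; simp [w]; nlinarith
  obtain ⟨N, hN⟩ := exists_pow_lt_of_lt_one (show 0 < ε / 4 by positivity) hρ1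
  let P : (L : ℕ) → X → Fin L → Bool := fun L x i => mapNatBool X x i
  have hPm : ∀ L, Measurable (P L) := fun L => measurable_pi_lambda _ fun i =>
    (measurable_pi_apply (i : ℕ)).comp (measurable_mapNatBool X)
  have hPsep : ∀ x y, x ≠ y → ∀ᶠ L in atTop, P L x ≠ P L y := by
    intro x y hxy
    obtain ⟨i, hi⟩ := Function.ne_iff.1 ((injective_mapNatBool X).ne hxy)
    filter_upwards [eventually_gt_atTop i] with L hL h
    exact hi (congrFun h ⟨i, hL⟩)
  let Good : ℕ → Set X := fun L => {x | ∃ D : Finset Γ, D.card = N ∧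
    Injective fun j : D × Bool => P L ((j.1 : Γ) • (if j.2 then γ • x else x))}
  have hGm : ∀ L, MeasurableSet (Good L) := by
    intro L
    simp only [Good, Set.ofPred_exists]
    refine MeasurableSet.iUnion fun D => (MeasurableSet.const _).inter ?_
    have : Measurable fun (x : X) (j : D × Bool) =>
        P L ((j.1 : Γ) • (if j.2 then γ • x else x)) := by
      refine measurable_pi_lambda _ fun j => (hPm L).comp ((hμ.inv j.1).comp ?_)
      cases j.2
      · exact measurable_id
      · exact hμ.inv γ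
    exact this (MeasurableSet.of_discrete (s := {φ | Injective φ}))
  have hfix := measurableSet_fix hμ.inv γ
  obtain ⟨L, hL⟩ : ∃ L, μ.real ({x | γ • x = x}ᶜ \ Good L) ≤ ε / 2 := by
    have h1 := tendsto_measure_of_ae_tendsto_indicator_of_isFiniteMeasure (μ := μ) atTop
      (As := fun L => {x | γ • x = x}ᶜ \ Good L) (A := ∅) MeasurableSet.empty
      (fun L => hfix.compl.diff (hGm L)) (by
        filter_upwards [hap] with x hx
        by_cases hγ : γ • x = x
        · exact Eventually.of_forall fun L => by simp [hγ]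
        · obtain ⟨D, h1, h2⟩ := exists_pairs hx hγ N
          have h3 : ∀ᶠ L in atTop, ∀ j j' : D × Bool, j ≠ j' →
              P L ((j.1 : Γ) • (if j.2 then γ • x else x)) ≠
                P L ((j'.1 : Γ) • (if j'.2 then γ • x else x)) := by
            simp only [eventually_all]
            exact fun j j' hj => hPsep _ _ (h2.ne hj)
          filter_upwards [h3] with L hL
          have : x ∈ Good L := ⟨D, h1, fun j j' h => by_contra fun hne => hL j j' hne h⟩
          simp [this])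
    rw [measure_empty] at h1
    obtain ⟨L, hL⟩ := (h1.eventually (gt_mem_nhds
      (ENNReal.ofReal_pos.2 (half_pos hε)))).exists
    exact ⟨L, ENNReal.toReal_le_of_le_ofReal (half_pos hε).le hL.le⟩
  let S : ((Fin L → Bool) → Bool) → Set X := fun ω => {x | ω (P L x) = true}
  have hSm : ∀ ω, MeasurableSet (S ω) := fun ω =>
    hPm L (MeasurableSet.of_discrete (s := {φ | ω φ = true}))
  let Bad : ((Fin L → Bool) → Bool) → Set X := fun ω =>
    Good L ∩ {x | ∀ δ : Γ, δ • γ • x ∈ S ω ↔ δ • x ∈ S ω}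
  have hBm : ∀ ω, MeasurableSet (Bad ω) := by
    intro ω
    refine (hGm L).inter ?_
    simp only [Set.ofPred_forall]
    exact MeasurableSet.iInter fun δ => MeasurableSet.iff
      (((hμ.inv δ).comp (hμ.inv γ)) (hSm ω)) (hμ.inv δ (hSm ω))
  let Wt : ((Fin L → Bool) → Bool) → ℝ := fun ω => ∏ k, w (ω k)
  have hWt0 : ∀ ω, 0 ≤ Wt ω := fun ω => Finset.prod_nonneg fun k _ => hw0 _
  have hWt1 : ∑ ω, Wt ω = 1 := by
    have := sum_weight_prod (κ := Fin L → Bool) (J := Empty) w hw Empty.elim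
      (fun j => j.elim) (fun _ _ => 1)
    simpa using this
  have h1 : ∑ ω, Wt ω * μ.real (S ω) ≤ a := by
    refine avg_le Wt S hSm fun x => le_of_eq ?_
    have := sum_weight_prod (κ := Fin L → Bool) (J := Unit) w hw (fun _ => P L x)
      (fun _ _ _ => rfl) (fun _ b => if b = true then 1 else 0)
    simp only [Finset.univ_unique, Finset.prod_singleton] at this
    convert this using 1
    · refine Finset.sum_congr rfl fun ω _ => ?_
      simp [Wt, S, Set.indicator]
    · simp [w]
  have h2 : ∑ ω, Wt ω * μ.real (Bad ω) ≤ ε / 4 := by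
    refine avg_le Wt Bad hBm fun x => ?_
    by_cases hx : x ∈ Good L
    · obtain ⟨D, hD1, hD2⟩ := hx
      have := sum_weight_pairs w hw _ hD2
      rw [Fintype.card_coe, hD1, ← hρ] at this
      refine le_trans (Finset.sum_le_sum fun ω _ => ?_) (this.le.trans hN.le)
      refine mul_le_mul_of_nonneg_left ?_ (hWt0 ω)
      by_cases hb : x ∈ Bad ω
      · rw [Set.indicator_of_mem hb, Finset.prod_eq_one]
        intro d _
        rw [if_pos]
        have := hb.2 d
        simp only [S, Set.mem_ofPred_eq] at this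
        simpa using Bool.eq_iff_iff.2 this
      · rw [Set.indicator_of_notMem hb]
        exact Finset.prod_nonneg fun d _ => by split_ifs <;> simp
    · rw [Finset.sum_eq_zero]
      · positivity
      · intro ω _
        rw [Set.indicator_of_notMem (fun h => hx h.1), mul_zero]
  obtain ⟨ω, hω⟩ : ∃ ω, μ.real (S ω) / (2 * a) + μ.real (Bad ω) / (ε / 2) ≤ 1 := by
    by_contra hcon
    simp only [not_exists, not_le] at hcon
    obtain ⟨ω0, -, hω0⟩ : ∃ ω ∈ Finset.univ, Wt ω ≠ 0 :=
      Finset.exists_ne_zero_of_sum_ne_zero (by rw [hWt1]; exact one_ne_zero)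
    have h3 : ∑ ω, Wt ω * 1 < ∑ ω, Wt ω * (μ.real (S ω) / (2 * a) + μ.real (Bad ω) / (ε / 2)) :=
      Finset.sum_lt_sum (fun ω _ => mul_le_mul_of_nonneg_left (hcon ω).le (hWt0 ω))
        ⟨ω0, Finset.mem_univ _, mul_lt_mul_of_pos_left (hcon ω0)
          (lt_of_le_of_ne (hWt0 ω0) hω0.symm)⟩
    simp only [mul_one, hWt1, mul_add, ← mul_div_assoc, Finset.sum_add_distrib,
      ← Finset.sum_div] at h3
    have h4 : (∑ ω, Wt ω * μ.real (S ω)) / (2 * a) ≤ 1 / 2 := by
      rw [div_le_iff₀ (by positivity)]; linarith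
    have h5 : (∑ ω, Wt ω * μ.real (Bad ω)) / (ε / 2) ≤ 1 / 2 := by
      rw [div_le_iff₀ (by positivity)]; linarith
    linarith
  have h6 : 0 ≤ μ.real (S ω) / (2 * a) := by positivity
  have h7 : 0 ≤ μ.real (Bad ω) / (ε / 2) := by positivity
  refine ⟨S ω, hSm ω, ?_, ?_⟩
  · have : μ.real (S ω) / (2 * a) ≤ 1 := by linarith
    rw [div_le_one (by positivity)] at this
    linarith
  · have h8 : μ.real (Bad ω) / (ε / 2) ≤ 1 := by linarith
    rw [div_le_one (by positivity)] at h8
    refine le_trans (measureReal_mono (s₂ := ({x | γ • x = x}ᶜ \ Good L) ∪ Bad ω) ?_) ?_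
    · rintro x ⟨hx1, hx2⟩
      by_cases hx : x ∈ Good L
      · exact Or.inr ⟨hx, hx2⟩
      · exact Or.inl ⟨hx1, hx⟩
    · linarith [measureReal_union_le (μ := μ) ({x | γ • x = x}ᶜ \ Good L) (Bad ω)]

end Pool.Agent.Lib.MP_d3f853_an
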