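import Mathlib
import Pool.Agent.Lib.MP_d3f853_an.Random

set_option warn.classDefReducibility false

namespace Pool.Agent.Lib.MP_d3f853_an

open Function MeasureTheory Filter Topology MeasurableSpace
open scoped Pointwise ENNReal

variable {Γ X : Type*} [Group Γ] [MulAction Γ X] {G G' : MeasurableSpace X}
  {mX : MeasurableSpace X} {μ : Measure X}

/-- Measurable sets that agree almost everywhere with a `G`-measurable set. -/
def aeCl (G : MeasurableSpace X) {mX : MeasurableSpace X} (μ : Measure X) : MeasurableSpace X :=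
  mX ⊓ eventuallyMeasurableSpace G (ae μ)

theorem measurableSet_aeCl {s : Set X} :
    MeasurableSet[aeCl G μ] s ↔ MeasurableSet[mX] s ∧ ∃ t, MeasurableSet[G] t ∧ s =ᵐ[μ] t :=
  Iff.rfl

theorem aeCl_le : aeCl G μ ≤ mX := inf_le_left

theorem le_aeCl (h : G ≤ mX) : G ≤ aeCl G μ := fun s hs => ⟨h s hs, s, hs, EventuallyEq.rfl⟩

theorem measurableSet_aeCl_of_ae_eq {s t : Set X} (hs : MeasurableSet[mX] s)
    (ht : MeasurableSet[aeCl G μ] t) (h : s =ᵐ[μ] t) : MeasurableSet[aeCl G μ] s := by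
  obtain ⟨-, r, hr, h'⟩ := ht
  exact ⟨hs, r, hr, h.trans h'⟩

theorem aeCl_le_aeCl (h : G ≤ aeCl G' μ) : aeCl G μ ≤ aeCl G' μ := by
  rintro s ⟨hs, t, ht, h'⟩
  exact measurableSet_aeCl_of_ae_eq hs (h t ht) h'

variable (Γ) in
/-- Invariance modulo null sets. -/
def AInv (G : MeasurableSpace X) {mX : MeasurableSpace X} (μ : Measure X) : Prop :=
  ∀ (γ : Γ) (s : Set X), MeasurableSet[G] s →
    ∃ t, MeasurableSet[G] t ∧ (fun x => γ • x) ⁻¹' s =ᵐ[μ] t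

theorem Inv.aInv (h : Inv Γ G) : AInv Γ G μ := fun γ _ hs => ⟨_, h γ hs, EventuallyEq.rfl⟩

theorem AInv.sup (h : AInv Γ G μ) (h' : AInv Γ G' μ) : AInv Γ (G ⊔ G') μ := by
  intro γ
  have : G ⊔ G' ≤ (eventuallyMeasurableSpace (G ⊔ G') (ae μ)).map (fun x : X => γ • x) := by
    refine sup_le (fun s hs => ?_) (fun s hs => ?_)
    · obtain ⟨t, ht, e⟩ := h γ s hs
      exact ⟨t, (le_sup_left : G ≤ G ⊔ G') t ht, e⟩
    · obtain ⟨t, ht, e⟩ := h' γ s hs
      exact ⟨t, (le_sup_right : G' ≤ G ⊔ G') t ht, e⟩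
  exact this

theorem AInv.inv_aeCl (hμ : MP Γ μ) (h : AInv Γ G μ) : Inv Γ (aeCl G μ) := by
  rintro γ s ⟨hs, t, ht, e⟩
  obtain ⟨r, hr, e'⟩ := h γ t ht
  exact ⟨hμ.inv γ hs, r, hr, ((hμ γ).quasiMeasurePreserving.preimage_ae_eq e).trans e'⟩

theorem ae_of_forall_measureReal_le [IsFiniteMeasure μ] {p : X → Prop} {s : ℕ → Set X}
    (hs : ∀ n, μ.real (s n) ≤ 1 / (n + 1)) (h : ∀ x, ¬p x → ∀ n, x ∈ s n) : ∀ᵐ x ∂μ, p x := by
  rw [ae_iff, ← measureReal_eq_zero_iff]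
  refine le_antisymm (ge_of_tendsto' tendsto_one_div_add_atTop_nhds_zero_nat fun n => ?_)
    measureReal_nonneg
  exact (measureReal_mono (fun x hx => h x hx n)).trans (hs n)

theorem exists_sep_family [Countable Γ] [StandardBorelSpace X] [IsProbabilityMeasure μ]
    (hμ : MP Γ μ) (hap : ∀ᵐ x ∂μ, (MulAction.orbit Γ x).Infinite) (η : ℕ × ℕ → ℝ)
    (hη : ∀ p, 0 < η p) :
    ∃ S : ℕ × ℕ → Set X, (∀ p, MeasurableSet (S p)) ∧ (∀ p, μ (S p) ≤ ENNReal.ofReal (η p)) ∧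
      ∀ᵐ x ∂μ, ∀ γ : Γ, γ • x ≠ x → ∃ p, ∃ δ : Γ, ¬(δ • γ • x ∈ S p ↔ δ • x ∈ S p) := by
  obtain ⟨e, he⟩ := exists_surjective_nat Γ
  have := fun p : ℕ × ℕ => exists_separating_set hμ hap (e p.1) (hη p)
    (show (0 : ℝ) < 1 / (p.2 + 1) by positivity)
  choose S h1 h2 h3 using this
  refine ⟨S, h1, fun p => ?_, ?_⟩
  · rw [← ENNReal.ofReal_toReal (measure_ne_top μ (S p))]
    exact ENNReal.ofReal_le_ofReal (h2 p)
  · rw [ae_all_iff]
    intro γ
    obtain ⟨n, rfl⟩ := he γ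
    refine ae_of_forall_measureReal_le (fun r => h3 (n, r)) fun x hx r => ?_
    simp only [Classical.not_imp, not_exists, not_not] at hx
    exact ⟨hx.1, hx.2 (n, r)⟩

theorem exists_marker [Countable Γ] [StandardBorelSpace X] [IsProbabilityMeasure μ]
    (hμ : MP Γ μ) (hap : ∀ᵐ x ∂μ, (MulAction.orbit Γ x).Infinite) {η ε : ℝ} (hη : 0 < η)
    (hε : 0 < ε) : ∃ (S : Set X) (N : ℕ) (δ : Fin N → Γ), MeasurableSet S ∧ μ.real S ≤ η ∧
      μ.real {x | ∀ j, δ j • x ∉ S} ≤ ε := by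
  obtain ⟨θ, hθ, hθ'⟩ := ENNReal.exists_pos_sum_of_countable
    (ENNReal.ofReal_pos.2 hη).ne' (ℕ × ℕ)
  obtain ⟨S, h1, h2, h3⟩ := exists_sep_family hμ hap (fun p => θ p) (fun p => hθ p)
  obtain ⟨e, he⟩ := exists_surjective_nat Γ
  have hS : MeasurableSet (⋃ p, S p) := MeasurableSet.iUnion h1
  have hm : ∀ N, MeasurableSet {x | ∀ j : Fin N, e j • x ∉ ⋃ p, S p} := by
    intro N
    simp only [Set.ofPred_forall]
    exact MeasurableSet.iInter fun j => hμ.inv (e j) hS.compl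
  have h4 := tendsto_measure_of_ae_tendsto_indicator_of_isFiniteMeasure (μ := μ) atTop
    (As := fun N => {x | ∀ j : Fin N, e j • x ∉ ⋃ p, S p}) (A := ∅) MeasurableSet.empty hm (by
      filter_upwards [hap, h3] with x hx hx'
      obtain ⟨_, ⟨γ, rfl⟩, hγ⟩ := hx.exists_notMem_finite (Set.finite_singleton x)
      obtain ⟨p, δ, hp⟩ := hx' γ hγ
      obtain ⟨δ', hδ'⟩ : ∃ δ' : Γ, δ' • x ∈ S p := by
        by_cases h : δ • x ∈ S p
        · exact ⟨δ, h⟩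
        · refine ⟨δ * γ, ?_⟩
          rw [mul_smul]
          by_contra h'
          exact hp (iff_of_false h' h)
      obtain ⟨n, rfl⟩ := he δ'
      filter_upwards [eventually_gt_atTop n] with N hN
      exact iff_of_false (fun h => h ⟨n, hN⟩ (Set.mem_iUnion.2 ⟨p, hδ'⟩)) (Set.notMem_empty x))
  rw [measure_empty] at h4
  obtain ⟨N, hN⟩ := (h4.eventually (gt_mem_nhds (ENNReal.ofReal_pos.2 hε))).exists
  refine ⟨⋃ p, S p, N, fun j => e j, hS, ?_, ENNReal.toReal_le_of_le_ofReal hε.le hN.le⟩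
  refine ENNReal.toReal_le_of_le_ofReal hη.le ((measure_iUnion_le _).trans
    ((ENNReal.tsum_le_tsum fun p => ?_).trans hθ'.le))
  simpa using h2 p

theorem exists_time [Countable Γ] [StandardBorelSpace X] (hμ : MP Γ μ) {S : ℕ × ℕ → Set X}
    (hG : Inv Γ G) (hS : ∀ p, MeasurableSet[G] (S p))
    (hsep : ∀ᵐ x ∂μ, ∀ γ : Γ, γ • x ≠ x → ∃ p, ∃ δ : Γ, ¬(δ • γ • x ∈ S p ↔ δ • x ∈ S p)) :
    (∀ γ : Γ, MeasurableSet[aeCl G μ] {x : X | γ • x = x}) ∧
    ∃ t : X → ℝ, Measurable[G] t ∧ (∀ x, 0 < t x ∧ t x < 1) ∧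
      ∀ᵐ x ∂μ, ∀ γ : Γ, γ • x ≠ x → t (γ • x) ≠ t x := by
  classical
  let c : X → Γ × ℕ × ℕ → Bool := fun x q => decide (q.1 • x ∈ S q.2)
  have hc : Measurable[G] c := by
    refine @measurable_pi_lambda _ _ _ G _ _ fun q => ?_
    refine @measurable_to_bool _ G _ ?_
    have : (fun x => c x q) ⁻¹' {true} = (fun x => q.1 • x) ⁻¹' S q.2 := by
      ext x; simp [c]
    rw [this]
    exact hG q.1 (hS q.2)
  let t : X → ℝ := fun x => Real.sigmoid (embeddingReal _ (c x))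
  have ht : Measurable[G] t := continuous_sigmoid.measurable.comp
    ((measurableEmbedding_embeddingReal _).measurable.comp hc)
  have hinj : ∀ᵐ x ∂μ, ∀ γ : Γ, γ • x ≠ x → t (γ • x) ≠ t x := by
    filter_upwards [hsep] with x hx γ hγ h
    obtain ⟨p, δ, hp⟩ := hx γ hγ
    have := congrFun ((measurableEmbedding_embeddingReal _).injective
      (Real.sigmoid_injective h)) (δ, p)
    exact hp (by simpa [c] using this)
  refine ⟨fun γ => ⟨measurableSet_fix hμ.inv γ, {x | t (γ • x) = t x},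
    @measurableSet_eq_fun _ _ G _ _ _ _ (ht.comp (hG γ)) ht, ?_⟩, t, ht,
    fun x => ⟨Real.sigmoid_pos _, Real.sigmoid_lt_one _⟩, hinj⟩
  filter_upwards [hinj] with x hx
  refine propext ⟨fun h => ?_, fun h => by_contra fun h' => hx γ h' h⟩
  change t (γ • x) = t x
  rw [show γ • x = x from h]

end Pool.Agent.Lib.MP_d3f853_an
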