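import Mathlib
import Pool.Agent.Lib.MP_d3f853_an.Cand

namespace Pool.Agent.Lib.MP_d3f853_an

open Function MeasureTheory
open scoped Pointwise

variable {Γ X I : Type*} [Group Γ] [MulAction Γ X]

variable (Γ) in
/-- Martingale differences along an invariant order. -/
structure Setup {mX : MeasurableSpace X} (μ : Measure X) (F : MeasurableSpace X)
    (G : ℝ → MeasurableSpace X) (τ ξ g D : I × X → ℝ) : Prop where
  hFG : ∀ u, F ≤ G u
  hGm : ∀ u, G u ≤ mX
  mono : Monotone G
  invG : ∀ u, Inv Γ (G u)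
  invF : Inv Γ F
  fix : ∀ γ : Γ, MeasurableSet[F] {x : X | γ • x = x}
  τm : ∀ i, Measurable[F] fun x => τ (i, x)
  ξb : Bdd ξ
  gb : ∀ p, |g p| ≤ 1
  ξm : ∀ i, Measurable[mX] fun x => ξ (i, x)
  Dm : ∀ i, Measurable[mX] fun x => D (i, x)
  D0 : ∀ p, 0 ≤ D p
  D1 : ∀ p, D p ≤ 1
  gD : ∀ p, g p * g p ≤ D p
  ξa : ∀ u i, Measurable[G u] fun x => if τ (i, x) < u then ξ (i, x) else 0
  ga : ∀ u i, Measurable[G u] fun x => if τ (i, x) < u then g (i, x) else 0
  oξ : ∀ u i (h : X → ℝ), Measurable[G u] h → Bdd h → (∀ x, h x ≠ 0 → u ≤ τ (i, x)) →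
    ∫ x, h x * ξ (i, x) ∂μ = 0
  og : ∀ u i (h : X → ℝ), Measurable[G u] h → Bdd h → (∀ x, h x ≠ 0 → u ≤ τ (i, x)) →
    ∫ x, h x * g (i, x) ∂μ = 0
  oξg : ∀ u i (h : X → ℝ), Measurable[G u] h → Bdd h → (∀ x, h x ≠ 0 → u ≤ τ (i, x)) →
    ∫ x, h x * (ξ (i, x) * g (i, x)) ∂μ = ∫ x, h x * D (i, x) ∂μ

variable [Fintype I] {mX : MeasurableSpace X} {μ : Measure X}

/-- Global pairing. -/
noncomputable def gp (μ : Measure X) (u v : I × X → ℝ) : ℝ := ∑ k, ∫ x, u (k, x) * v (k, x) ∂μ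

/-- Bounded with measurable sections. -/
def BM (G : MeasurableSpace X) (u : I × X → ℝ) : Prop :=
  (∀ i, Measurable[G] fun x => u (i, x)) ∧ Bdd u

omit [Fintype I] in
theorem BM.mono {G G' : MeasurableSpace X} (h : G ≤ G') {u : I × X → ℝ} (hu : BM G u) : BM G' u :=
  ⟨fun i => (hu.1 i).mono h le_rfl, hu.2⟩

omit [Fintype I] in
theorem BM.add {G : MeasurableSpace X} {u v : I × X → ℝ} (hu : BM G u) (hv : BM G v) :
    BM G (u + v) :=
  ⟨fun i => (hu.1 i).add (hv.1 i), hu.2.add hv.2⟩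

omit [Fintype I] in
theorem BM.mul {G : MeasurableSpace X} {u v : I × X → ℝ} (hu : BM G u) (hv : BM G v) :
    BM G (fun p => u p * v p) :=
  ⟨fun i => (hu.1 i).mul (hv.1 i), hu.2.mul hv.2⟩

omit [Fintype I] in
theorem Nice.bm [DecidableEq I] {G : MeasurableSpace X} (hG : Inv Γ G) {Z : Op I X}
    (h : Nice Γ G Z) {u : I × X → ℝ} (hu : BM G u) : BM G (Z u) :=
  ⟨h.measurable hG hu.1, h.bdd hu.2⟩

omit [Fintype I] in
theorem BM.integrable [IsFiniteMeasure μ] {u : I × X → ℝ} (hu : BM mX u) (i : I) :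
    Integrable (fun x => u (i, x)) μ :=
  (hu.2.comp _).integrable (hu.1 i)

theorem gp_comm (u v : I × X → ℝ) : gp μ u v = gp μ v u := by
  simp only [gp, mul_comm]

theorem gp_add_right [IsFiniteMeasure μ] {u v w : I × X → ℝ} (hu : BM mX u) (hv : BM mX v)
    (hw : BM mX w) : gp μ u (v + w) = gp μ u v + gp μ u w := by
  unfold gp
  rw [← Finset.sum_add_distrib]
  refine Finset.sum_congr rfl fun k _ => ?_
  rw [← integral_add ((hu.mul hv).integrable k) ((hu.mul hw).integrable k)]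
  simp only [Pi.add_apply, mul_add]

theorem gp_add_left [IsFiniteMeasure μ] {u v w : I × X → ℝ} (hu : BM mX u) (hv : BM mX v)
    (hw : BM mX w) : gp μ (u + v) w = gp μ u w + gp μ v w := by
  rw [gp_comm, gp_add_right hw hu hv, gp_comm w, gp_comm w]

theorem gp_smul_right (c : ℝ) (u v : I × X → ℝ) : gp μ u (c • v) = c * gp μ u v := by
  unfold gp
  rw [Finset.mul_sum]
  refine Finset.sum_congr rfl fun k _ => ?_
  rw [← integral_const_mul]
  congr 1; ext x; simp; ring

theorem gp_mulOp (b u v : I × X → ℝ) : gp μ (mulOp b u) v = gp μ u (mulOp b v) := by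
  unfold gp
  refine Finset.sum_congr rfl fun k _ => ?_
  congr 1; ext x; simp only [mulOp_apply]; ring

theorem gp_R [DecidableEq I] [IsFiniteMeasure μ] (hμ : MP Γ μ) {T T' : Op I X} (hT : Nice Γ mX T)
    (hT' : Nice Γ mX T') (h3 : GAdj μ T T') (l : ℝ) {u v : I × X → ℝ} (hu : BM mX u)
    (hv : BM mX v) :
    gp μ u ((1 + l • (T * T')) v) = gp μ u v + l * gp μ (T' u) (T' v) := by
  have h4 : BM mX (T' v) := hT'.bm hμ.inv hv
  have h5 : BM mX (l • T (T' v)) := (hT.smul l).bm hμ.inv h4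
  have : (1 + l • (T * T')) v = v + l • T (T' v) := rfl
  rw [this, gp_add_right hu hv h5, gp_smul_right, gp_comm u (T (T' v)), gp_comm (T' u)]
  congr 2
  exact h3 _ _ h4.integrable hu.1 hu.2

/-- Free coordinates. -/
noncomputable def fr (z : I × X → ℝ) : I × X → ℝ := fun p => if |z p| ≤ 4 then 1 else 0

omit [Fintype I] in
theorem fr_cases (z : I × X → ℝ) (p : I × X) : fr z p = 0 ∨ fr z p = 1 := by
  unfold fr; split_ifs <;> simp

omit [Fintype I] in
theorem bm_fr {G : MeasurableSpace X} {z : I × X → ℝ} (hz : ∀ i, Measurable[G] fun x => z (i, x)) :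
    BM G (fr z) :=
  ⟨fun i => Measurable.ite (measurableSet_le (hz i).abs measurable_const) measurable_const
    measurable_const, ⟨1, fun p => by rcases fr_cases z p with h | h <;> simp [h]⟩⟩

/-- Spreading local vectors. -/
noncomputable def spread (B : Finset Γ) (H : I × X → ℝ) (c : I × X → B → I → ℝ) : I × X → ℝ :=
  fun q => ∑ j, ∑ γ : B, H (j, (γ : Γ)⁻¹ • q.2) * c (j, (γ : Γ)⁻¹ • q.2) γ q.1

theorem bm_spread {G : MeasurableSpace X} (hG : Inv Γ G) (B : Finset Γ) {H : I × X → ℝ}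
    {c : I × X → B → I → ℝ} (hH : BM G H) (hc : ∀ i γ k, Measurable[G] fun y => c (i, y) γ k)
    (hcb : ∀ p γ k, |c p γ k| ≤ 4) : BM G (spread B H c) := by
  constructor
  · intro k
    refine Finset.measurable_sum _ fun j _ => Finset.measurable_sum _ fun γ _ => ?_
    exact ((hH.1 j).mul (hc j γ k)).comp (hG (γ : Γ)⁻¹)
  · refine Bdd.sum _ _ fun j _ => Bdd.sum _ _ fun γ _ => (hH.2.comp _).mul ⟨4, fun q => hcb _ _ _⟩

variable [DecidableEq I] [DecidableEq X]

theorem bm_ip_uvec {G : MeasurableSpace X} (hG : Inv Γ G) (B : Finset Γ)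
    {c : I × X → B → I → ℝ} (hc : ∀ i γ k, Measurable[G] fun y => c (i, y) γ k)
    (hcb : ∀ p γ k, |c p γ k| ≤ 4) {w : I × X → ℝ} (hw : BM G w) :
    BM G (fun p => ip (uvec B (c p) p.2) w) := by
  simp only [ip_uvec]
  constructor
  · intro j
    refine Finset.measurable_sum _ fun γ _ => Finset.measurable_sum _ fun k _ => ?_
    exact (hc j γ k).mul ((hw.1 k).comp (hG γ))
  · exact Bdd.sum _ _ fun γ _ => Bdd.sum _ _ fun k _ =>
      Bdd.mul ⟨4, fun q => hcb _ _ _⟩ (hw.2.comp _)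

theorem gp_spread [IsFiniteMeasure μ] (hμ : MP Γ μ) (B : Finset Γ) {H : I × X → ℝ}
    {c : I × X → B → I → ℝ} (hH : BM mX H) (hc : ∀ i γ k, Measurable fun y => c (i, y) γ k)
    (hcb : ∀ p γ k, |c p γ k| ≤ 4) {w : I × X → ℝ} (hw : BM mX w) :
    gp μ (spread B H c) w = gp μ H (fun p => ip (uvec B (c p) p.2) w) := by
  have hint : ∀ j (γ : B) k, Integrable
      (fun y => H (j, y) * c (j, y) γ k * w (k, (γ : Γ) • y)) μ := fun j γ k =>
    (((hH.2.comp _).mul ⟨4, fun q => hcb _ _ _⟩).mul (hw.2.comp _)).integrable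
      (((hH.1 j).mul (hc j γ k)).mul ((hw.1 k).comp (hμ γ).measurable))
  have hint' : ∀ j (γ : B) k, Integrable
      (fun x => H (j, (γ : Γ)⁻¹ • x) * c (j, (γ : Γ)⁻¹ • x) γ k * w (k, x)) μ := fun j γ k =>
    (((hH.2.comp _).mul ⟨4, fun q => hcb _ _ _⟩).mul (hw.2.comp _)).integrable
      ((((hH.1 j).mul (hc j γ k)).comp (hμ (γ : Γ)⁻¹).measurable).mul (hw.1 k))
  have e1 : ∀ k, ∫ x, spread B H c (k, x) * w (k, x) ∂μ =
      ∑ j, ∑ γ : B, ∫ y, H (j, y) * c (j, y) γ k * w (k, (γ : Γ) • y) ∂μ := by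
    intro k
    simp only [spread, Finset.sum_mul]
    rw [integral_finsetSum _ fun j _ => integrable_finsetSum _ fun γ _ => hint' j γ k]
    refine Finset.sum_congr rfl fun j _ => ?_
    rw [integral_finsetSum _ fun γ _ => hint' j γ k]
    refine Finset.sum_congr rfl fun γ _ => ?_
    rw [← hμ.integral_comp (γ : Γ)]
    simp only [inv_smul_smul]
  have e2 : ∀ j, ∫ y, H (j, y) * ip (uvec B (c (j, y)) y) w ∂μ =
      ∑ γ : B, ∑ k, ∫ y, H (j, y) * c (j, y) γ k * w (k, (γ : Γ) • y) ∂μ := by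
    intro j
    simp only [ip_uvec, Finset.mul_sum, ← mul_assoc]
    rw [integral_finsetSum _ fun γ _ => integrable_finsetSum _ fun k _ => hint j γ k]
    refine Finset.sum_congr rfl fun γ _ => ?_
    rw [integral_finsetSum _ fun k _ => hint j γ k]
  unfold gp
  simp only [e1, e2]
  rw [Finset.sum_comm]
  exact Finset.sum_congr rfl fun j _ => Finset.sum_comm

theorem step [IsFiniteMeasure μ] (hμ : MP Γ μ) {F : MeasurableSpace X}
    {G : ℝ → MeasurableSpace X} {τ ξ g D : I × X → ℝ} (hs : Setup Γ μ F G τ ξ g D)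
    {T T' : Op I X} (hT : Nice Γ F T) (hT' : Nice Γ F T') (h2 : Adj T' T) (h3 : GAdj μ T T')
    {l ε : ℝ} (hl : 0 ≤ l) (hε : 0 < ε) (hε1 : ε ≤ 1) (B : Finset Γ) {BR : Set Γ}
    (hR : Loc (1 + l • (T * T')) BR) (h1R : (1 : Γ) ∈ BR) {u u' : ℝ} (huu : u ≤ u')
    (E : I × X → ℝ) (hE : ∀ p, E p = 0 ∨ E p = 1) (hEm : ∀ i, Measurable[F] fun x => E (i, x))
    (hE1 : ∀ p, E p = 1 → u ≤ τ p ∧ τ p < u')
    (hE2 : ∀ p, E p = 1 → ∀ γ ∈ (B : Set Γ) ∪ (B : Set Γ)⁻¹ * BR⁻¹ * B, ∀ k,
      u ≤ τ (k, γ • p.2) → τ (k, γ • p.2) < u' → (k, γ • p.2) = p)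
    {z : I × X → ℝ} (hz : ∀ i, Measurable[G u] fun x => z (i, x)) (hzb : ∀ p, |z p| ≤ 7) :
    ∃ z' : I × X → ℝ, (∀ i, Measurable[G u'] fun x => z' (i, x)) ∧ (∀ p, |z' p| ≤ 7) ∧
      (∀ p, fr z' p = 1 → fr z p = 1) ∧
      gp μ z' ((1 + l • (T * T')) z') ≤ gp μ z ((1 + l • (T * T')) z) + 6 * gp μ E D ∧
      gp μ ξ z + gp μ E (fun p => D p * ((1 - ε - phi T' l B (fr z) p) / 2)) ≤ gp μ ξ z' := by
  have hFm : F ≤ mX := (hs.hFG u).trans (hs.hGm u)
  have hGG : G u ≤ G u' := hs.mono huu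
  have hfixG : ∀ γ : Γ, MeasurableSet[G u] {x : X | γ • x = x} := fun γ => hs.hFG u _ (hs.fix γ)
  obtain ⟨R, hRdef⟩ : ∃ R : Op I X, R = 1 + l • (T * T') := ⟨_, rfl⟩
  rw [← hRdef] at hR ⊢
  have hRn : Nice Γ F R := hRdef ▸ nice_one.add ((hT.mul hs.invF hT').smul l)
  have hzB : BM (G u) z := ⟨hz, 7, hzb⟩
  obtain ⟨b, hbdef⟩ : ∃ b, b = fr z := ⟨_, rfl⟩
  rw [← hbdef]
  have hbB : BM (G u) b := hbdef ▸ bm_fr hz
  have hb01 : ∀ p, b p = 0 ∨ b p = 1 := hbdef ▸ fr_cases z
  obtain ⟨c, hcm, hcb, hcl⟩ := exists_selection (hs.invG u) hfixG (hT.mono (hs.hFG u))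
    (hT'.mono (hs.hFG u)) h2 l B hbB.1 hbB.2 hε
  have hEB : BM F E := ⟨hEm, 1, fun p => by rcases hE p with h | h <;> simp [h]⟩
  have hE0 : ∀ p, 0 ≤ E p := fun p => by rcases hE p with h | h <;> simp [h]
  set H : I × X → ℝ := fun p => E p * g p with hH
  have hHB : BM (G u') H := by
    have : H = fun p => E p * (if τ p < u' then g p else 0) := by
      ext p
      rcases hE p with h | h
      · simp [hH, h]
      · simp [hH, (hE1 p h).2]
    rw [this]
    refine (hEB.mono (hs.hFG u')).mul ⟨hs.ga u', 1, fun p => ?_⟩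
    dsimp only
    split_ifs
    · exact hs.gb p
    · simp
  have hHm : BM mX H := hHB.mono (hs.hGm u')
  have hcm' : ∀ i γ k, Measurable[G u'] fun y => c (i, y) γ k := fun i γ k =>
    (hcm i γ k).mono hGG le_rfl
  have hcmX : ∀ i γ k, Measurable[mX] fun y => c (i, y) γ k := fun i γ k =>
    (hcm i γ k).mono (hs.hGm u) le_rfl
  set U := spread B H c with hU
  have hUB : BM (G u') U := bm_spread (hs.invG u') B hHB hcm' hcb
  have hlocal : ∀ p, E p = 1 → ∀ γ ∈ B, ∀ δ ∈ BR, ∀ k,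
      U (k, δ⁻¹ • γ • p.2) = g p * uvec B (c p) p.2 (k, δ⁻¹ • γ • p.2) := by
    intro p hp γ hγ δ hδ k
    have key : ∀ j (γ' : B), (j, (γ' : Γ)⁻¹ • δ⁻¹ • γ • p.2) ≠ p →
        H (j, (γ' : Γ)⁻¹ • δ⁻¹ • γ • p.2) = 0 := by
      intro j γ' hne
      rcases hE (j, (γ' : Γ)⁻¹ • δ⁻¹ • γ • p.2) with h | h
      · simp [hH, h]
      · exfalso
        apply hne
        have h4 := hE1 _ h
        rw [← mul_smul, ← mul_smul] at h4 ⊢
        refine hE2 p hp _ (Or.inr ?_) j h4.1 h4.2
        exact Set.mul_mem_mul (Set.mul_mem_mul (Set.inv_mem_inv.2 γ'.2) (Set.inv_mem_inv.2 hδ)) hγ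
    simp only [hU, spread, uvec_apply]
    rw [Finset.sum_eq_single p.1, Finset.mul_sum]
    · refine Finset.sum_congr rfl fun γ' _ => ?_
      split_ifs with h
      · rw [h, inv_smul_smul]; simp [hH, hp]
      · rw [key, zero_mul, mul_zero]
        intro h'
        apply h
        have := congrArg Prod.snd h'
        simp only at this
        rw [← inv_smul_eq_iff, this]
    · intro j _ hj
      refine Finset.sum_eq_zero fun γ' _ => ?_
      rw [key, zero_mul]
      intro h'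
      exact hj (congrArg Prod.fst h')
    · simp
  have hlossle : ∀ p, loss T' l p (mulOp b (uvec B (c p) p.2)) ≤ 2 := fun p => by
    have h4 := hcl p
    have h5 := phi_le_one T' hl B b p
    unfold lossR at h4
    linarith
  have hfacts := fun p => loss_facts T' hl p ((finS_uvec B (c p) p.2).mulOp b)
  set Δ := mulOp b U with hΔ
  have hΔB : BM (G u') Δ := (hbB.mono hGG).mul hUB
  have hΔ3 : ∀ q, |Δ q| ≤ 3 := by
    intro q
    by_cases hex : ∃ j, ∃ γ : B, E (j, (γ : Γ)⁻¹ • q.2) = 1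
    · obtain ⟨j, γ, h⟩ := hex
      have h4 := hlocal _ h γ γ.2 1 h1R q.1
      simp only [inv_one, one_smul, smul_inv_smul] at h4
      have h5 := ((hfacts (j, (γ : Γ)⁻¹ • q.2)).2.2 (hlossle _)).2 q
      rw [mulOp_apply] at h5
      rw [hΔ, mulOp_apply, h4, mul_left_comm, abs_mul]
      have h6 := hs.gb (j, (γ : Γ)⁻¹ • q.2)
      calc _ ≤ 1 * 3 := mul_le_mul h6 h5 (abs_nonneg _) zero_le_one
        _ = 3 := one_mul _
    · have : U q = 0 := by
        simp only [hU, spread]
        refine Finset.sum_eq_zero fun j _ => Finset.sum_eq_zero fun γ _ => ?_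
        rcases hE (j, (γ : Γ)⁻¹ • q.2) with h | h
        · simp [hH, h]
        · exact absurd ⟨j, γ, h⟩ hex
      rw [hΔ, mulOp_apply, this]; simp
  have hfrozen : ∀ p, 4 < |z p| → Δ p = 0 := by
    intro p hp
    rw [hΔ, mulOp_apply, hbdef, fr, if_neg (not_le.2 hp), zero_mul]
  have hpast : ∀ w : I × X → ℝ, BM (G u) w → gp μ U w = 0 := by
    intro w hw
    rw [hU, gp_spread hμ B hHm hcmX hcb (hw.mono (hs.hGm u))]
    refine Finset.sum_eq_zero fun j _ => ?_
    have h4 := (hEB.mono (hs.hFG u)).mul (bm_ip_uvec (hs.invG u) B hcm hcb hw)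
    rw [← hs.og u j _ (h4.1 j) (h4.2.comp _) (fun x hx => ?_)]
    · congr 1; ext x; simp only [hH]; ring
    · rcases hE (j, x) with h | h
      · simp [h] at hx
      · exact (hE1 _ h).1
  have hzX : BM mX z := hzB.mono (hs.hGm u)
  have hΔX : BM mX Δ := hΔB.mono (hs.hGm u')
  have hbX : BM mX b := hbB.mono (hs.hGm u)
  have hUX : BM mX U := hUB.mono (hs.hGm u')
  have hRX : Nice Γ mX R := hRn.mono hFm
  have hEX : BM mX E := hEB.mono hFm
  have hDX : BM mX D := ⟨hs.Dm, 1, fun p => by rw [abs_of_nonneg (hs.D0 p)]; exact hs.D1 p⟩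
  have hξX : BM mX ξ := ⟨hs.ξm, hs.ξb⟩
  refine ⟨z + Δ, ((hzB.mono hGG).add hΔB).1, ?_, ?_, ?_, ?_⟩
  · intro p
    by_cases hp : 4 < |z p|
    · rw [Pi.add_apply, hfrozen p hp, add_zero]; exact hzb p
    · rw [Pi.add_apply]
      linarith [abs_add_le (z p) (Δ p), hΔ3 p, not_lt.1 hp]
  · intro p hp
    rw [hbdef]
    by_cases hp' : 4 < |z p|
    · rw [fr, Pi.add_apply, hfrozen p hp', add_zero] at hp
      exact hp
    · rw [fr, if_pos (not_lt.1 hp')]
  · have c1 : gp μ Δ (R z) = 0 := by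
      rw [hΔ, gp_mulOp]
      exact hpast _ (hbB.mul ((hRn.mono (hs.hFG u)).bm (hs.invG u) hzB))
    have c2 : gp μ z (R Δ) = 0 := by
      rw [← c1, hRdef, gp_R hμ (hT.mono hFm) (hT'.mono hFm) h3 l hzX hΔX,
        gp_R hμ (hT.mono hFm) (hT'.mono hFm) h3 l hΔX hzX, gp_comm z, gp_comm (T' z)]
    have c3 : gp μ Δ (R Δ) ≤ 6 * gp μ E D := by
      have hw : BM mX (mulOp b (R Δ)) := hbX.mul (hRX.bm hμ.inv hΔX)
      rw [show gp μ Δ (R Δ) = gp μ U (mulOp b (R Δ)) from gp_mulOp b U _, hU,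
        gp_spread hμ B hHm hcmX hcb hw, ← gp_smul_right]
      refine Finset.sum_le_sum fun j _ => integral_mono
        ((hHm.mul (bm_ip_uvec hμ.inv B hcmX hcb hw)).integrable j)
        ((hEX.mul (v := (6 : ℝ) • D) ⟨fun i => (hDX.1 i).const_smul (6 : ℝ),
          (bdd_const 6).mul hDX.2⟩).integrable j) fun y => ?_
      rcases hE (j, y) with h | h
      · simp [hH, h]
      · have e1 : ip (uvec B (c (j, y)) y) (mulOp b (R Δ)) = g (j, y) *
            ip (uvec B (c (j, y)) y) ((mulOp b * (R * mulOp b)) (uvec B (c (j, y)) y)) := by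
          rw [ip_uvec, ip_uvec, Finset.mul_sum]
          refine Finset.sum_congr rfl fun γ _ => ?_
          rw [Finset.mul_sum]
          refine Finset.sum_congr rfl fun k _ => ?_
          have e2 := hR (Δ - g (j, y) • mulOp b (uvec B (c (j, y)) y)) (k, (γ : Γ) • y) (by
            intro i δ hδ
            have := hlocal _ h γ γ.2 δ hδ i
            simp only at this
            simp only [hΔ, Pi.sub_apply, Pi.smul_apply, mulOp_apply, this, smul_eq_mul]
            ring)
          rw [map_sub, map_smul, Pi.sub_apply, Pi.smul_apply, sub_eq_zero, smul_eq_mul] at e2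
          simp only [Module.End.mul_apply, mulOp_apply, e2]
          ring
        have e3 := ((hfacts (j, y)).2.2 (hlossle _)).1
        rw [energy_eq h2 l b (finS_uvec B _ _), ← hRdef] at e3
        simp only [hH, h, one_mul, Pi.smul_apply, smul_eq_mul]
        rw [e1, ← mul_assoc]
        have e4 := hs.gD (j, y)
        have e5 := mul_self_nonneg (g (j, y))
        simp only at e3
        nlinarith
    rw [map_add, gp_add_left hzX hΔX ((hRX.bm hμ.inv hzX).add (hRX.bm hμ.inv hΔX)),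
      gp_add_right hzX (hRX.bm hμ.inv hzX) (hRX.bm hμ.inv hΔX),
      gp_add_right hΔX (hRX.bm hμ.inv hzX) (hRX.bm hμ.inv hΔX), c1, c2]
    linarith
  · rw [gp_add_right hξX hzX hΔX]
    gcongr
    set ξ1 : I × X → ℝ := fun p => if τ p < u then ξ p else 0 with hξ1
    set ξ2 : I × X → ℝ := fun p => if u ≤ τ p ∧ τ p < u' then ξ p else 0 with hξ2
    set ξ3 : I × X → ℝ := fun p => if u' ≤ τ p then ξ p else 0 with hξ3
    have hτX : ∀ i, Measurable[mX] fun x => τ (i, x) := fun i => (hs.τm i).mono hFm le_rfl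
    have hbd : ∀ (P : I × X → Prop) [DecidablePred P], Bdd fun p => if P p then ξ p else 0 := by
      intro P _
      obtain ⟨A, hA⟩ := hs.ξb
      refine ⟨A, fun p => ?_⟩
      dsimp only
      split_ifs
      · exact hA p
      · simpa using (abs_nonneg _).trans (hA p)
    have h1B : BM (G u) ξ1 := ⟨hs.ξa u, hbd _⟩
    have h2B : BM mX ξ2 := ⟨fun i => Measurable.ite
      ((measurableSet_le measurable_const (hτX i)).inter (measurableSet_lt (hτX i) measurable_const))
      (hs.ξm i) measurable_const, hbd _⟩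
    have h3B : BM mX ξ3 := ⟨fun i => Measurable.ite
      (measurableSet_le measurable_const (hτX i)) (hs.ξm i) measurable_const, hbd _⟩
    have hsplit : ξ = ξ1 + ξ2 + ξ3 := by
      ext p
      simp only [hξ1, hξ2, hξ3, Pi.add_apply]
      by_cases a1 : τ p < u
      · simp [a1, not_le.2 a1, not_le.2 (a1.trans_le huu)]
      · by_cases a2 : τ p < u'
        · simp [a1, not_lt.1 a1, a2, not_le.2 a2]
        · simp [a1, a2, not_lt.1 a2]
    have d1 : gp μ Δ ξ1 = 0 := by
      rw [hΔ, gp_mulOp]; exact hpast _ (hbB.mul h1B)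
    have d3 : gp μ Δ ξ3 = 0 := by
      refine Finset.sum_eq_zero fun k _ => ?_
      have h4 : BM (G u') (fun p => Δ p * if u' ≤ τ p then 1 else 0) :=
        hΔB.mul ⟨fun i => Measurable.ite (measurableSet_le measurable_const
          ((hs.τm i).mono (hs.hFG u') le_rfl)) measurable_const measurable_const,
          1, fun p => by dsimp only; split_ifs <;> simp⟩
      rw [← hs.oξ u' k _ (h4.1 k) (h4.2.comp _) (fun x hx => ?_)]
      · congr 1; ext x; simp only [hξ3]; split_ifs <;> simp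
      · by_contra hcon
        simp [hcon] at hx
    have d2 : gp μ E (fun p => D p * ((1 - ε - phi T' l B b p) / 2)) ≤ gp μ Δ ξ2 := by
      have hw : BM mX (mulOp b ξ2) := hbX.mul h2B
      rw [show gp μ Δ ξ2 = gp μ U (mulOp b ξ2) from gp_mulOp b U _, hU,
        gp_spread hμ B hHm hcmX hcb hw]
      refine Finset.sum_le_sum fun j _ => ?_
      have hvB : BM (G u) (fun p => mulOp b (uvec B (c p) p.2) p) := by
        refine hbB.mul ⟨fun i => ?_, ?_⟩
        · simp only [uvec_apply]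
          refine Finset.measurable_sum _ fun γ _ => Measurable.ite ?_ (hcm i γ i) measurable_const
          simpa only [eq_comm] using hfixG γ
        · simp only [uvec_apply]
          refine Bdd.sum _ _ fun γ _ => ⟨4, fun p => ?_⟩
          dsimp only
          split_ifs
          · exact hcb _ _ _
          · simp
      have h4 := (hEB.mono (hs.hFG u)).mul hvB
      have e1 : ∫ y, H (j, y) * ip (uvec B (c (j, y)) y) (mulOp b ξ2) ∂μ =
          ∫ y, (E (j, y) * mulOp b (uvec B (c (j, y)) y) (j, y)) * (ξ (j, y) * g (j, y)) ∂μ := by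
        congr 1; ext y
        rcases hE (j, y) with h | h
        · simp [hH, h]
        · have e2 : ip (uvec B (c (j, y)) y) (mulOp b ξ2) =
              ip (uvec B (c (j, y)) y) (mulOp b ξ2 (j, y) • Pi.single (j, y) 1) := by
            refine ip_congr_right fun q hq => ?_
            by_cases hq' : q = (j, y)
            · subst hq'; simp
            · rw [uvec_apply] at hq
              obtain ⟨γ, -, hγ⟩ := Finset.exists_ne_zero_of_sum_ne_zero hq
              have hγ' : q.2 = (γ : Γ) • y := by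
                by_contra hcon; simp [hcon] at hγ
              rw [Pi.smul_apply, Pi.single_eq_of_ne hq', smul_zero, mulOp_apply]
              simp only [hξ2]
              rw [if_neg, mul_zero]
              intro hcon
              apply hq'
              have := hE2 _ h γ (Or.inl γ.2) q.1 (hγ' ▸ hcon.1) (hγ' ▸ hcon.2)
              rw [← this, ← hγ']
          rw [e2, ip_smul_right, ip_comm, ip_single_left]
          simp only [hH, h, mulOp_apply, hξ2, if_pos (hE1 _ h)]
          ring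
      rw [e1, hs.oξg u j _ (h4.1 j) (h4.2.comp _) (fun x hx => ?_)]
      · have hφ : BM mX (fun p => D p * ((1 - ε - phi T' l B b p) / 2)) := by
          refine hDX.mul ⟨fun i => (measurable_const.sub (measurable_phi hμ.inv
            (fun γ => hFm _ (hs.fix γ)) (hT.mono hFm) (hT'.mono hFm) h2 l B hbX.1 hbX.2 i)).div_const _,
            1, fun p => ?_⟩
          have := phi_nonneg T' hl B b p
          have := phi_le_one T' hl B b p
          rw [abs_le]; constructor <;> linarith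
        refine integral_mono ((hEX.mul hφ).integrable j)
          (((h4.mono (hs.hGm u)).mul hDX).integrable j) fun y => ?_
        have e3 := (hfacts (j, y)).2.1
        have e4 := hcl (j, y)
        unfold lossR at e4
        have e5 : (1 - ε - phi T' l B b (j, y)) / 2 ≤ mulOp b (uvec B (c (j, y)) y) (j, y) := by
          simp only at e3 e4
          linarith
        have e6 := mul_le_mul_of_nonneg_left e5 (mul_nonneg (hE0 (j, y)) (hs.D0 (j, y)))
        simp only
        linarith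
      · rcases hE (j, x) with h | h
        · simp [h] at hx
        · exact (hE1 _ h).1
    rw [gp_comm ξ Δ, hsplit, gp_add_right hΔX ((h1B.mono (hs.hGm u)).add h2B) h3B,
      gp_add_right hΔX (h1B.mono (hs.hGm u)) h2B, d1, d3]
    linarith

end Pool.Agent.Lib.MP_d3f853_an
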