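import Mathlib
import Pool.Agent.Lib.MP_d3f853_an.Step

namespace Pool.Agent.Lib.MP_d3f853_an

open Function MeasureTheory Filter Topology
open scoped Pointwise

variable {Γ X I : Type*} [Group Γ] [MulAction Γ X] [Fintype I] {mX : MeasurableSpace X}
  {μ : Measure X}

theorem isub {f g : X → ℝ} (hf : Integrable f μ) (hg : Integrable g μ) :
    Integrable (fun x => f x - g x) μ := hf.sub hg

theorem iadd {f g : X → ℝ} (hf : Integrable f μ) (hg : Integrable g μ) :
    Integrable (fun x => f x + g x) μ := hf.add hg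

theorem gp_mono [IsFiniteMeasure μ] {u v u' v' : I × X → ℝ} (hu : BM mX u) (hv : BM mX v)
    (hu' : BM mX u') (hv' : BM mX v') (h : ∀ p, u p * v p ≤ u' p * v' p) :
    gp μ u v ≤ gp μ u' v' :=
  Finset.sum_le_sum fun j _ => integral_mono ((hu.mul hv).integrable j)
    ((hu'.mul hv').integrable j) fun _ => h _

omit [Fintype I] in
theorem bm_ite {G : MeasurableSpace X} {P : I × X → Prop} [DecidablePred P]
    (h : ∀ i, MeasurableSet[G] {x | P (i, x)}) : BM G (fun p => if P p then (1 : ℝ) else 0) :=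
  ⟨fun i => Measurable.ite (h i) measurable_const measurable_const,
    1, fun p => by dsimp only; split_ifs <;> simp⟩

theorem exists_trunc (f : I × X → ℝ) (hf : ∀ i, Integrable (fun x => f (i, x)) μ) {η : ℝ}
    (hη : 0 < η) : ∃ K : ℝ, 0 ≤ K ∧ ∑ i, ∫ x, max (|f (i, x)| - K) 0 ∂μ ≤ η := by
  have h1 : ∀ i, Tendsto (fun n : ℕ => ∫ x, max (|f (i, x)| - n) 0 ∂μ) atTop (𝓝 0) := by
    intro i
    have := tendsto_integral_of_dominated_convergence (μ := μ)
      (F := fun (n : ℕ) x => max (|f (i, x)| - n) 0) (f := fun _ => (0 : ℝ))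
      (fun x => |f (i, x)|)
      (fun n => (((hf i).aemeasurable.abs.sub_const _).max aemeasurable_const).aestronglyMeasurable)
      (hf i).abs
      (fun n => ae_of_all _ fun x => by
        rw [Real.norm_eq_abs, abs_of_nonneg (le_max_right _ _)]
        exact max_le (by linarith [(Nat.cast_nonneg n : (0 : ℝ) ≤ n)]) (abs_nonneg _))
      (ae_of_all _ fun x => by
        refine tendsto_const_nhds.congr' ?_
        obtain ⟨n, hn⟩ := exists_nat_ge |f (i, x)|
        filter_upwards [eventually_ge_atTop n] with m hm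
        have : (n : ℝ) ≤ m := by exact_mod_cast hm
        rw [max_eq_right (by linarith)])
    simpa using this
  have h2 := tendsto_finsetSum Finset.univ fun i _ => h1 i
  simp only [Finset.sum_const_zero] at h2
  obtain ⟨n, hn⟩ := (h2.eventually (gt_mem_nhds hη)).exists
  exact ⟨n, Nat.cast_nonneg _, hn.le⟩

theorem rigid_aux [DecidableEq I] [IsProbabilityMeasure μ] (hμ : MP Γ μ) {F : MeasurableSpace X}
    {G : ℝ → MeasurableSpace X} {τ ξ g D : I × X → ℝ} (hs : Setup Γ μ F G τ ξ g D)
    (hτ : ∀ p, 0 ≤ τ p ∧ τ p < 1)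
    (hsep : ∀ᵐ y ∂μ, ∀ (γ : Γ) i k, (k, γ • y) ≠ (i, y) → τ (k, γ • y) ≠ τ (i, y))
    (S : Finset I) (f : I × X → ℝ) (hf : ∀ i, Integrable (fun x => f (i, x)) μ)
    {η : ℝ} (hη : 0 < η) (hη1 : η ≤ 1) {T : Op I X} (hT : Nice Γ F T)
    (hQ : T * mulOp (indS S) = T) (happ : ∑ i, ∫ x, |ξ (i, x) - T f (i, x)| ∂μ ≤ η) :
    5 / 8 * ∑ i, ∫ x, D (i, x) ∂μ ≤ S.card + (20 + 3 * Fintype.card I) * η := by
  classical
  have hFm : F ≤ mX := (hs.hFG 0).trans (hs.hGm 0)
  have hfixX : ∀ γ : Γ, MeasurableSet[mX] {x : X | γ • x = x} := fun γ => hFm _ (hs.fix γ)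
  obtain ⟨T', hT', h1, h2, h3⟩ := hT.exists_adj hμ hs.invF hFm
  obtain ⟨C, hC0, hC⟩ := hT'.bound
  obtain ⟨K, hK0, hK⟩ := exists_trunc f hf (η := η / (C * 7 + 1)) (by positivity)
  set m : ℝ := (Fintype.card I : ℝ) with hm
  have hm0 : 0 ≤ m := Nat.cast_nonneg _
  obtain ⟨l, hldef⟩ : ∃ l : ℝ, l = 2 * (m + 1) * K ^ 2 / η ^ 2 := ⟨_, rfl⟩
  have hl : 0 ≤ l := by rw [hldef]; positivity
  obtain ⟨B0, hB0, htest⟩ := exists_test hμ hfixX (hT.mono hFm) (hT'.mono hFm) h1 h2 S hQ hl hη
  set B : Finset Γ := hB0.toFinset with hB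
  have hRn : Nice Γ F (1 + l • (T * T')) := nice_one.add ((hT.mul hs.invF hT').smul l)
  obtain ⟨BR0, hBR0, hlR0⟩ := hRn.loc
  set BR : Set Γ := BR0 ∪ {1} with hBR
  have hlR : Loc (1 + l • (T * T')) BR := hlR0.mono Set.subset_union_left
  have hBRf : BR.Finite := hBR0.union (Set.finite_singleton _)
  set B2 : Set Γ := (B : Set Γ) ∪ (B : Set Γ)⁻¹ * BR⁻¹ * B with hB2
  have hB2f : B2.Finite := B.finite_toSet.union
    ((B.finite_toSet.inv.mul hBRf.inv).mul B.finite_toSet)
  set Good : ℕ → I × X → Prop := fun N p => ∀ γ ∈ B2, ∀ k, (k, γ • p.2) ≠ p →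
    1 / ((N : ℝ) + 1) ≤ |τ (k, γ • p.2) - τ p| with hGood
  have hGoodm : ∀ N i, MeasurableSet[F] {x | Good N (i, x)} := by
    intro N i
    have : {x | Good N (i, x)} = ⋂ γ ∈ B2, ⋂ k, ((if k = i then {x : X | γ • x = x} else ∅) ∪
        {x | 1 / ((N : ℝ) + 1) ≤ |τ (k, γ • x) - τ (i, x)|}) := by
      ext x
      simp only [hGood, Set.mem_ofPred_eq, Set.mem_iInter, Set.mem_union, ne_eq, Prod.mk.injEq]
      refine forall₃_congr fun γ _ k => ?_
      by_cases hk : k = i
      · simp only [hk, true_and, if_true, Set.mem_ofPred_eq]; tauto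
      · simp [hk]
    rw [this]
    refine MeasurableSet.biInter hB2f.countable fun γ _ => MeasurableSet.iInter fun k => ?_
    refine MeasurableSet.union ?_ (measurableSet_le measurable_const
      (((hs.τm k).comp (hs.invF γ)).sub (hs.τm i)).abs)
    split_ifs
    · exact hs.fix γ
    · exact @MeasurableSet.empty _ F
  obtain ⟨N, hN⟩ : ∃ N : ℕ, ∑ i, ∫ x, (1 - if Good N (i, x) then (1 : ℝ) else 0) ∂μ ≤ η := by
    have h4 : ∀ i, Tendsto (fun N : ℕ => ∫ x, (1 - if Good N (i, x) then (1 : ℝ) else 0) ∂μ)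
        atTop (𝓝 0) := by
      intro i
      have := tendsto_integral_of_dominated_convergence (μ := μ)
        (F := fun (N : ℕ) x => (1 - if Good N (i, x) then (1 : ℝ) else 0)) (f := fun _ => (0 : ℝ))
        (fun _ => 1)
        (fun N => (measurable_const.sub (Measurable.ite (hFm _ (hGoodm N i)) measurable_const
          measurable_const)).aestronglyMeasurable)
        (integrable_const _)
        (fun N => ae_of_all _ fun x => by split_ifs <;> simp)
        (by
          filter_upwards [hsep] with y hy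
          refine tendsto_const_nhds.congr' ?_
          have : ∀ᶠ N : ℕ in atTop, Good N (i, y) := by
            simp only [hGood]
            rw [eventually_all_finite hB2f]
            intro γ _
            rw [eventually_all]
            intro k
            by_cases hne : (k, γ • y) = (i, y)
            · exact Eventually.of_forall fun N h => absurd hne h
            · have h5 : 0 < |τ (k, γ • y) - τ (i, y)| := abs_pos.2 (sub_ne_zero.2 (hy γ i k hne))
              filter_upwards [tendsto_one_div_add_atTop_nhds_zero_nat.eventually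
                (gt_mem_nhds h5)] with N hN _
              exact hN.le
          filter_upwards [this] with N hN
          simp [hN])
      simpa using this
    have h5 := tendsto_finsetSum Finset.univ fun i _ => h4 i
    simp only [Finset.sum_const_zero] at h5
    obtain ⟨n, hn⟩ := (h5.eventually (gt_mem_nhds hη)).exists
    exact ⟨n, hn.le⟩
  have hN0 : (0 : ℝ) < (N : ℝ) + 1 := by positivity
  have hDX : BM mX D := ⟨hs.Dm, 1, fun p => by rw [abs_of_nonneg (hs.D0 p)]; exact hs.D1 p⟩
  have hξX : BM mX ξ := ⟨hs.ξm, hs.ξb⟩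
  set E : ℕ → I × X → ℝ := fun k p => if Good N p ∧ τ p < k / ((N : ℝ) + 1) then 1 else 0 with hE
  have hEX : ∀ k, BM mX (E k) := fun k => (bm_ite (G := F)
    (P := fun p => Good N p ∧ τ p < k / ((N : ℝ) + 1)) fun i =>
    (hGoodm N i).inter (measurableSet_lt (hs.τm i) measurable_const)).mono hFm
  have hφX : ∀ z : I × X → ℝ, (∀ i, Measurable[mX] fun x => z (i, x)) →
      BM mX (fun p => D p * ((1 - η - phi T' l B (fr z) p) / 2)) := by
    intro z hz
    refine hDX.mul ⟨fun i => (measurable_const.sub (measurable_phi hμ.inv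
      hfixX (hT.mono hFm) (hT'.mono hFm) h2 l B (bm_fr hz).1 (bm_fr hz).2 i)).div_const _,
      1, fun p => ?_⟩
    have := phi_nonneg T' hl B (fr z) p
    have := phi_le_one T' hl B (fr z) p
    rw [abs_le]; constructor <;> linarith
  have main : ∀ k : ℕ, ∃ z : I × X → ℝ,
      (∀ i, Measurable[G (k / ((N : ℝ) + 1))] fun x => z (i, x)) ∧ (∀ p, |z p| ≤ 7) ∧
      gp μ z ((1 + l • (T * T')) z) ≤ 6 * gp μ (E k) D ∧
      gp μ (E k) (fun p => D p * ((1 - η - phi T' l B (fr z) p) / 2)) ≤ gp μ ξ z := by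
    intro k
    induction k with
    | zero =>
      have : E 0 = 0 := by
        ext p; simp [hE, not_lt.2 (hτ p).1]
      refine ⟨0, fun _ => measurable_const, fun p => by simp, ?_, ?_⟩ <;> simp [this, gp]
    | succ k ih =>
      obtain ⟨z, hz, hzb, he, hg⟩ := ih
      have huu : (k : ℝ) / ((N : ℝ) + 1) ≤ ((k + 1 : ℕ) : ℝ) / ((N : ℝ) + 1) := by
        gcongr; simp
      set E' : I × X → ℝ := fun p => if Good N p ∧ (k / ((N : ℝ) + 1) ≤ τ p ∧
        τ p < ((k + 1 : ℕ) : ℝ) / ((N : ℝ) + 1)) then 1 else 0 with hE'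
      have hE'F : BM F E' := bm_ite (G := F) fun i => (hGoodm N i).inter
        ((measurableSet_le measurable_const (hs.τm i)).inter
          (measurableSet_lt (hs.τm i) measurable_const))
      have hE'1 : ∀ p, E' p = 1 → Good N p ∧ (k / ((N : ℝ) + 1) ≤ τ p ∧
          τ p < ((k + 1 : ℕ) : ℝ) / ((N : ℝ) + 1)) := by
        intro p hp
        by_contra hcon
        simp only [hE', if_neg hcon] at hp
        exact zero_ne_one hp
      obtain ⟨z', hz', hz'b, hfr, he', hg'⟩ := step hμ hs hT hT' h2 h3 hl hη hη1 B hlR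
        (Or.inr rfl) huu E' (fun p => by simp only [hE']; split_ifs <;> simp) hE'F.1
        (fun p hp => (hE'1 p hp).2) (by
          intro p hp γ hγ j h4 h5
          by_contra hne
          obtain ⟨h6, h7, h8⟩ := hE'1 p hp
          have h9 := h6 γ hγ j hne
          have h10 : ((k + 1 : ℕ) : ℝ) / ((N : ℝ) + 1) = k / ((N : ℝ) + 1) + 1 / ((N : ℝ) + 1) := by
            push_cast; ring
          rw [h10] at h5 h8
          have : |τ (j, γ • p.2) - τ p| < 1 / ((N : ℝ) + 1) := by
            rw [abs_lt]; constructor <;> linarith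
          linarith) hz hzb
      have hsum : E (k + 1) = E k + E' := by
        ext p
        simp only [hE, hE', Pi.add_apply]
        by_cases a0 : Good N p
        · by_cases a1 : τ p < k / ((N : ℝ) + 1)
          · rw [if_pos ⟨a0, a1.trans_le huu⟩, if_pos ⟨a0, a1⟩, if_neg, add_zero]
            exact fun h => absurd h.2.1 (not_le.2 a1)
          · rw [if_neg (fun h : Good N p ∧ τ p < k / ((N : ℝ) + 1) => a1 h.2), zero_add]
            simp only [a0, not_lt.1 a1, true_and]
        · simp [a0]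
      have hzX : ∀ i, Measurable[mX] fun x => z (i, x) := fun i => (hz i).mono (hs.hGm _) le_rfl
      have hz'X : ∀ i, Measurable[mX] fun x => z' (i, x) := fun i => (hz' i).mono (hs.hGm _) le_rfl
      have hmono : ∀ E'' : I × X → ℝ, BM mX E'' → (∀ p, 0 ≤ E'' p) →
          gp μ E'' (fun p => D p * ((1 - η - phi T' l B (fr z') p) / 2)) ≤
          gp μ E'' (fun p => D p * ((1 - η - phi T' l B (fr z) p) / 2)) := by
        intro E'' hE'' h0
        refine gp_mono hE'' (hφX z' hz'X) hE'' (hφX z hzX) fun p => ?_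
        have := phi_mono T' hl B (fr_cases z') hfr p
        refine mul_le_mul_of_nonneg_left (mul_le_mul_of_nonneg_left (by linarith) (hs.D0 p)) (h0 p)
      refine ⟨z', hz', hz'b, ?_, ?_⟩
      · rw [hsum, gp_add_left (hEX k) (hE'F.mono hFm) hDX]; linarith
      · rw [hsum, gp_add_left (hEX k) (hE'F.mono hFm) (hφX z' hz'X)]
        have a1 := hmono (E k) (hEX k) fun p => by simp only [hE]; split_ifs <;> simp
        have a2 := hmono E' (hE'F.mono hFm) fun p => by simp only [hE']; split_ifs <;> simp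
        linarith
  obtain ⟨z, hz, hzb, he, hg⟩ := main (N + 1)
  have hzX : BM mX z := ⟨fun i => (hz i).mono (hs.hGm _) le_rfl, 7, hzb⟩
  have hEN : E (N + 1) = fun p => if Good N p then 1 else 0 := by
    ext p
    have : τ p < ((N + 1 : ℕ) : ℝ) / ((N : ℝ) + 1) := by
      push_cast; rw [div_self hN0.ne']; exact (hτ p).2
    simp only [hE, this, and_true]
  set d : ℝ := ∑ i, ∫ x, D (i, x) ∂μ with hd
  have hdm : d ≤ m := by
    calc d ≤ ∑ _ : I, (1 : ℝ) := Finset.sum_le_sum fun i _ => by
          simpa using integral_mono (hDX.integrable (μ := μ) i) (integrable_const (1 : ℝ))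
            fun x => hs.D1 _
      _ = m := by simp [hm]
  have hED : gp μ (E (N + 1)) D ≤ d := by
    refine Finset.sum_le_sum fun i _ => integral_mono (((hEX _).mul hDX).integrable i)
      (hDX.integrable i) fun x => ?_
    simp only [hE]
    split_ifs
    · simp
    · simpa using hs.D0 _
  rw [gp_R hμ (hT.mono hFm) (hT'.mono hFm) h3 l hzX hzX] at he
  have hzz : 0 ≤ gp μ z z := Finset.sum_nonneg fun i _ => integral_nonneg fun x => mul_self_nonneg _
  have hTz : BM mX (T' z) := (hT'.mono hFm).bm hμ.inv hzX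
  have hww : 0 ≤ gp μ (T' z) (T' z) :=
    Finset.sum_nonneg fun i _ => integral_nonneg fun x => mul_self_nonneg _
  have hlw : 0 ≤ l * gp μ (T' z) (T' z) := mul_nonneg hl hww
  obtain ⟨ℓ, hℓi, hℓs, hℓ⟩ := htest (fr z) (fr_cases z) (bm_fr hzX.1).1
  have hlow : (d - η - m * η - (S.card + η) - gp μ z z / 16) / 2 ≤
      gp μ (E (N + 1)) (fun p => D p * ((1 - η - phi T' l B (fr z) p) / 2)) := by
    have hGi : ∀ i, Integrable (fun x => (1 - if Good N (i, x) then (1 : ℝ) else 0)) μ := fun i =>
      (integrable_const _).sub (((bm_ite (G := F) (hGoodm N)).mono hFm).integrable i)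
    have e1 : ∀ i, (∫ x, D (i, x) ∂μ - ∫ x, (1 - if Good N (i, x) then (1 : ℝ) else 0) ∂μ - η
        - ∫ x, ℓ (i, x) ∂μ - (∫ x, z (i, x) * z (i, x) ∂μ) / 16) / 2 ≤
        ∫ x, E (N + 1) (i, x) * (D (i, x) * ((1 - η - phi T' l B (fr z) (i, x)) / 2)) ∂μ := by
      intro i
      have i1 := hDX.integrable (μ := μ) i
      have i2 := hGi i
      have i3 := integrable_const (μ := μ) η
      have i4 := hℓi i
      have i5 := ((hzX.mul hzX).integrable (μ := μ) i).div_const 16
      have e2 : ∫ x, (D (i, x) - (1 - if Good N (i, x) then (1 : ℝ) else 0) - η - ℓ (i, x)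
          - z (i, x) * z (i, x) / 16) / 2 ∂μ =
          (∫ x, D (i, x) ∂μ - ∫ x, (1 - if Good N (i, x) then (1 : ℝ) else 0) ∂μ - η
            - ∫ x, ℓ (i, x) ∂μ - (∫ x, z (i, x) * z (i, x) ∂μ) / 16) / 2 := by
        rw [integral_div, integral_sub (isub (isub (isub i1 i2) i3) i4) i5,
          integral_sub (isub (isub i1 i2) i3) i4, integral_sub (isub i1 i2) i3, integral_sub i1 i2,
          integral_div]
        simp
      rw [← e2]
      refine integral_mono (((((i1.sub i2).sub i3).sub i4).sub i5).div_const 2)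
        (((hEX _).mul (hφX z hzX.1)).integrable i) fun x => ?_
      have a1 : phi T' l B (fr z) (i, x) ≤ ℓ (i, x) + z (i, x) * z (i, x) / 16 := by
        rcases fr_cases z (i, x) with h | h
        · rw [(hℓ _).1 h]
          have a2 := phi_le_one T' hl B (fr z) (i, x)
          have a3 : 4 < |z (i, x)| := by
            by_contra hcon
            rw [fr, if_pos (not_lt.1 hcon)] at h
            exact one_ne_zero h
          rw [← abs_mul_abs_self]
          nlinarith
        · obtain ⟨v, hv, hv'⟩ := (hℓ _).2 h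
          have a2 := phi_le_loss h2 hl B (fr z) (i, x) v fun q hq => by
            obtain ⟨a3, γ, hγ, a4⟩ := hv q hq
            exact ⟨a3, γ, hB0.mem_toFinset.2 hγ, a4⟩
          have := mul_self_nonneg (z (i, x))
          linarith
      have a2 := phi_nonneg T' hl B (fr z) (i, x)
      have a3 := hs.D0 (i, x)
      have a4 := hs.D1 (i, x)
      simp only [hEN]
      split_ifs
      · nlinarith
      · linarith
    have e3 := Finset.sum_le_sum fun i (_ : i ∈ Finset.univ) => e1 i
    simp only [← Finset.sum_div, Finset.sum_sub_distrib, Finset.sum_const, Finset.card_univ,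
      nsmul_eq_mul] at e3
    unfold gp at *
    linarith
  have hup : gp μ ξ z ≤ 7 * η + (η + m * η + η) := by
    have hTf := (hT.mono hFm).integrable hμ hf
    have e1 : gp μ ξ z = ∑ i, ∫ x, (ξ (i, x) - T f (i, x)) * z (i, x) ∂μ +
        ∑ i, ∫ x, f (i, x) * T' z (i, x) ∂μ := by
      rw [← h3 f z hf hzX.1 hzX.2, ← Finset.sum_add_distrib]
      refine Finset.sum_congr rfl fun i _ => ?_
      rw [← integral_add (integrable_mul_bdd (isub (hξX.integrable i) (hTf i)) (hzX.1 i)
        (hzX.2.comp _)) (integrable_mul_bdd (hTf i) (hzX.1 i) (hzX.2.comp _))]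
      congr 1; ext x; ring
    have e2 : ∑ i, ∫ x, (ξ (i, x) - T f (i, x)) * z (i, x) ∂μ ≤ 7 * η := by
      refine le_trans ?_ (mul_le_mul_of_nonneg_left happ (by norm_num))
      rw [Finset.mul_sum]
      refine Finset.sum_le_sum fun i _ => ?_
      rw [← integral_const_mul]
      refine integral_mono (integrable_mul_bdd ((hξX.integrable i).sub (hTf i)) (hzX.1 i)
        (hzX.2.comp _)) (((hξX.integrable i).sub (hTf i)).abs.const_mul _) fun x => ?_
      refine (le_abs_self _).trans ?_
      rw [abs_mul, mul_comm]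
      exact mul_le_mul_of_nonneg_right (hzb _) (abs_nonneg _)
    have e3 : ∑ i, ∫ x, f (i, x) * T' z (i, x) ∂μ ≤
        (C * 7 + 1) * ∑ i, ∫ x, max (|f (i, x)| - K) 0 ∂μ + m * η +
          K ^ 2 / (4 * η) * gp μ (T' z) (T' z) := by
      have e4 : ∀ i, ∫ x, f (i, x) * T' z (i, x) ∂μ ≤
          (C * 7 + 1) * ∫ x, max (|f (i, x)| - K) 0 ∂μ + η +
            K ^ 2 / (4 * η) * ∫ x, T' z (i, x) * T' z (i, x) ∂μ := by
        intro i
        have i1 : Integrable (fun x => max (|f (i, x)| - K) 0) μ :=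
          ((hf i).abs.sub (integrable_const K)).pos_part
        have i2 := (hTz.mul hTz).integrable (μ := μ) i
        have e5 : ∫ x, ((C * 7 + 1) * max (|f (i, x)| - K) 0 + η +
            K ^ 2 / (4 * η) * (T' z (i, x) * T' z (i, x))) ∂μ =
            (C * 7 + 1) * ∫ x, max (|f (i, x)| - K) 0 ∂μ + η +
            K ^ 2 / (4 * η) * ∫ x, T' z (i, x) * T' z (i, x) ∂μ := by
          rw [integral_add (iadd (i1.const_mul _) (integrable_const _)) (i2.const_mul _),
            integral_add (i1.const_mul _) (integrable_const _), integral_const_mul,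
            integral_const_mul]
          simp
        rw [← e5]
        refine integral_mono (integrable_mul_bdd (hf i) (hTz.1 i) (hTz.2.comp _))
          (((i1.const_mul _).add (integrable_const _)).add (i2.const_mul _)) fun x => ?_
        have a1 := hC z 7 hzb (i, x)
        have a2 : f (i, x) * T' z (i, x) ≤ |f (i, x)| * |T' z (i, x)| := by
          rw [← abs_mul]; exact le_abs_self _
        have a3 : |f (i, x)| ≤ max (|f (i, x)| - K) 0 + K := by
          linarith [le_max_left (|f (i, x)| - K) 0]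
        have a4 : K * |T' z (i, x)| ≤ η + K ^ 2 / (4 * η) * (T' z (i, x) * T' z (i, x)) := by
          rw [← abs_mul_abs_self (T' z (i, x))]
          have : K ^ 2 / (4 * η) * (|T' z (i, x)| * |T' z (i, x)|) =
              (K * |T' z (i, x)|) ^ 2 / (4 * η) := by ring
          rw [this, ← sub_le_iff_le_add', le_div_iff₀ (by positivity)]
          nlinarith [sq_nonneg (K * |T' z (i, x)| - 2 * η)]
        have a5 := le_max_right (|f (i, x)| - K) 0
        have a6 := abs_nonneg (T' z (i, x))
        have a7 := mul_le_mul_of_nonneg_right a3 a6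
        have a8 : max (|f (i, x)| - K) 0 * |T' z (i, x)| ≤ max (|f (i, x)| - K) 0 * (C * 7 + 1) :=
          mul_le_mul_of_nonneg_left (by linarith) a5
        rw [add_mul] at a7
        simp only
        linarith
      have e6 := Finset.sum_le_sum fun i (_ : i ∈ Finset.univ) => e4 i
      simp only [Finset.sum_add_distrib, ← Finset.mul_sum, Finset.sum_const, Finset.card_univ,
        nsmul_eq_mul] at e6
      exact e6
    have e7 : (C * 7 + 1) * ∑ i, ∫ x, max (|f (i, x)| - K) 0 ∂μ ≤ η := by
      rwa [le_div_iff₀' (by positivity)] at hK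
    have e8 : K ^ 2 / (4 * η) * gp μ (T' z) (T' z) ≤ η := by
      have a1 : l * gp μ (T' z) (T' z) ≤ 6 * (m + 1) := by linarith
      rw [hldef, div_mul_eq_mul_div, div_le_iff₀ (by positivity)] at a1
      rw [div_mul_eq_mul_div, div_le_iff₀ (by positivity)]
      have a2 : (m + 1) * (K ^ 2 * gp μ (T' z) (T' z)) ≤ (m + 1) * (3 * η ^ 2) := by linarith
      have a3 := le_of_mul_le_mul_left a2 (by positivity)
      have a4 : η ^ 2 = η * η := sq η
      have a5 := mul_self_nonneg η
      linarith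
    linarith
  have a9 : (20 + 3 * m) * η = 20 * η + 3 * (m * η) := by ring
  have a10 := mul_nonneg hm0 hη.le
  linarith

theorem rigid [DecidableEq I] [IsProbabilityMeasure μ] (hμ : MP Γ μ) {F : MeasurableSpace X}
    {G : ℝ → MeasurableSpace X} {τ ξ g D : I × X → ℝ} (hs : Setup Γ μ F G τ ξ g D)
    (hτ : ∀ p, 0 ≤ τ p ∧ τ p < 1)
    (hsep : ∀ᵐ y ∂μ, ∀ (γ : Γ) i k, (k, γ • y) ≠ (i, y) → τ (k, γ • y) ≠ τ (i, y))
    (S : Finset I) (f : I × X → ℝ) (hf : ∀ i, Integrable (fun x => f (i, x)) μ)
    (happ : ∀ η : ℝ, 0 < η → ∃ T : Op I X, Nice Γ F T ∧ T * mulOp (indS S) = T ∧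
      ∑ i, ∫ x, |ξ (i, x) - T f (i, x)| ∂μ ≤ η) :
    ∑ i, ∫ x, D (i, x) ∂μ ≤ 2 * S.card := by
  have h : 5 / 8 * ∑ i, ∫ x, D (i, x) ∂μ ≤ S.card := by
    refine le_of_forall_pos_le_add fun ε hε => ?_
    set c : ℝ := 20 + 3 * (Fintype.card I : ℝ) with hc
    have hc0 : 0 < c := by positivity
    have hη : 0 < min 1 (ε / c) := lt_min one_pos (by positivity)
    obtain ⟨T, hT, hQ, hTa⟩ := happ _ hη
    have h1 := rigid_aux hμ hs hτ hsep S f hf hη (min_le_left _ _) hT hQ hTa
    have h2 : c * min 1 (ε / c) ≤ ε := by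
      calc c * min 1 (ε / c) ≤ c * (ε / c) := mul_le_mul_of_nonneg_left (min_le_right _ _) hc0.le
        _ = ε := by field_simp
    linarith
  have : (0 : ℝ) ≤ S.card := Nat.cast_nonneg _
  linarith

end Pool.Agent.Lib.MP_d3f853_an
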