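import Mathlib
import Pool.Agent.Lib.MP_d3f853_an.Rigid

namespace Pool.Agent.Lib.MP_d3f853_an

open Function MeasureTheory Filter Topology MeasurableSpace
open scoped Pointwise

variable {Γ X I : Type*} [Group Γ] [MulAction Γ X]

theorem trace_set {F G : MeasurableSpace X} {C : Set (Set X)} {E : Set X}
    (hE : MeasurableSet[G] E) (hF : F ≤ G) (hC : ∀ s ∈ C, MeasurableSet[G] (s ∩ E)) {s : Set X}
    (hs : MeasurableSet[F ⊔ generateFrom C] s) : MeasurableSet[G] (s ∩ E) := by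
  let G3 : MeasurableSpace X :=
    { MeasurableSet' := fun s => MeasurableSet[G] (s ∩ E)
      measurableSet_empty := by simp
      measurableSet_compl := fun s hs => by
        have : sᶜ ∩ E = E \ (s ∩ E) := by ext x; simp; tauto
        rw [this]; exact hE.diff hs
      measurableSet_iUnion := fun f hf => by
        rw [Set.iUnion_inter]; exact MeasurableSet.iUnion hf }
  have : F ⊔ generateFrom C ≤ G3 :=
    sup_le (fun s hs => (hF s hs).inter hE) (generateFrom_le hC)
  exact this s hs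

theorem trace_fun {G1 G : MeasurableSpace X} {P : X → Prop} [DecidablePred P]
    (hE : MeasurableSet[G] {x | P x})
    (h : ∀ s, MeasurableSet[G1] s → MeasurableSet[G] (s ∩ {x | P x}))
    {f : X → ℝ} (hf : Measurable[G1] f) : Measurable[G] fun x => if P x then f x else 0 := by
  classical
  intro s hs
  have : (fun x => if P x then f x else 0) ⁻¹' s =
      (f ⁻¹' s ∩ {x | P x}) ∪ (if (0 : ℝ) ∈ s then {x | P x}ᶜ else ∅) := by
    ext x
    by_cases h1 : P x <;> by_cases h2 : (0 : ℝ) ∈ s <;> simp [h1, h2]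
  rw [this]
  refine (h _ (hf hs)).union ?_
  split_ifs
  · exact hE.compl
  · exact @MeasurableSet.empty _ G

set_option warn.classDefReducibility false

variable (Γ) in
/-- Information revealed before time `u`. -/
def Gu (F : MeasurableSpace X) (τ : I × X → ℝ) (B : I → Set X) (u : ℝ) : MeasurableSpace X :=
  F ⊔ generateFrom {s | ∃ (γ : Γ) (k : I), s = {x | γ • x ∈ B k ∧ τ (k, γ • x) < u}}

variable (Γ) in
/-- The past of the step `i`. -/
def Past (F : MeasurableSpace X) (τ : I × X → ℝ) (B : I → Set X) (r : ℝ → ℝ → Prop) (i : I) :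
    MeasurableSpace X :=
  F ⊔ generateFrom {s | ∃ (γ : Γ) (k : I), s = {x | γ • x ∈ B k ∧ r (τ (k, γ • x)) (τ (i, x))}}

/-- Discretised order. -/
def rn (n : ℕ) (a b : ℝ) : Prop := ∃ j : ℕ, a < j / 2 ^ n ∧ j / 2 ^ n ≤ b

theorem rn_succ {n : ℕ} {a b : ℝ} (h : rn n a b) : rn (n + 1) a b := by
  obtain ⟨j, h1, h2⟩ := h
  have : ((2 * j : ℕ) : ℝ) / 2 ^ (n + 1) = j / 2 ^ n := by push_cast; field_simp; ring
  exact ⟨2 * j, this ▸ h1, this ▸ h2⟩

theorem rn_lt {n : ℕ} {a b : ℝ} (h : rn n a b) : a < b := by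
  obtain ⟨j, h1, h2⟩ := h
  exact h1.trans_le h2

theorem exists_rn {a b : ℝ} (ha : 0 ≤ a) (h : a < b) : ∃ n, rn n a b := by
  obtain ⟨n, hn⟩ := exists_pow_lt_of_lt_one (sub_pos.2 h) (show (1 / 2 : ℝ) < 1 by norm_num)
  have h2 : (0 : ℝ) < 2 ^ n := by positivity
  refine ⟨n, ⌊a * 2 ^ n⌋₊ + 1, ?_, ?_⟩
  · rw [lt_div_iff₀ h2]; push_cast; exact Nat.lt_floor_add_one _
  · rw [div_le_iff₀ h2]; push_cast
    have h3 := Nat.floor_le (mul_nonneg ha h2.le)
    rw [one_div, inv_pow, inv_lt_iff_one_lt_mul₀ h2] at hn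
    nlinarith

variable {F : MeasurableSpace X} {τ : I × X → ℝ} {B : I → Set X}

theorem measurableSet_rn (hF : Inv Γ F) (hτ : ∀ i, Measurable[F] fun x => τ (i, x)) (n : ℕ) (γ : Γ)
    (k i : I) : MeasurableSet[F] {x | rn n (τ (k, γ • x)) (τ (i, x))} := by
  simp only [rn, Set.ofPred_exists]
  exact MeasurableSet.iUnion fun j =>
    (measurableSet_lt ((hτ k).comp (hF γ)) measurable_const).inter
      (measurableSet_le measurable_const (hτ i))

theorem measurableSet_Gu (u : ℝ) (γ : Γ) (k : I) :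
    MeasurableSet[Gu Γ F τ B u] {x | γ • x ∈ B k ∧ τ (k, γ • x) < u} :=
  (le_sup_right : _ ≤ Gu Γ F τ B u) _ (measurableSet_generateFrom ⟨γ, k, rfl⟩)

theorem measurableSet_Past (r : ℝ → ℝ → Prop) (i : I) (γ : Γ) (k : I) :
    MeasurableSet[Past Γ F τ B r i] {x | γ • x ∈ B k ∧ r (τ (k, γ • x)) (τ (i, x))} :=
  (le_sup_right : _ ≤ Past Γ F τ B r i) _ (measurableSet_generateFrom ⟨γ, k, rfl⟩)

theorem le_Gu (u : ℝ) : F ≤ Gu Γ F τ B u := le_sup_left

theorem le_Past (r : ℝ → ℝ → Prop) (i : I) : F ≤ Past Γ F τ B r i := le_sup_left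

theorem Gu_le {H : MeasurableSpace X} (hH : Inv Γ H) (hFH : F ≤ H) {u : ℝ}
    (h : ∀ k, MeasurableSet[H] {x | x ∈ B k ∧ τ (k, x) < u}) : Gu Γ F τ B u ≤ H := by
  refine sup_le hFH (generateFrom_le ?_)
  rintro _ ⟨γ, k, rfl⟩
  exact hH γ (h k)

theorem inv_Gu (hF : Inv Γ F) (u : ℝ) : Inv Γ (Gu Γ F τ B u) := by
  intro γ
  rw [measurable_iff_comap_le]
  unfold Gu
  rw [MeasurableSpace.comap_sup]
  refine sup_le ((hF γ).comap_le.trans le_sup_left) ?_
  rw [comap_generateFrom]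
  refine generateFrom_le ?_
  rintro _ ⟨_, ⟨γ', k, rfl⟩, rfl⟩
  have := measurableSet_Gu (F := F) (τ := τ) (B := B) u (γ' * γ) k
  simp only [mul_smul] at this
  exact this

theorem mono_Gu (hF : Inv Γ F) (hτ : ∀ i, Measurable[F] fun x => τ (i, x)) :
    Monotone (Gu Γ F τ B) := by
  intro u u' h
  refine Gu_le (inv_Gu hF u') (le_Gu u') fun k => ?_
  have h1 := measurableSet_Gu (F := F) (τ := τ) (B := B) u' (1 : Γ) k
  simp only [one_smul] at h1
  have h2 : MeasurableSet[Gu Γ F τ B u'] {x | τ (k, x) < u} :=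
    le_Gu u' _ (measurableSet_lt (hτ k) measurable_const)
  convert h1.inter h2 using 1
  ext x
  simp only [Set.mem_ofPred_eq, Set.mem_inter_iff]
  exact ⟨fun h' => ⟨⟨h'.1, h'.2.trans_le h⟩, h'.2⟩, fun h' => ⟨h'.1.1, h'.2⟩⟩

theorem Past_le {H : MeasurableSpace X} (hH : Inv Γ H) (hFH : F ≤ H)
    (h : ∀ k, MeasurableSet[H] (B k)) {r : ℝ → ℝ → Prop} {i : I}
    (hr : ∀ (γ : Γ) k, MeasurableSet[F] {x | r (τ (k, γ • x)) (τ (i, x))}) :
    Past Γ F τ B r i ≤ H := by
  refine sup_le hFH (generateFrom_le ?_)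
  rintro _ ⟨γ, k, rfl⟩
  exact (hH γ (h k)).inter (hFH _ (hr γ k))

theorem Past_mono {r r' : ℝ → ℝ → Prop} (hrr : ∀ a b, r a b → r' a b) {i : I}
    (hr : ∀ (γ : Γ) k, MeasurableSet[F] {x | r (τ (k, γ • x)) (τ (i, x))}) :
    Past Γ F τ B r i ≤ Past Γ F τ B r' i := by
  refine sup_le (le_Past _ _) (generateFrom_le ?_)
  rintro _ ⟨γ, k, rfl⟩
  convert (measurableSet_Past (F := F) (τ := τ) (B := B) r' i γ k).inter
    (le_Past r' i _ (hr γ k)) using 1
  ext x
  simp only [Set.mem_ofPred_eq, Set.mem_inter_iff]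
  exact ⟨fun h' => ⟨⟨h'.1, hrr _ _ h'.2⟩, h'.2⟩, fun h' => ⟨h'.1.1, h'.2⟩⟩

theorem iSup_Past (hF : Inv Γ F) (hτ : ∀ i, Measurable[F] fun x => τ (i, x))
    (h0 : ∀ p, 0 ≤ τ p) (i : I) :
    ⨆ n, Past Γ F τ B (rn n) i = Past Γ F τ B (· < ·) i := by
  refine le_antisymm (iSup_le fun n => Past_mono (fun _ _ => rn_lt)
    fun γ k => measurableSet_rn hF hτ n γ k i) ?_
  refine sup_le ((le_Past (rn 0) i).trans (le_iSup (fun n => Past Γ F τ B (rn n) i) 0))
    (generateFrom_le ?_)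
  rintro _ ⟨γ, k, rfl⟩
  have : {x | γ • x ∈ B k ∧ τ (k, γ • x) < τ (i, x)} =
      ⋃ n, {x | γ • x ∈ B k ∧ rn n (τ (k, γ • x)) (τ (i, x))} := by
    ext x
    simp only [Set.mem_ofPred_eq, Set.mem_iUnion]
    constructor
    · rintro ⟨h1, h2⟩
      obtain ⟨n, hn⟩ := exists_rn (h0 _) h2
      exact ⟨n, h1, hn⟩
    · rintro ⟨n, h1, h2⟩
      exact ⟨h1, rn_lt h2⟩
  rw [this]
  exact MeasurableSet.iUnion fun n =>
    le_iSup (fun n => Past Γ F τ B (rn n) i) n _ (measurableSet_Past _ _ _ _)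

theorem past_trace_Gu (hF : Inv Γ F) (hτ : ∀ i, Measurable[F] fun x => τ (i, x)) (u : ℝ) (i : I)
    {s : Set X} (hs : MeasurableSet[Past Γ F τ B (· < ·) i] s) :
    MeasurableSet[Gu Γ F τ B u] (s ∩ {x | τ (i, x) < u}) := by
  have hE : MeasurableSet[Gu Γ F τ B u] {x | τ (i, x) < u} :=
    le_Gu u _ (measurableSet_lt (hτ i) measurable_const)
  refine trace_set hE (le_Gu u) ?_ hs
  rintro _ ⟨γ, k, rfl⟩
  convert ((measurableSet_Gu (F := F) (τ := τ) (B := B) u γ k).inter
    (le_Gu u _ (measurableSet_lt ((hτ k).comp (hF γ)) (hτ i)))).inter hE using 1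
  ext x
  simp only [Set.mem_ofPred_eq, Set.mem_inter_iff, comp_apply]
  exact ⟨fun h => ⟨⟨⟨h.1.1, h.1.2.trans h.2⟩, h.1.2⟩, h.2⟩, fun h => ⟨⟨h.1.1.1, h.1.2⟩, h.2⟩⟩

theorem Gu_trace_past (hF : Inv Γ F) (hτ : ∀ i, Measurable[F] fun x => τ (i, x)) (u : ℝ) (i : I)
    {s : Set X} (hs : MeasurableSet[Gu Γ F τ B u] s) :
    MeasurableSet[Past Γ F τ B (· < ·) i] (s ∩ {x | u ≤ τ (i, x)}) := by
  have hE : MeasurableSet[Past Γ F τ B (· < ·) i] {x | u ≤ τ (i, x)} :=
    le_Past _ i _ (measurableSet_le measurable_const (hτ i))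
  refine trace_set hE (le_Past _ i) ?_ hs
  rintro _ ⟨γ, k, rfl⟩
  convert ((measurableSet_Past (F := F) (τ := τ) (B := B) (· < ·) i γ k).inter
    (le_Past _ i _ (measurableSet_lt ((hτ k).comp (hF γ)) (measurable_const (a := u))))).inter hE
    using 1
  ext x
  simp only [Set.mem_ofPred_eq, Set.mem_inter_iff, comp_apply]
  exact ⟨fun h => ⟨⟨⟨h.1.1, h.1.2.trans_le h.2⟩, h.1.2⟩, h.2⟩, fun h => ⟨⟨h.1.1.1, h.1.2⟩, h.2⟩⟩

theorem pastn_trace_Gu (hF : Inv Γ F) (hτ : ∀ i, Measurable[F] fun x => τ (i, x)) (n j : ℕ) (i : I)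
    {s : Set X} (hs : MeasurableSet[Past Γ F τ B (rn n) i] s) :
    MeasurableSet[Gu Γ F τ B (j / 2 ^ n)] (s ∩ {x | τ (i, x) < ((j + 1 : ℕ) : ℝ) / 2 ^ n}) := by
  have hE : MeasurableSet[Gu Γ F τ B (j / 2 ^ n)] {x | τ (i, x) < ((j + 1 : ℕ) : ℝ) / 2 ^ n} :=
    le_Gu _ _ (measurableSet_lt (hτ i) measurable_const)
  refine trace_set hE (le_Gu _) ?_ hs
  rintro _ ⟨γ, k, rfl⟩
  convert ((measurableSet_Gu (F := F) (τ := τ) (B := B) (j / 2 ^ n) γ k).inter
    (le_Gu _ _ (measurableSet_rn hF hτ n γ k i))).inter hE using 1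
  ext x
  simp only [Set.mem_ofPred_eq, Set.mem_inter_iff]
  refine ⟨fun h => ⟨⟨⟨h.1.1, ?_⟩, h.1.2⟩, h.2⟩, fun h => ⟨⟨h.1.1.1, h.1.2⟩, h.2⟩⟩
  obtain ⟨j', h1, h2⟩ := h.1.2
  have h3 := h2.trans_lt h.2
  rw [div_lt_div_iff_of_pos_right (by positivity), Nat.cast_lt] at h3
  refine h1.trans_le ?_
  gcongr
  exact_mod_cast Nat.lt_succ_iff.1 h3

variable {mX : MeasurableSpace X} {μ : Measure X}

theorem integral_mul_sub_condExp [IsFiniteMeasure μ] {P : MeasurableSpace X} (hP : P ≤ mX)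
    {b h : X → ℝ} (hb : Integrable b μ) (hh : Measurable[P] h) (hhb : Bdd h) :
    ∫ x, h x * (b x - (μ[b | P]) x) ∂μ = 0 := by
  obtain ⟨A, hA⟩ := hhb
  have hm : AEStronglyMeasurable[mX] h μ := (hh.mono hP le_rfl).aestronglyMeasurable
  have i1 : Integrable (fun x => h x * b x) μ := hb.bdd_mul hm (ae_of_all _ hA)
  have i2 : Integrable (fun x => h x * (μ[b | P]) x) μ :=
    integrable_condExp.bdd_mul hm (ae_of_all _ hA)
  simp only [mul_sub]
  rw [integral_sub i1 i2, sub_eq_zero, ← integral_condExp hP (f := fun x => h x * b x)]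
  exact integral_congr_ae (condExp_mul_of_stronglyMeasurable_left hh.stronglyMeasurable i1 hb)

theorem D_bound [Fintype I] [DecidableEq I] [IsProbabilityMeasure μ] (hμ : MP Γ μ)
    (hF : Inv Γ F) (hFm : F ≤ mX) (hfix : ∀ γ : Γ, MeasurableSet[F] {x : X | γ • x = x})
    (hτ : ∀ i, Measurable[F] fun x => τ (i, x)) (hτ01 : ∀ p, 0 ≤ τ p ∧ τ p < 1)
    (hsep : ∀ᵐ y ∂μ, ∀ (γ : Γ) i k, (k, γ • y) ≠ (i, y) → τ (k, γ • y) ≠ τ (i, y))
    (hB : ∀ i, MeasurableSet[mX] (B i)) (S : Finset I) (f : I × X → ℝ)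
    (hf : ∀ i, Integrable (fun x => f (i, x)) μ)
    (happ : ∀ ξ : I × X → ℝ, BM mX ξ → ∀ η : ℝ, 0 < η → ∃ T : Op I X, Nice Γ F T ∧
      T * mulOp (indS S) = T ∧ ∑ i, ∫ x, |ξ (i, x) - T f (i, x)| ∂μ ≤ η)
    {θ : ℝ} (hθ : 0 < θ) :
    ∑ i, μ.real {x | θ ≤ (μ[(B i).indicator fun _ => (1 : ℝ) | Past Γ F τ B (· < ·) i]) x ∧
      (μ[(B i).indicator fun _ => (1 : ℝ) | Past Γ F τ B (· < ·) i]) x ≤ 1 - θ} ≤ 2 * S.card := by
  classical
  set P : I → MeasurableSpace X := fun i => Past Γ F τ B (· < ·) i with hP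
  have hPm : ∀ i, P i ≤ mX := fun i => Past_le hμ.inv hFm hB fun γ k =>
    measurableSet_lt ((hτ k).comp (hF γ)) (hτ i)
  set b : I → X → ℝ := fun i => (B i).indicator fun _ => (1 : ℝ) with hb
  have hbm : ∀ i, Measurable[mX] (b i) := fun i => measurable_const.indicator (hB i)
  have hb01 : ∀ i x, b i x = 0 ∨ b i x = 1 := fun i x => by
    by_cases h : x ∈ B i <;> simp [hb, h]
  have hbi : ∀ i, Integrable (b i) μ := fun i => (integrable_const 1).indicator (hB i)
  set p : I → X → ℝ := fun i => μ[b i | P i] with hp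
  have hpm : ∀ i, Measurable[P i] (p i) := fun i => stronglyMeasurable_condExp.measurable
  let dd : ℝ → ℝ := fun t => if θ ≤ t ∧ t ≤ 1 - θ then 1 else 0
  have hddm : Measurable dd := Measurable.ite measurableSet_Icc measurable_const measurable_const
  let ee : ℝ → ℝ := fun t => dd t / (t * (1 - t))
  have heem : Measurable ee := hddm.div (measurable_id.mul (measurable_const.sub measurable_id))
  have hdd0 : ∀ t, 0 ≤ dd t := fun t => by simp only [dd]; split_ifs <;> simp
  have hdd1 : ∀ t, dd t ≤ 1 := fun t => by simp only [dd]; split_ifs <;> simp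
  have hddb : Bdd dd := ⟨1, fun t => by rw [abs_of_nonneg (hdd0 t)]; exact hdd1 t⟩
  have heeb : Bdd ee := by
    refine ⟨1 / (θ * θ), fun t => ?_⟩
    simp only [ee, dd]
    split_ifs with h
    · have h1 : θ * θ ≤ t * (1 - t) := mul_le_mul h.1 (by linarith [h.2]) hθ.le (hθ.le.trans h.1)
      have h2 : 0 < θ * θ := by positivity
      rw [abs_of_pos (div_pos one_pos (h2.trans_le h1))]
      exact one_div_le_one_div_of_le h2 h1
    · simp only [zero_div, abs_zero]; positivity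
  have hgb : ∀ i x, |dd (p i x) * (b i x - p i x)| ≤ 1 := by
    intro i x
    simp only [dd]
    split_ifs with h
    · rw [one_mul, abs_le]
      rcases hb01 i x with h' | h' <;> rw [h'] <;> constructor <;> linarith [h.1, h.2]
    · simp
  have hdd2 : ∀ t, dd t * dd t = dd t := fun t => by simp only [dd]; split_ifs <;> simp
  have hde : ∀ t, ee t * dd t = ee t := fun t => by
    simp only [ee]; rw [div_mul_eq_mul_div, hdd2]
  have hξb : Bdd fun q : I × X => ee (p q.1 q.2) * (b q.1 q.2 - p q.1 q.2) := by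
    have : (fun q : I × X => ee (p q.1 q.2) * (b q.1 q.2 - p q.1 q.2)) =
        fun q : I × X => ee (p q.1 q.2) * (dd (p q.1 q.2) * (b q.1 q.2 - p q.1 q.2)) := by
      ext q; rw [← mul_assoc, hde]
    rw [this]
    exact (heeb.comp _).mul ⟨1, fun q => hgb _ _⟩
  have hpX : ∀ i, Measurable[mX] (p i) := fun i => (hpm i).mono (hPm i) le_rfl
  have hadapt : ∀ (φ : ℝ → ℝ), Measurable φ → ∀ u i, Measurable[Gu Γ F τ B u]
      fun x => if τ (i, x) < u then φ (p i x) * (b i x - p i x) else 0 := by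
    intro φ hφ u i
    have hE : MeasurableSet[Gu Γ F τ B u] {x | τ (i, x) < u} :=
      le_Gu u _ (measurableSet_lt (hτ i) measurable_const)
    have h1 : Measurable[Gu Γ F τ B u] fun x => if τ (i, x) < u then p i x else 0 :=
      trace_fun hE (fun s hs => past_trace_Gu hF hτ u i hs) (hpm i)
    have h2 : Measurable[Gu Γ F τ B u] fun x => if τ (i, x) < u then b i x else 0 := by
      have h3 := measurableSet_Gu (F := F) (τ := τ) (B := B) u (1 : Γ) i
      simp only [one_smul] at h3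
      convert (measurable_const (a := (1 : ℝ))).indicator h3 using 1
      ext x
      by_cases a1 : τ (i, x) < u <;> by_cases a2 : x ∈ B i <;> simp [hb, a1, a2]
    have h4 : Measurable[Gu Γ F τ B u] fun x => if τ (i, x) < u then
        φ (if τ (i, x) < u then p i x else 0) * ((if τ (i, x) < u then b i x else 0) -
          (if τ (i, x) < u then p i x else 0)) else 0 :=
      Measurable.ite hE ((hφ.comp h1).mul (h2.sub h1)) measurable_const
    convert h4 using 1
    ext x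
    split_ifs with h <;> rfl
  have hpast : ∀ u i (h : X → ℝ), Measurable[Gu Γ F τ B u] h → (∀ x, h x ≠ 0 → u ≤ τ (i, x)) →
      Measurable[P i] h := by
    intro u i h hh h0
    have hE : MeasurableSet[P i] {x | u ≤ τ (i, x)} :=
      le_Past _ i _ (measurableSet_le measurable_const (hτ i))
    convert trace_fun hE (fun s hs => Gu_trace_past hF hτ u i hs) hh using 1
    ext x
    split_ifs with h1
    · rfl
    · by_contra h2; exact h1 (h0 x h2)
  have horth : ∀ (φ : ℝ → ℝ), Measurable φ → Bdd φ → ∀ u i (h : X → ℝ),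
      Measurable[Gu Γ F τ B u] h → Bdd h → (∀ x, h x ≠ 0 → u ≤ τ (i, x)) →
      ∫ x, h x * (φ (p i x) * (b i x - p i x)) ∂μ = 0 := by
    intro φ hφ hφb u i h hh hhb h0
    simp only [← mul_assoc]
    exact integral_mul_sub_condExp (hPm i) (hbi i) ((hpast u i h hh h0).mul (hφ.comp (hpm i)))
      (hhb.mul (hφb.comp _))
  have hs : Setup Γ μ F (Gu Γ F τ B) τ (fun q => ee (p q.1 q.2) * (b q.1 q.2 - p q.1 q.2))
      (fun q => dd (p q.1 q.2) * (b q.1 q.2 - p q.1 q.2)) (fun q => dd (p q.1 q.2)) :=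
    { hFG := le_Gu
      hGm := fun u => Gu_le hμ.inv hFm fun k =>
        (hB k).inter (hFm _ (measurableSet_lt (hτ k) measurable_const))
      mono := mono_Gu hF hτ
      invG := inv_Gu hF
      invF := hF
      fix := hfix
      τm := hτ
      ξb := hξb
      gb := fun q => hgb _ _
      ξm := fun i => (heem.comp (hpX i)).mul ((hbm i).sub (hpX i))
      Dm := fun i => hddm.comp (hpX i)
      D0 := fun q => hdd0 _
      D1 := fun q => hdd1 _
      gD := fun q => by
        have h1 := hgb q.1 q.2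
        have h2 : dd (p q.1 q.2) * (b q.1 q.2 - p q.1 q.2) *
            (dd (p q.1 q.2) * (b q.1 q.2 - p q.1 q.2)) ≤ 1 := by
          rw [← abs_mul_abs_self]
          exact mul_le_one₀ h1 (abs_nonneg _) h1
        simp only [dd] at h2 ⊢
        split_ifs at h2 ⊢
        · exact h2
        · simp
      ξa := hadapt ee heem
      ga := hadapt dd hddm
      oξ := horth ee heem heeb
      og := horth dd hddm hddb
      oξg := by
        intro u i h hh hhb h0
        have hφb : Bdd fun t => ee t * (dd t * (1 - 2 * t)) := by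
          refine heeb.mul ⟨1, fun t => ?_⟩
          simp only [dd]
          split_ifs with h
          · rw [one_mul, abs_le]; constructor <;> linarith [h.1, h.2]
          · simp
        have h1 := horth (fun t => ee t * (dd t * (1 - 2 * t)))
          (heem.mul (hddm.mul (measurable_const.sub (measurable_id.const_mul 2)))) hφb u i h hh hhb h0
        have hhX : Measurable[mX] h := (hpast u i h hh h0).mono (hPm i) le_rfl
        have i1 : Integrable (fun x => h x * dd (p i x)) μ :=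
          (hhb.mul (hddb.comp _)).integrable (hhX.mul (hddm.comp (hpX i)))
        have i2 : Integrable (fun x => h x * (ee (p i x) * (b i x - p i x) *
            (dd (p i x) * (b i x - p i x)))) μ :=
          (hhb.mul ((hξb.comp fun x => (i, x)).mul ⟨1, fun x => hgb i x⟩)).integrable
            (hhX.mul (((heem.comp (hpX i)).mul ((hbm i).sub (hpX i))).mul
              ((hddm.comp (hpX i)).mul ((hbm i).sub (hpX i)))))
        rw [← sub_eq_zero, ← integral_sub i2 i1, ← h1]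
        congr 1; ext x
        simp only [ee, dd]
        split_ifs with h2
        · have h3 : p i x ≠ 0 := (hθ.trans_le h2.1).ne'
          have h4 : 1 - p i x ≠ 0 := by linarith [h2.2]
          rcases hb01 i x with h' | h' <;> rw [h'] <;> field_simp <;> ring
        · simp }
  have := rigid hμ hs hτ01 hsep S f hf (happ _ ⟨hs.ξm, hξb⟩)
  convert this using 2 with i
  refine (integral_indicator_one (measurableSet_Icc.preimage (hpX i))).symm.trans ?_
  congr 1; ext x
  simp only [dd, Set.indicator, Set.mem_preimage, Set.mem_Icc, Pi.one_apply]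

end Pool.Agent.Lib.MP_d3f853_an
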