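import Mathlib
import Pool.Agent.Lib.MP_d3f853_an.Past
import Pool.Agent.Lib.MP_d3f853_an.Cheap

namespace Pool.Agent.Lib.MP_d3f853_an

open Function MeasureTheory Filter Topology MeasurableSpace
open scoped Pointwise ENNReal

variable {Γ X : Type*} [Group Γ] [MulAction Γ X] {F : MeasurableSpace X}
  {mX : MeasurableSpace X} {μ : Measure X}

theorem setIntegral_condExp_ind [IsFiniteMeasure μ] {P : MeasurableSpace X} (hP : P ≤ mX)
    {B E : Set X} (hB : MeasurableSet[mX] B) (hE : MeasurableSet[P] E) :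
    ∫ x in E, (μ[B.indicator fun _ => (1 : ℝ) | P]) x ∂μ = μ.real (E ∩ B) := by
  rw [setIntegral_condExp hP ((integrable_const 1).indicator hB) hE, setIntegral_indicator hB]
  simp

theorem measurable_rank {I : Type*} [Fintype I] {H : MeasurableSpace X} {P : I → X → Prop}
    [∀ k x, Decidable (P k x)] (h : ∀ k, MeasurableSet[H] {x | P k x}) :
    Measurable[H] fun x => (Finset.univ.filter fun k => P k x).card := by
  simp only [Finset.card_filter]
  exact Finset.measurable_sum _ fun k _ => Measurable.ite (h k) measurable_const measurable_const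

theorem encode [IsProbabilityMeasure μ] (hμ : MP Γ μ) (hF : Inv Γ F) (hFm : F ≤ mX)
    (hfix : ∀ γ : Γ, MeasurableSet[F] {x : X | γ • x = x}) (m : ℕ) {ε : ℝ≥0∞} (hε : 0 < ε) :
    ∃ η : ℝ, 0 < η ∧ ∀ (I : Type) [Fintype I] [DecidableEq I] (τ : I × X → ℝ) (B : I → Set X)
      (S : Finset I) (f : I × X → ℝ), S.card ≤ m →
      (∀ i, Measurable[F] fun x => τ (i, x)) → (∀ p, 0 ≤ τ p ∧ τ p < 1) →
      (∀ x i k, i ≠ k → τ (i, x) ≠ τ (k, x)) →
      (∀ᵐ y ∂μ, ∀ (γ : Γ) i k, (k, γ • y) ≠ (i, y) → τ (k, γ • y) ≠ τ (i, y)) →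
      (∀ i, MeasurableSet[mX] (B i)) → Pairwise (Disjoint on B) → ∑ i, μ.real (B i) ≤ η →
      (∀ i, Integrable (fun x => f (i, x)) μ) →
      (∀ ξ : I × X → ℝ, BM mX ξ → ∀ η : ℝ, 0 < η → ∃ T : Op I X, Nice Γ F T ∧
        T * mulOp (indS S) = T ∧ ∑ i, ∫ x, |ξ (i, x) - T f (i, x)| ∂μ ≤ η) →
      ∃ 𝓦, Cheap μ ε 𝓦 ∧ ∀ H : MeasurableSpace X, Inv Γ H → F ≤ H →
        (∀ W ∈ 𝓦, MeasurableSet[H] W) → ∀ i, MeasurableSet[H] (B i) := by
  classical
  obtain ⟨e, he0, he⟩ : ∃ e : ℝ, 0 < e ∧ ENNReal.ofReal (4 * e) ≤ ε := by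
    by_cases h : ε = ⊤
    · exact ⟨1, one_pos, by simp [h]⟩
    · refine ⟨ε.toReal / 4, by have := ENNReal.toReal_pos hε.ne' h; positivity, ?_⟩
      rw [mul_div_cancel₀ _ (by norm_num), ENNReal.ofReal_toReal h]
  obtain ⟨b, hb⟩ : ∃ b : ℝ, b = e / (2 * m + 3) := ⟨_, rfl⟩
  have hb0 : 0 < b := by rw [hb]; positivity
  have hb1 : Real.exp (-b) < 1 := by rw [← Real.exp_zero]; exact Real.exp_lt_exp.2 (by linarith)
  obtain ⟨c0, hc1, hc0⟩ := ((eventually_ge_atTop (1 : ℝ)).and
    (Real.tendsto_exp_neg_atTop_nhds_zero.eventually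
      (gt_mem_nhds (mul_pos he0 (sub_pos.2 hb1))))).exists
  have hc00 : 0 < c0 := by linarith
  refine ⟨min 1 (e / c0), lt_min one_pos (by positivity), ?_⟩
  intro I _ _ τ B S f hS hτ hτ01 hτne hsep hB hdisj hBη hf happ
  obtain ⟨η', hη', hsingle⟩ := cheap_single (μ := μ)
    (ε := ENNReal.ofReal (e / (Fintype.card I + 1))) (ENNReal.ofReal_pos.2 (by positivity))
  obtain ⟨θ, hθ⟩ : ∃ θ : ℝ, θ = min (η' / 2) (1 / 2) := ⟨_, rfl⟩
  have hθ0 : 0 < θ := by rw [hθ]; exact lt_min (by positivity) (by norm_num)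
  have hθ1 : 2 * θ ≤ η' := by have := min_le_left (η' / 2) (1 / 2); rw [← hθ] at this; linarith
  have hθ2 : θ ≤ 1 / 2 := hθ ▸ min_le_right _ _
  have hD := D_bound hμ hF hFm hfix hτ hτ01 hsep hB S f hf happ hθ0
  set P : I → MeasurableSpace X := fun i => Past Γ F τ B (· < ·) i with hP
  have hPm : ∀ i, P i ≤ mX := fun i => Past_le hμ.inv hFm hB fun γ k =>
    measurableSet_lt ((hτ k).comp (hF γ)) (hτ i)
  have hPnm : ∀ n i, Past Γ F τ B (rn n) i ≤ mX := fun n i => Past_le hμ.inv hFm hB fun γ k =>
    measurableSet_rn hF hτ n γ k i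
  set p : I → X → ℝ := fun i => μ[(B i).indicator fun _ => (1 : ℝ) | P i] with hp
  set pn : ℕ → I → X → ℝ := fun n i =>
    μ[(B i).indicator fun _ => (1 : ℝ) | Past Γ F τ B (rn n) i] with hpn
  have hpm : ∀ i, Measurable[P i] (p i) := fun i => stronglyMeasurable_condExp.measurable
  have hpnm : ∀ n i, Measurable[Past Γ F τ B (rn n) i] (pn n i) := fun n i =>
    stronglyMeasurable_condExp.measurable
  obtain ⟨n, hn⟩ : ∃ n, ∑ i, μ.real {x | θ ≤ dist (pn n i x) (p i x)} ≤ 1 := by
    have h1 : ∀ i, Tendsto (fun n => μ.real {x | θ ≤ dist (pn n i x) (p i x)}) atTop (𝓝 0) := by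
      intro i
      let ℱ : Filtration ℕ mX :=
        { seq := fun n => Past Γ F τ B (rn n) i
          mono' := monotone_nat_of_le_succ fun n => Past_mono (fun _ _ => rn_succ)
            fun γ k => measurableSet_rn hF hτ n γ k i
          le' := fun n => hPnm n i }
      have h2 := tendsto_ae_condExp (μ := μ) (ℱ := ℱ) ((B i).indicator fun _ => (1 : ℝ))
      have h3 : (⨆ n, ℱ n) = P i := iSup_Past hF hτ (fun p => (hτ01 p).1) i
      rw [h3] at h2
      exact tendstoInMeasure_iff_measureReal_dist.1 (tendstoInMeasure_of_tendsto_ae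
        (fun n => ((hpnm n i).mono (hPnm n i) le_rfl).aestronglyMeasurable) h2) θ hθ0
    have h4 := tendsto_finsetSum Finset.univ fun i _ => h1 i
    simp only [Finset.sum_const_zero] at h4
    obtain ⟨n, hn⟩ := (h4.eventually (gt_mem_nhds one_pos)).exists
    exact ⟨n, hn.le⟩
  set C : I → Set X := fun i => {x | 2 * θ < pn n i x} with hC
  have hCP : ∀ i, MeasurableSet[Past Γ F τ B (rn n) i] (C i) := fun i =>
    measurableSet_lt measurable_const (hpnm n i)
  have hCm : ∀ i, MeasurableSet[mX] (C i) := fun i => hPnm n i _ (hCP i)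
  have hCsum : ∑ i, μ.real (C i) ≤ 2 * m + 3 := by
    have h1 : ∀ i, μ.real (C i) ≤ μ.real {x | θ ≤ dist (pn n i x) (p i x)} +
        μ.real {x | θ ≤ p i x ∧ p i x ≤ 1 - θ} + 2 * μ.real (B i) := by
      intro i
      have hE : MeasurableSet[P i] {x | 1 / 2 ≤ p i x} := measurableSet_le measurable_const (hpm i)
      have h2 : μ.real {x | 1 / 2 ≤ p i x} ≤ 2 * μ.real (B i) := by
        have h3 := setIntegral_condExp_ind (μ := μ) (hPm i) (hB i) hE
        have h4 := setIntegral_ge_of_const_le_real (μ := μ) (f := p i) (c := 1 / 2) (hPm i _ hE)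
          (measure_ne_top _ _) (fun x hx => hx) integrable_condExp.integrableOn
        have h5 : μ.real ({x | 1 / 2 ≤ p i x} ∩ B i) ≤ μ.real (B i) :=
          measureReal_mono Set.inter_subset_right
        change ∫ x in {x | 1 / 2 ≤ p i x}, p i x ∂μ = _ at h3
        linarith
      refine le_trans (measureReal_mono (s₂ := {x | θ ≤ dist (pn n i x) (p i x)} ∪
        {x | θ ≤ p i x ∧ p i x ≤ 1 - θ} ∪ {x | 1 / 2 ≤ p i x}) ?_) ?_
      · intro x hx
        have hx' : 2 * θ < pn n i x := hx
        by_cases a1 : θ ≤ dist (pn n i x) (p i x)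
        · exact Or.inl (Or.inl a1)
        · rw [not_le, Real.dist_eq, abs_lt] at a1
          by_cases a2 : p i x ≤ 1 - θ
          · exact Or.inl (Or.inr ⟨by linarith [a1.2], a2⟩)
          · exact Or.inr (show 1 / 2 ≤ p i x by linarith [not_le.1 a2])
      · refine (measureReal_union_le _ _).trans (add_le_add (measureReal_union_le _ _) h2)
    have h6 := Finset.sum_le_sum fun i (_ : i ∈ Finset.univ) => h1 i
    rw [Finset.sum_add_distrib, Finset.sum_add_distrib, ← Finset.mul_sum] at h6
    have h7 : (S.card : ℝ) ≤ m := by exact_mod_cast hS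
    have h8 := hBη.trans (min_le_left _ _)
    linarith
  have hexc : ∀ i, μ (B i \ C i) ≤ ENNReal.ofReal η' := by
    intro i
    have h3 := setIntegral_condExp_ind (μ := μ) (hPnm n i) (hB i) (hCP i).compl
    have h4 : ∫ x in (C i)ᶜ, pn n i x ∂μ ≤ ∫ _ in (C i)ᶜ, 2 * θ ∂μ :=
      setIntegral_mono_on integrable_condExp.integrableOn (integrable_const _).integrableOn
        (hCm i).compl fun x hx => not_lt.1 hx
    rw [setIntegral_const, smul_eq_mul] at h4
    have h5 : μ.real (C i)ᶜ ≤ 1 := measureReal_le_one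
    change ∫ x in (C i)ᶜ, pn n i x ∂μ = _ at h3
    rw [Set.sdiff_eq_compl_inter, ← ofReal_measureReal]
    apply ENNReal.ofReal_le_ofReal
    nlinarith
  set rank : I → X → ℕ := fun i x =>
    (Finset.univ.filter fun k => x ∈ C k ∧ τ (k, x) < τ (i, x)).card with hrank
  have hτX : ∀ i, Measurable[mX] fun x => τ (i, x) := fun i => (hτ i).mono hFm le_rfl
  have hrankm : ∀ i, Measurable[mX] (rank i) := fun i =>
    measurable_rank fun k => (hCm k).inter (measurableSet_lt (hτX k) (hτX i))
  set W : ℕ → Set X := fun r => ⋃ i, B i ∩ C i ∩ {x | rank i x = r} with hW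
  have hWm : ∀ r, MeasurableSet[mX] (W r) := fun r => MeasurableSet.iUnion fun i =>
    ((hB i).inter (hCm i)).inter (hrankm i (measurableSet_singleton r))
  have hcheap1 : Cheap μ (ENNReal.ofReal (3 * e)) (Set.range W) := by
    refine ⟨ℕ, inferInstance, W, fun r => c0 + b * r, hWm, fun r => by
      have : 0 ≤ b * r := by positivity
      linarith, ?_, rfl⟩
    unfold cost
    rw [ENNReal.tsum_add]
    have a1 : ∑' r : ℕ, ENNReal.ofReal (c0 + b * r) * μ (W r) ≤ ENNReal.ofReal (2 * e) := by
      have a2 : ∀ r : ℕ, ENNReal.ofReal (c0 + b * r) * μ (W r) =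
          ∫⁻ x, (W r).indicator (fun _ => ENNReal.ofReal (c0 + b * r)) x ∂μ := fun r => by
        rw [lintegral_indicator_const (hWm r)]
      simp only [a2]
      rw [← lintegral_tsum fun r => (measurable_const.indicator (hWm r)).aemeasurable]
      have a3 : ∀ x, ∑' r : ℕ, (W r).indicator (fun _ => ENNReal.ofReal (c0 + b * r)) x ≤
          ∑ i, ((B i).indicator (fun _ => ENNReal.ofReal c0) x +
            (C i).indicator (fun _ => ENNReal.ofReal b) x) := by
        intro x
        by_cases hx : ∃ i, x ∈ B i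
        · obtain ⟨i, hi⟩ := hx
          rw [tsum_eq_single (rank i x)]
          · refine (Set.indicator_le_self _ _ x).trans ?_
            rw [ENNReal.ofReal_add hc00.le (by positivity), Finset.sum_add_distrib]
            gcongr
            · refine le_trans ?_ (Finset.single_le_sum (f := fun i =>
                (B i).indicator (fun _ => ENNReal.ofReal c0) x) (fun _ _ => zero_le)
                (Finset.mem_univ i))
              rw [Set.indicator_of_mem hi]
            · rw [ENNReal.ofReal_mul hb0.le, ENNReal.ofReal_natCast, hrank]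
              simp only [Finset.card_filter, Nat.cast_sum, Finset.mul_sum]
              refine Finset.sum_le_sum fun k _ => ?_
              split_ifs with h
              · rw [Set.indicator_of_mem h.1]; simp
              · simp
          · intro r hr
            rw [Set.indicator_of_notMem]
            intro hxW
            obtain ⟨k, ⟨h1, -⟩, h2⟩ := Set.mem_iUnion.1 hxW
            have : k = i := by
              by_contra hne
              exact Set.disjoint_left.1 (hdisj hne) h1 hi
            subst this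
            exact hr h2.symm
        · rw [ENNReal.tsum_eq_zero.2]
          · exact zero_le
          · intro r
            rw [Set.indicator_of_notMem]
            intro hxW
            obtain ⟨k, ⟨h1, -⟩, -⟩ := Set.mem_iUnion.1 hxW
            exact hx ⟨k, h1⟩
      refine (lintegral_mono a3).trans ?_
      rw [lintegral_finsetSum _ (f := fun i x => (B i).indicator (fun _ => ENNReal.ofReal c0) x +
        (C i).indicator (fun _ => ENNReal.ofReal b) x)
        fun i _ => (measurable_const.indicator (hB i)).add (measurable_const.indicator (hCm i))]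
      have a4 : ∀ i, ∫⁻ x, ((B i).indicator (fun _ => ENNReal.ofReal c0) x +
          (C i).indicator (fun _ => ENNReal.ofReal b) x) ∂μ =
          ENNReal.ofReal (c0 * μ.real (B i) + b * μ.real (C i)) := by
        intro i
        rw [lintegral_add_left (measurable_const.indicator (hB i)), lintegral_indicator_const (hB i),
          lintegral_indicator_const (hCm i), ENNReal.ofReal_add (by positivity) (by positivity),
          ENNReal.ofReal_mul hc00.le, ENNReal.ofReal_mul hb0.le, ofReal_measureReal,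
          ofReal_measureReal]
      simp only [a4]
      rw [← ENNReal.ofReal_sum_of_nonneg fun i _ => by positivity]
      apply ENNReal.ofReal_le_ofReal
      rw [Finset.sum_add_distrib, ← Finset.mul_sum, ← Finset.mul_sum]
      have a5 : c0 * ∑ i, μ.real (B i) ≤ e := by
        have := hBη.trans (min_le_right _ _)
        rwa [le_div_iff₀' hc00] at this
      have a6 : b * ∑ i, μ.real (C i) ≤ e := by
        calc _ ≤ b * (2 * m + 3) := mul_le_mul_of_nonneg_left hCsum hb0.le
          _ = e := by rw [hb]; field_simp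
      linarith
    have a7 : ∑' r : ℕ, ENNReal.ofReal (Real.exp (-(c0 + b * r))) ≤ ENNReal.ofReal e := by
      have a8 : ∀ r : ℕ, Real.exp (-(c0 + b * r)) = Real.exp (-c0) * Real.exp (-b) ^ r := by
        intro r
        rw [← Real.exp_nat_mul, ← Real.exp_add]; congr 1; ring
      simp only [a8]
      have hs := summable_geometric_of_lt_one (Real.exp_pos (-b)).le hb1
      rw [← ENNReal.ofReal_tsum_of_nonneg (fun r => by positivity) (hs.mul_left _), tsum_mul_left,
        tsum_geometric_of_lt_one (Real.exp_pos (-b)).le hb1]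
      apply ENNReal.ofReal_le_ofReal
      rw [← div_eq_mul_inv, div_le_iff₀ (sub_pos.2 hb1)]
      exact hc0.le
    refine (add_le_add a1 a7).trans (le_of_eq ?_)
    rw [← ENNReal.ofReal_add (by positivity) he0.le]
    congr 1; ring
  have hcheap2 : Cheap μ (ENNReal.ofReal e) (⋃ i, {B i \ C i}) := by
    refine (Cheap.iUnion fun i => hsingle _ ((hB i).diff (hCm i)) (hexc i)).mono ?_
    rw [tsum_fintype, Finset.sum_const, Finset.card_univ, nsmul_eq_mul, ← ENNReal.ofReal_natCast,
      ← ENNReal.ofReal_mul (Nat.cast_nonneg _)]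
    apply ENNReal.ofReal_le_ofReal
    rw [← mul_div_assoc, div_le_iff₀ (by positivity)]
    nlinarith
  refine ⟨_, (hcheap1.union hcheap2).mono (le_trans (le_of_eq ?_) he), ?_⟩
  · rw [← ENNReal.ofReal_add (by positivity) he0.le]
    congr 1; ring
  intro H hH hFH hWH
  have hW1 : ∀ r, MeasurableSet[H] (W r) := fun r => hWH _ (Or.inl ⟨r, rfl⟩)
  have hW2 : ∀ i, MeasurableSet[H] (B i \ C i) := fun i =>
    hWH _ (Or.inr (Set.mem_iUnion.2 ⟨i, rfl⟩))
  have hτH : ∀ i, Measurable[H] fun x => τ (i, x) := fun i => (hτ i).mono hFH le_rfl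
  have main : ∀ j : ℕ, ∀ k, MeasurableSet[H] {x | x ∈ B k ∧ τ (k, x) < j / 2 ^ n} := by
    intro j
    induction j with
    | zero =>
      intro k
      convert @MeasurableSet.empty _ H
      ext x
      simp [(hτ01 (k, x)).1]
    | succ j ih =>
      have hGH : Gu Γ F τ B (j / 2 ^ n) ≤ H := Gu_le hH hFH ih
      set C' : I → Set X := fun k => C k ∩ {x | τ (k, x) < ((j + 1 : ℕ) : ℝ) / 2 ^ n} with hC'
      have hC'H : ∀ k, MeasurableSet[H] (C' k) := fun k =>
        hGH _ (pastn_trace_Gu hF hτ n j k (hCP k))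
      set rank' : I → X → ℕ := fun i x =>
        (Finset.univ.filter fun k => x ∈ C' k ∧ τ (k, x) < τ (i, x)).card with hrank'
      have hrank'm : ∀ i, Measurable[H] (rank' i) := fun i =>
        measurable_rank fun k => (hC'H k).inter (measurableSet_lt (hτH k) (hτH i))
      have hrr : ∀ i x, τ (i, x) < ((j + 1 : ℕ) : ℝ) / 2 ^ n → rank' i x = rank i x := by
        intro i x hx
        simp only [hrank', hrank]
        congr 1
        refine Finset.filter_congr fun k _ => ?_
        exact ⟨fun h => ⟨h.1.1, h.2⟩, fun h => ⟨⟨h.1, h.2.trans hx⟩, h.2⟩⟩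
      intro k
      have hset : {x | x ∈ B k ∧ τ (k, x) < ((j + 1 : ℕ) : ℝ) / 2 ^ n} =
          ((B k \ C k) ∩ {x | τ (k, x) < ((j + 1 : ℕ) : ℝ) / 2 ^ n}) ∪
            (C' k ∩ ⋃ r, W r ∩ {x | rank' k x = r}) := by
        ext x
        constructor
        · rintro ⟨h1, h2⟩
          by_cases h3 : x ∈ C k
          · refine Or.inr ⟨⟨h3, h2⟩, Set.mem_iUnion.2 ⟨rank k x,
              Set.mem_iUnion.2 ⟨k, ⟨h1, h3⟩, rfl⟩, hrr k x h2⟩⟩
          · exact Or.inl ⟨⟨h1, h3⟩, h2⟩
        · rintro (⟨⟨h1, -⟩, h2⟩ | ⟨⟨h1, h2⟩, h3⟩)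
          · exact ⟨h1, h2⟩
          · refine ⟨?_, h2⟩
            obtain ⟨r, h4, h5⟩ := Set.mem_iUnion.1 h3
            obtain ⟨i, ⟨h6, h7⟩, h8⟩ := Set.mem_iUnion.1 h4
            have h9 : rank k x = rank i x := ((hrr k x h2).symm.trans h5).trans h8.symm
            have key : ∀ a a' : I, x ∈ C a → τ (a, x) < τ (a', x) → rank a x < rank a' x := by
              intro a a' ha hlt
              refine Finset.card_lt_card ⟨fun k hk => ?_, fun hsub => ?_⟩
              · simp only [Finset.mem_filter, Finset.mem_univ, true_and] at hk ⊢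
                exact ⟨hk.1, hk.2.trans hlt⟩
              · have := hsub (Finset.mem_filter.2 ⟨Finset.mem_univ a, ha, hlt⟩)
                exact lt_irrefl _ (Finset.mem_filter.1 this).2.2
            by_cases hik : i = k
            · exact hik ▸ h6
            · exfalso
              rcases lt_or_gt_of_ne (hτne x i k hik) with h | h
              · exact (key i k h7 h).ne' h9
              · exact (key k i h1 h).ne h9
      rw [hset]
      exact ((hW2 k).inter (measurableSet_lt (hτH k) measurable_const)).union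
        ((hC'H k).inter (MeasurableSet.iUnion fun r =>
          (hW1 r).inter (hrank'm k (measurableSet_singleton r))))
  intro i
  convert main (2 ^ n) i using 1
  ext x
  simp [(hτ01 (i, x)).2]

end Pool.Agent.Lib.MP_d3f853_an
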