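import Mathlib
import Pool.Agent.Lib.MP_d3f853_an.Step
import Pool.Agent.Lib.MP_d3f853_an.Defs

namespace Pool.Agent.Lib.MP_d3f853_an

open Function MeasureTheory Filter Topology MeasurableSpace
open scoped Pointwise ENNReal

variable {Γ X I : Type*} [Group Γ] [MulAction Γ X] [DecidableEq I] {A : MeasurableSpace X}
  {mX : MeasurableSpace X} {μ : Measure X}

theorem exists_bdd_version {a : X → ℝ} (ha : AEStronglyMeasurable[A] a μ) {C : ℝ}
    (hC : ∀ᵐ x ∂μ, |a x| ≤ C) : ∃ b : X → ℝ, Measurable[A] b ∧ Bdd b ∧ a =ᵐ[μ] b := by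
  refine ⟨fun x => max (-C) (min C (ha.mk a x)),
    measurable_const.max (measurable_const.min ha.stronglyMeasurable_mk.measurable),
    ⟨|C|, fun x => ?_⟩, ?_⟩
  · rw [abs_le]
    constructor
    · exact le_trans (by linarith [le_abs_self C]) (le_max_left _ _)
    · exact max_le (by linarith [neg_abs_le C]) ((min_le_left _ _).trans (le_abs_self C))
  · filter_upwards [hC, ha.ae_eq_mk] with x h1 h2
    rw [← h2, min_eq_right (abs_le.1 h1).2, max_eq_right (abs_le.1 h1).1]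

variable (Γ) in
/-- The function `h` is produced in row `i` by a nice operator reading only the rows in `S`. -/
def Rep (A : MeasurableSpace X) {mX : MeasurableSpace X} (μ : Measure X) (S : Finset I)
    (u : I × X → ℝ) (i : I) (h : X → ℝ) : Prop :=
  ∃ T : Op I X, Nice Γ A T ∧ T * mulOp (indS S) = T ∧ (∀ k, k ≠ i → ∀ x, T u (k, x) = 0) ∧
    h =ᵐ[μ] fun x => T u (i, x)

variable {S : Finset I} {u : I × X → ℝ} {i : I}

theorem Rep.congr {h h' : X → ℝ} (H : Rep Γ A μ S u i h) (e : h' =ᵐ[μ] h) : Rep Γ A μ S u i h' := by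
  obtain ⟨T, h1, h2, h3, h4⟩ := H
  exact ⟨T, h1, h2, h3, e.trans h4⟩

theorem rep_zero : Rep Γ A μ S u i (fun _ => 0) :=
  ⟨0, Nice.zero, zero_mul _, fun _ _ _ => rfl, EventuallyEq.rfl⟩

theorem Rep.add {h h' : X → ℝ} (H : Rep Γ A μ S u i h) (H' : Rep Γ A μ S u i h') :
    Rep Γ A μ S u i (fun x => h x + h' x) := by
  obtain ⟨T, h1, h2, h3, h4⟩ := H
  obtain ⟨T', h1', h2', h3', h4'⟩ := H'
  refine ⟨T + T', h1.add h1', by rw [add_mul, h2, h2'], fun k hk x => ?_, ?_⟩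
  · rw [LinearMap.add_apply, Pi.add_apply, h3 k hk, h3' k hk, add_zero]
  · filter_upwards [h4, h4'] with x hx hx'
    rw [hx, hx']; rfl

theorem Rep.smul {h : X → ℝ} (H : Rep Γ A μ S u i h) (c : ℝ) :
    Rep Γ A μ S u i (fun x => c * h x) := by
  obtain ⟨T, h1, h2, h3, h4⟩ := H
  refine ⟨c • T, h1.smul c, by rw [smul_mul_assoc, h2], fun k hk x => ?_, ?_⟩
  · rw [LinearMap.smul_apply, Pi.smul_apply, h3 k hk, smul_zero]
  · filter_upwards [h4] with x hx
    rw [hx]; rfl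

theorem rep_gen {a : X → ℝ} (ha : AEStronglyMeasurable[A] a μ) {C : ℝ}
    (hC : ∀ᵐ x ∂μ, |a x| ≤ C) (γ : Γ) {k : I} (hk : k ∈ S) :
    Rep Γ A μ S u i (fun x => a x * u (k, γ⁻¹ • x)) := by
  obtain ⟨b, h1, h2, h3⟩ := exists_bdd_version ha hC
  refine ⟨gen b γ i k, Nice.gen _ _ _ _ h1 h2, ?_, fun l hl x => ?_, ?_⟩
  · ext v p
    simp only [Module.End.mul_apply, gen_apply, mulOp_apply, indS, if_pos hk, one_mul]
  · rw [gen_apply, if_neg hl]
  · filter_upwards [h3] with x hx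
    rw [gen_apply, if_pos rfl, hx]

theorem rep_of_mem_span {𝕜 : Type*} [RCLike 𝕜] {m : ℕ} (f : Fin m → Lp 𝕜 1 μ)
    (r j : Fin m → I) (hr : ∀ s, r s ∈ S) (hj : ∀ s, j s ∈ S)
    (hur : ∀ s x, u (r s, x) = RCLike.re (f s x)) (huj : ∀ s x, u (j s, x) = RCLike.im (f s x))
    {g : Lp 𝕜 1 μ} (hg : g ∈ Submodule.span 𝕜 {g : Lp 𝕜 1 μ | ∃ (a : X → 𝕜) (γ : Γ) (s : Fin m),
      AEStronglyMeasurable[A] a μ ∧ MemLp a ∞ μ ∧ g =ᵐ[μ] fun x => a x * f s (γ⁻¹ • x)}) :
    Rep Γ A μ S u i (fun x => RCLike.re (g x)) ∧ Rep Γ A μ S u i (fun x => RCLike.im (g x)) := by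
  induction hg using Submodule.span_induction with
  | mem g hg =>
    obtain ⟨a, γ, s, h1, h2, h3⟩ := hg
    have hb : ∀ᵐ x ∂μ, ‖a x‖ ≤ (eLpNorm a ∞ μ).toReal := by
      filter_upwards [ae_le_eLpNormEssSup (f := a) (μ := μ)] with x hx
      rw [← toReal_enorm, eLpNorm_exponent_top]
      exact ENNReal.toReal_mono (by simpa using h2.eLpNorm_ne_top) hx
    have hre : AEStronglyMeasurable[A] (fun x => RCLike.re (a x)) μ :=
      RCLike.continuous_re.comp_aestronglyMeasurable h1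
    have him : AEStronglyMeasurable[A] (fun x => RCLike.im (a x)) μ :=
      RCLike.continuous_im.comp_aestronglyMeasurable h1
    have hbre := hb.mono fun x hx => (RCLike.abs_re_le_norm (a x)).trans hx
    have hbim := hb.mono fun x hx => (RCLike.abs_im_le_norm (a x)).trans hx
    constructor
    · refine ((rep_gen hre hbre γ (hr s)).add ((rep_gen him hbim γ (hj s)).smul (-1))).congr ?_
      filter_upwards [h3] with x hx
      rw [hx, hur, huj, RCLike.mul_re]; ring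
    · refine ((rep_gen hre hbre γ (hj s)).add (rep_gen him hbim γ (hr s))).congr ?_
      filter_upwards [h3] with x hx
      rw [hx, hur, huj, RCLike.mul_im]
  | zero =>
    constructor
    · refine rep_zero.congr ?_
      filter_upwards [Lp.coeFn_zero 𝕜 1 μ] with x hx
      rw [hx]; simp
    · refine rep_zero.congr ?_
      filter_upwards [Lp.coeFn_zero 𝕜 1 μ] with x hx
      rw [hx]; simp
  | add g g' _ _ ih ih' =>
    constructor
    · refine (ih.1.add ih'.1).congr ?_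
      filter_upwards [Lp.coeFn_add g g'] with x hx
      rw [hx]; simp
    · refine (ih.2.add ih'.2).congr ?_
      filter_upwards [Lp.coeFn_add g g'] with x hx
      rw [hx]; simp
  | smul c g _ ih =>
    constructor
    · refine ((ih.1.smul (RCLike.re c)).add (ih.2.smul (-RCLike.im c))).congr ?_
      filter_upwards [Lp.coeFn_smul c g] with x hx
      rw [hx, Pi.smul_apply, smul_eq_mul, RCLike.mul_re]; ring
    · refine ((ih.2.smul (RCLike.re c)).add (ih.1.smul (RCLike.im c))).congr ?_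
      filter_upwards [Lp.coeFn_smul c g] with x hx
      rw [hx, Pi.smul_apply, smul_eq_mul, RCLike.mul_im]

theorem exists_rep_approx [IsProbabilityMeasure μ] (hA : A ≤ mX) {𝕜 : Type*} [RCLike 𝕜] {m : ℕ}
    (f : Fin m → Lp 𝕜 1 μ)
    (hgen : ∀ g : Lp 𝕜 1 μ, μ[g | A] =ᵐ[μ] 0 → g ∈ orbitModule Γ A f)
    (r j : Fin m → I) (o : I) (hr : ∀ s, r s ∈ S) (hj : ∀ s, j s ∈ S) (ho : o ∈ S)
    (hur : ∀ s x, u (r s, x) = RCLike.re (f s x)) (huj : ∀ s x, u (j s, x) = RCLike.im (f s x))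
    (huo : ∀ x, u (o, x) = 1) {ξ : X → ℝ} (hξ : Measurable ξ) (hb : Bdd ξ) {η : ℝ} (hη : 0 < η) :
    ∃ h : X → ℝ, Rep Γ A μ S u i h ∧ ∫ x, |ξ x - h x| ∂μ ≤ η := by
  have hi : Integrable ξ μ := hb.integrable hξ
  have hi0 : Integrable (ξ - μ[ξ | A]) μ := hi.sub integrable_condExp
  have hi1 : Integrable ((RCLike.ofRealCLM : ℝ →L[ℝ] 𝕜) ∘ (ξ - μ[ξ | A])) μ :=
    ContinuousLinearMap.integrable_comp _ hi0
  set g : Lp 𝕜 1 μ := hi1.toL1 _ with hg
  have hg1 : g =ᵐ[μ] (RCLike.ofRealCLM : ℝ →L[ℝ] 𝕜) ∘ (ξ - μ[ξ | A]) := hi1.coeFn_toL1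
  have hg0 : μ[g | A] =ᵐ[μ] 0 := by
    refine (condExp_congr_ae hg1).trans
      ((ContinuousLinearMap.comp_condExp_comm hi0 _).symm.trans ?_)
    filter_upwards [condExp_sub hi (integrable_condExp (f := ξ) (m := A)) A] with x hx
    rw [comp_apply, hx, condExp_of_stronglyMeasurable hA stronglyMeasurable_condExp
      integrable_condExp]
    simp
  obtain ⟨g', hg', hd⟩ := Metric.mem_closure_iff.1 (hgen g hg0) η hη
  obtain ⟨C, hC⟩ := hb
  have h1 := (rep_of_mem_span (i := i) f r j hr hj hur huj hg').1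
  have h2 : Rep Γ A μ S u i fun x => (μ[ξ | A]) x * u (o, (1 : Γ)⁻¹ • x) :=
    rep_gen stronglyMeasurable_condExp.aestronglyMeasurable
      (ae_bdd_abs_condExp_of_ae_bdd_abs (ae_of_all _ hC)) 1 ho
  refine ⟨_, h1.add h2, ?_⟩
  rw [dist_eq_norm, L1.norm_eq_integral_norm] at hd
  refine le_trans (integral_mono_of_nonneg (ae_of_all _ fun x => abs_nonneg _)
    (L1.integrable_coeFn (g - g')).norm ?_) hd.le
  filter_upwards [hg1, Lp.coeFn_sub g g'] with x hx hx'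
  rw [hx', Pi.sub_apply, hx]
  refine le_trans (le_of_eq ?_) (RCLike.abs_re_le_norm _)
  simp only [huo, comp_apply, Pi.sub_apply, RCLike.ofRealCLM_apply, map_sub, RCLike.ofReal_re]
  congr 1; ring

theorem exists_op_approx [Fintype I] [IsProbabilityMeasure μ] (hA : A ≤ mX) {𝕜 : Type*} [RCLike 𝕜]
    {m : ℕ} (f : Fin m → Lp 𝕜 1 μ)
    (hgen : ∀ g : Lp 𝕜 1 μ, μ[g | A] =ᵐ[μ] 0 → g ∈ orbitModule Γ A f)
    (r j : Fin m → I) (o : I) (hr : ∀ s, r s ∈ S) (hj : ∀ s, j s ∈ S) (ho : o ∈ S)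
    (hur : ∀ s x, u (r s, x) = RCLike.re (f s x)) (huj : ∀ s x, u (j s, x) = RCLike.im (f s x))
    (huo : ∀ x, u (o, x) = 1) (ξ : I × X → ℝ) (hξ : BM mX ξ) (η : ℝ) (hη : 0 < η) :
    ∃ T : Op I X, Nice Γ A T ∧ T * mulOp (indS S) = T ∧
      ∑ i, ∫ x, |ξ (i, x) - T u (i, x)| ∂μ ≤ η := by
  have hc : (0 : ℝ) < Fintype.card I := by
    have : Nonempty I := ⟨o⟩
    exact_mod_cast Fintype.card_pos
  have := fun i : I => exists_rep_approx (i := i) hA f hgen r j o hr hj ho hur huj huo (hξ.1 i)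
    (hξ.2.comp _) (div_pos hη hc)
  choose h hrep hh using this
  choose T h1 h2 h3 h4 using hrep
  refine ⟨∑ i, T i, Nice.sum _ _ fun i _ => h1 i, by simp only [Finset.sum_mul, h2], ?_⟩
  have e : ∀ i, ∫ x, |ξ (i, x) - (∑ k, T k) u (i, x)| ∂μ = ∫ x, |ξ (i, x) - h i x| ∂μ := by
    intro i
    refine integral_congr_ae ?_
    filter_upwards [h4 i] with x hx
    rw [hx, LinearMap.sum_apply, Finset.sum_apply, Finset.sum_eq_single i]
    · intro k _ hk; exact h3 k i hk.symm x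
    · simp
  simp only [e]
  refine (Finset.sum_le_sum fun i _ => hh i).trans (le_of_eq ?_)
  rw [Finset.sum_const, Finset.card_univ, nsmul_eq_mul]
  field_simp

end Pool.Agent.Lib.MP_d3f853_an
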