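import Mathlib
import Pool.Agent.Lib.MP_d3f853_an.Close
import Pool.Agent.Lib.MP_d3f853_an.Gen
import Pool.Agent.Lib.MP_d3f853_an.Encode

namespace Pool.Agent.Lib.MP_d3f853_an

open Function MeasureTheory Filter Topology MeasurableSpace
open scoped Pointwise ENNReal

variable {Γ X : Type*} [Group Γ] [MulAction Γ X] {A F : MeasurableSpace X}
  {mX : MeasurableSpace X} {μ : Measure X}

theorem nat_add_eq {a b : ℕ} {s t : ℝ} (hs : 0 < s ∧ s < 1) (ht : 0 < t ∧ t < 1)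
    (h : (a : ℝ) + s = b + t) : a = b ∧ s = t := by
  have h1 : a < b + 1 := by
    have : (a : ℝ) < b + 1 := by linarith [hs.1, ht.2]
    exact_mod_cast this
  have h2 : b < a + 1 := by
    have : (b : ℝ) < a + 1 := by linarith [hs.2, ht.1]
    exact_mod_cast this
  have : a = b := by omega
  subst this
  exact ⟨rfl, by linarith⟩

theorem encode_blocks [IsProbabilityMeasure μ] (hμ : MP Γ μ) (hF : Inv Γ F) (hFm : F ≤ mX)
    (hAF : A ≤ F) (hfix : ∀ γ : Γ, MeasurableSet[F] {x : X | γ • x = x})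
    {t : X → ℝ} (ht : Measurable[F] t) (ht01 : ∀ x, 0 < t x ∧ t x < 1)
    (htinj : ∀ᵐ x ∂μ, ∀ γ : Γ, γ • x ≠ x → t (γ • x) ≠ t x)
    {𝕜 : Type*} [RCLike 𝕜] {m : ℕ} (f : Fin m → Lp 𝕜 1 μ)
    (hgen : ∀ g : Lp 𝕜 1 μ, μ[g | A] =ᵐ[μ] 0 → g ∈ orbitModule Γ A f) {ε : ℝ≥0∞} (hε : 0 < ε) :
    ∃ η : ℝ, 0 < η ∧ ∀ (J : Type) [Fintype J] (B : J → Set X), (∀ i, MeasurableSet[mX] (B i)) →
      Pairwise (Disjoint on B) → ∑ i, μ.real (B i) ≤ η →
      ∃ 𝓦, Cheap μ ε 𝓦 ∧ ∀ H : MeasurableSpace X, Inv Γ H → F ≤ H →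
        (∀ W ∈ 𝓦, MeasurableSet[H] W) → ∀ i, MeasurableSet[H] (B i) := by
  classical
  obtain ⟨η, hη, h⟩ := encode hμ hF hFm hfix (Fintype.card (Option (Fin m ⊕ Fin m))) hε
  refine ⟨η, hη, fun J _ B hB hdisj hBη => ?_⟩
  let I := J ⊕ Option (Fin m ⊕ Fin m)
  let idx : I ≃ Fin (Fintype.card I) := Fintype.equivFin I
  have hc : (0 : ℝ) < Fintype.card I := by
    have : Nonempty I := ⟨Sum.inr none⟩
    exact_mod_cast Fintype.card_pos
  let τ : I × X → ℝ := fun p => ((idx p.1 : ℕ) + t p.2) / Fintype.card I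
  have hτ : ∀ i k x y, τ (i, x) = τ (k, y) → i = k ∧ t x = t y := by
    intro i k x y e
    have := nat_add_eq (ht01 x) (ht01 y) ((div_left_inj' hc.ne').1 e)
    exact ⟨idx.injective (Fin.ext this.1), this.2⟩
  have hτm : ∀ i, Measurable[F] fun x => τ (i, x) := fun i =>
    (ht.const_add ((idx i : ℕ) : ℝ)).div_const (Fintype.card I : ℝ)
  let u : I × X → ℝ := fun p => Sum.elim (fun _ => 0) (fun o => Option.elim o 1
    (Sum.elim (fun s => RCLike.re (f s p.2)) (fun s => RCLike.im (f s p.2)))) p.1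
  let S : Finset I := Finset.univ.map Embedding.inr
  have hS : ∀ o, Sum.inr o ∈ S := fun o => Finset.mem_map_of_mem _ (Finset.mem_univ o)
  refine Exists.imp (fun 𝓦 h' => ⟨h'.1, fun H hH hFH hW i => h'.2 H hH hFH hW (Sum.inl i)⟩)
    (h I τ (Sum.elim B fun _ => ∅) S u (by simp [S]) hτm ?_ ?_ ?_ ?_ ?_ ?_ ?_ ?_)
  · rintro ⟨i, x⟩
    have h3 : ((idx i : ℕ) : ℝ) + 1 ≤ Fintype.card I := by exact_mod_cast (idx i).2
    refine ⟨div_nonneg (by linarith [(ht01 x).1, Nat.cast_nonneg (α := ℝ) (idx i)]) hc.le, ?_⟩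
    rw [div_lt_one hc]
    linarith [(ht01 x).2]
  · exact fun x i k hik e => hik (hτ _ _ _ _ e).1
  · filter_upwards [htinj] with y hy γ i k hne e
    obtain ⟨rfl, e'⟩ := hτ _ _ _ _ e
    exact hy γ (fun h => hne (by rw [h])) e'
  · rintro (i | o)
    · exact hB i
    · exact MeasurableSet.empty
  · rintro (i | o) (k | o') hne
    · exact hdisj fun h => hne (by rw [h])
    · exact Set.disjoint_empty _
    · exact Set.empty_disjoint _
    · exact Set.empty_disjoint _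
  · rw [Fintype.sum_sum_type]
    simpa using hBη
  · rintro (i | (_ | s | s))
    · exact integrable_const 0
    · exact integrable_const 1
    · exact (L1.integrable_coeFn (f s)).re
    · exact (L1.integrable_coeFn (f s)).im
  · intro ξ hξ η' hη'
    obtain ⟨T, h3, h4⟩ := exists_op_approx (S := S) (u := u) (hAF.trans hFm) f hgen
      (fun s => Sum.inr (some (Sum.inl s))) (fun s => Sum.inr (some (Sum.inr s))) (Sum.inr none)
      (fun _ => hS _) (fun _ => hS _) (hS _) (fun _ _ => rfl) (fun _ _ => rfl) (fun _ => rfl)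
      ξ hξ η' hη'
    exact ⟨T, h3.mono hAF, h4⟩

theorem encode_set [Countable Γ] [StandardBorelSpace X] [IsProbabilityMeasure μ] (hμ : MP Γ μ)
    (hap : ∀ᵐ x ∂μ, (MulAction.orbit Γ x).Infinite) (hF : Inv Γ F) (hFm : F ≤ mX)
    (hAF : A ≤ F) (hfix : ∀ γ : Γ, MeasurableSet[F] {x : X | γ • x = x})
    {t : X → ℝ} (ht : Measurable[F] t) (ht01 : ∀ x, 0 < t x ∧ t x < 1)
    (htinj : ∀ᵐ x ∂μ, ∀ γ : Γ, γ • x ≠ x → t (γ • x) ≠ t x)
    {𝕜 : Type*} [RCLike 𝕜] {m : ℕ} (f : Fin m → Lp 𝕜 1 μ)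
    (hgen : ∀ g : Lp 𝕜 1 μ, μ[g | A] =ᵐ[μ] 0 → g ∈ orbitModule Γ A f) {ε : ℝ≥0∞} (hε : 0 < ε)
    {C : Set X} (hC : MeasurableSet[mX] C) {θ : ℝ} (hθ : 0 < θ) :
    ∃ (𝓦 : Set (Set X)) (C' : Set X), Cheap μ ε 𝓦 ∧ C' ⊆ C ∧ μ.real (C \ C') ≤ θ ∧
      ∀ H : MeasurableSpace X, Inv Γ H → F ≤ H → (∀ W ∈ 𝓦, MeasurableSet[H] W) →
        MeasurableSet[H] C' := by
  classical
  obtain ⟨η, hη, h⟩ := encode_blocks hμ hF hFm hAF hfix ht ht01 htinj f hgen hε
  obtain ⟨S, N, δ, hS, hSη, hSθ⟩ := exists_marker hμ hap hη hθ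
  let B : (Fin N → Bool) → Set X := fun w => S ∩ {x | ∀ j, (δ j)⁻¹ • x ∈ C ↔ w j = true}
  have hB : ∀ w, MeasurableSet[mX] (B w) := by
    intro w
    refine hS.inter ?_
    simp only [Set.ofPred_forall]
    exact MeasurableSet.iInter fun j => MeasurableSet.iff (hμ.inv _ hC) (MeasurableSet.const _)
  have hdisj : Pairwise (Disjoint on B) := by
    intro w w' hne
    refine Set.disjoint_left.2 fun x hx hx' => hne (funext fun j => ?_)
    exact Bool.eq_iff_iff.2 ((hx.2 j).symm.trans (hx'.2 j))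
  obtain ⟨𝓦, h1, h2⟩ := h (Fin N → Bool) B hB hdisj (by
    rw [← measureReal_iUnion_fintype hdisj hB]
    exact (measureReal_mono (Set.iUnion_subset fun w => Set.inter_subset_left)).trans hSη)
  refine ⟨𝓦, ⋃ j, ⋃ w : {w : Fin N → Bool // w j = true}, (fun x => δ j • x) ⁻¹' B w, h1, ?_, ?_,
    fun H hH hFH hW => ?_⟩
  · intro x hx
    simp only [Set.mem_iUnion] at hx
    obtain ⟨j, w, hx⟩ := hx
    have := (hx.2 j).2 w.2
    rwa [inv_smul_smul] at this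
  · refine (measureReal_mono ?_).trans hSθ
    rintro x ⟨hx, hx'⟩ j hj
    refine hx' (Set.mem_iUnion.2 ⟨j, Set.mem_iUnion.2
      ⟨⟨fun k => decide ((δ k)⁻¹ • δ j • x ∈ C), by simpa using hx⟩, hj, fun k => by simp⟩⟩)
  · exact MeasurableSet.iUnion fun j => MeasurableSet.iUnion fun w =>
      hH _ (h2 H hH hFH hW _)

theorem inv_orbitSigma (α : X → ℕ) : Inv Γ (orbitSigma Γ α) := by
  intro γ
  refine measurable_iff_comap_le.2 ?_
  unfold orbitSigma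
  rw [MeasurableSpace.comap_iSup]
  refine iSup_le fun δ => ?_
  rw [MeasurableSpace.comap_comp]
  refine le_iSup_of_le (δ * γ) (le_of_eq ?_)
  congr 1
  ext x
  simp [mul_smul]

theorem invSigma_le : invSigma Γ X ≤ mX :=
  (iInf_le _ (1 : Γ)).trans (MeasurableSpace.invariants_le _)

theorem inv_invSigma : Inv Γ (invSigma Γ X) := by
  intro γ s hs
  have h : (fun x : X => γ • x) ⁻¹' s = s := (MeasurableSpace.measurableSet_iInf.1 hs γ).2
  rw [h]
  exact hs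

theorem rokhlinEntropy_le [Countable Γ] [StandardBorelSpace X] [IsProbabilityMeasure μ]
    (hμ : MP Γ μ) (hap : ∀ᵐ x ∂μ, (MulAction.orbit Γ x).Infinite) (hA : A ≤ mX)
    (hAi : AInv Γ A μ) {𝕜 : Type*} [RCLike 𝕜] {m : ℕ} (f : Fin m → Lp 𝕜 1 μ)
    (hgen : ∀ g : Lp 𝕜 1 μ, μ[g | A] =ᵐ[μ] 0 → g ∈ orbitModule Γ A f) {ε : ℝ≥0∞} (hε : 0 < ε)
    (hε1 : ε + ε ≤ 1) : rokhlinEntropy Γ A μ ≤ 4 * (ε + ε) := by
  obtain ⟨θ, hθ, hθ'⟩ := ENNReal.exists_pos_sum_of_countable' hε.ne' (ℕ × ℕ)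
  choose η hη hsingle using fun p => cheap_single (μ := μ) (hθ p)
  obtain ⟨S, hS, hSη, hsep⟩ := exists_sep_family hμ hap η hη
  let G : MeasurableSpace X :=
    generateFrom {s | ∃ (δ : Γ) (p : ℕ × ℕ), s = (fun x => δ • x) ⁻¹' S p}
  have hG : Inv Γ G := by
    intro γ
    refine measurable_generateFrom ?_
    rintro _ ⟨δ, p, rfl⟩
    exact measurableSet_generateFrom ⟨δ * γ, p, by ext x; simp [mul_smul]⟩
  have hGS : ∀ p, MeasurableSet[G] (S p) := fun p =>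
    measurableSet_generateFrom ⟨1, p, by ext x; simp⟩
  have hGle : ∀ H : MeasurableSpace X, Inv Γ H → (∀ p, MeasurableSet[H] (S p)) → G ≤ H := by
    intro H hH h
    refine generateFrom_le ?_
    rintro _ ⟨δ, p, rfl⟩
    exact hH δ (h p)
  have hGm : G ≤ mX := hGle mX hμ.inv hS
  obtain ⟨hfix, t, ht, ht01, htinj⟩ := exists_time hμ hG hGS hsep
  have hAG : A ⊔ G ≤ aeCl (A ⊔ G) μ := le_aeCl (sup_le hA hGm)
  have hF : Inv Γ (aeCl (A ⊔ G) μ) := (hAi.sup hG.aInv).inv_aeCl hμ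
  have := fun p : ℕ × ℕ => encode_set hμ hap hF aeCl_le (le_sup_left.trans hAG)
    (fun γ => aeCl_le_aeCl (le_sup_right.trans hAG) _ (hfix γ))
    (ht.mono (le_sup_right.trans hAG) le_rfl) ht01 htinj f hgen (hθ p)
    (@measurableSet_natGeneratingSequence X mX _ p.1) (show (0 : ℝ) < 1 / (p.2 + 1) by positivity)
  choose 𝓦 C h1 h2 h3 h4 using this
  have hch : Cheap μ (ε + ε) ((⋃ p, {S p}) ∪ ⋃ p, 𝓦 p) :=
    ((Cheap.iUnion fun p => hsingle p _ (hS p) (hSη p)).mono hθ'.le).union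
      ((Cheap.iUnion h1).mono hθ'.le)
  obtain ⟨α, hα, hent, hW⟩ := hch.exists_partition hε1
  set K : MeasurableSpace X := orbitSigma Γ α ⊔ A ⊔ @invSigma Γ X _ mX with hK
  have hom : orbitSigma Γ α ≤ mX := iSup_le fun γ => (hα.comp (hμ.inv γ)).comap_le
  have hKm : K ≤ mX := sup_le (sup_le hom hA) invSigma_le
  have hH : Inv Γ (aeCl K μ) :=
    (((inv_orbitSigma α).aInv.sup hAi).sup inv_invSigma.aInv).inv_aeCl hμ
  have hWH : ∀ W ∈ (⋃ p, {S p}) ∪ ⋃ p, 𝓦 p, MeasurableSet[aeCl K μ] W := by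
    intro W hW'
    obtain ⟨s, hs⟩ := hW W hW'
    refine ⟨hch.measurableSet W hW', α ⁻¹' s, ?_, hs⟩
    refine (le_sup_left.trans le_sup_left : orbitSigma Γ α ≤ K) _ ?_
    refine (le_iSup (fun γ : Γ => MeasurableSpace.comap (fun x : X => α (γ • x)) ⊤) 1) _ ?_
    exact ⟨s, trivial, by ext x; simp⟩
  have hFH : aeCl (A ⊔ G) μ ≤ aeCl K μ := by
    refine aeCl_le_aeCl (sup_le ((le_sup_right.trans le_sup_left).trans (le_aeCl hKm)) ?_)
    exact hGle _ hH fun p => hWH _ (Or.inl (Set.mem_iUnion.2 ⟨p, rfl⟩))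
  have hC : ∀ p, MeasurableSet[aeCl K μ] (C p) := fun p =>
    h4 p _ hH hFH fun W hW' => hWH W (Or.inr (Set.mem_iUnion.2 ⟨p, hW'⟩))
  have hall : mX ≤ aeCl K μ := by
    refine le_trans (@generateFrom_natGeneratingSequence X mX _).symm.le (generateFrom_le ?_)
    rintro _ ⟨q, rfl⟩
    refine measurableSet_aeCl_of_ae_eq (@measurableSet_natGeneratingSequence X mX _ q)
      (MeasurableSet.iUnion fun n => hC (q, n)) ?_
    have := ae_of_forall_measureReal_le (μ := μ)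
      (p := fun x => x ∈ @natGeneratingSequence X mX _ q → x ∈ ⋃ n, C (q, n))
      (fun n => h3 (q, n)) (fun x hx n => by
        rw [Classical.not_imp] at hx
        exact ⟨hx.1, fun h => hx.2 (Set.mem_iUnion.2 ⟨n, h⟩)⟩)
    filter_upwards [this] with x hx
    refine propext ⟨hx, fun h => ?_⟩
    obtain ⟨n, hn⟩ := Set.mem_iUnion.1 h
    exact h2 (q, n) hn
  refine le_trans ?_ (hent (A ⊔ @invSigma Γ X _ mX) (sup_le hA invSigma_le))
  exact iInf_le_of_le α (iInf_le_of_le hα (iInf_le_of_le (fun s hs => (hall s hs).2) le_rfl))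

theorem main [Countable Γ] [StandardBorelSpace X] [IsProbabilityMeasure μ]
    (hμ : MP Γ μ) (hap : ∀ᵐ x ∂μ, (MulAction.orbit Γ x).Infinite) (hA : A ≤ mX)
    (hAi : AInv Γ A μ) {𝕜 : Type*} [RCLike 𝕜] (hpos : 0 < rokhlinEntropy Γ A μ) {m : ℕ}
    (f : Fin m → Lp 𝕜 1 μ) : ∃ g : Lp 𝕜 1 μ, μ[g | A] =ᵐ[μ] 0 ∧ g ∉ orbitModule Γ A f := by
  by_contra hcon
  simp only [not_exists, not_and, not_not] at hcon
  obtain ⟨r, hr0, hr⟩ := ENNReal.lt_iff_exists_nnreal_btwn.1 (lt_min hpos one_pos)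
  have h0 : (0 : ℝ≥0∞) < r / 8 := ENNReal.div_pos hr0.ne' (by norm_num)
  have h1 : 4 * ((r : ℝ≥0∞) / 8 + r / 8) = r := by
    rw [← two_mul, ← mul_assoc, show (4 : ℝ≥0∞) * 2 = 8 by norm_num,
      ENNReal.mul_div_cancel (by norm_num) (by norm_num)]
  have h2 : (r : ℝ≥0∞) / 8 + r / 8 ≤ 1 := by
    refine le_trans ?_ (hr.le.trans (min_le_right _ _))
    conv_rhs => rw [← h1]
    exact le_mul_of_one_le_left zero_le (by norm_num)
  have := rokhlinEntropy_le hμ hap hA hAi f hcon h0 h2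
  rw [h1] at this
  exact absurd (hr.trans_le (min_le_left _ _)) (not_lt.2 this)

end Pool.Agent.Lib.MP_d3f853_an
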