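import Mathlib
import Pool.Agent.Lib.MP_d3f853_an.Final

namespace Pool.Agent.Lib.MP_d3f853_an

open Function MeasureTheory Filter Topology MeasurableSpace
open scoped Pointwise ENNReal

variable {Γ X : Type*} [Group Γ] [MulAction Γ X] {A A' F : MeasurableSpace X}
  {mX : MeasurableSpace X} {μ : Measure X}

theorem exists_cheap_gen [Countable Γ] [StandardBorelSpace X] [IsProbabilityMeasure μ]
    (hμ : MP Γ μ) (hap : ∀ᵐ x ∂μ, (MulAction.orbit Γ x).Infinite) (hA : A ≤ mX)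
    (hAi : AInv Γ A μ) {ε : ℝ≥0∞} (hε : 0 < ε) {𝕜 : Type*} [RCLike 𝕜] {m : ℕ}
    (f : Fin m → Lp 𝕜 1 μ)
    (hgen : ∀ g : Lp 𝕜 1 μ, μ[g | A] =ᵐ[μ] 0 → g ∈ orbitModule Γ A f) :
    ∃ 𝓦, Cheap μ (ε + ε) 𝓦 ∧ ∀ K : MeasurableSpace X, Inv Γ (aeCl K μ) → A ≤ aeCl K μ →
      (∀ W ∈ 𝓦, MeasurableSet[aeCl K μ] W) → mX ≤ aeCl K μ := by
  obtain ⟨θ, hθ, hθ'⟩ := ENNReal.exists_pos_sum_of_countable' hε.ne' (ℕ × ℕ)
  choose η hη hsingle using fun p => cheap_single (μ := μ) (hθ p)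
  obtain ⟨S, hS, hSη, hsep⟩ := exists_sep_family hμ hap η hη
  let G : MeasurableSpace X :=
    generateFrom {s | ∃ (δ : Γ) (p : ℕ × ℕ), s = (fun x => δ • x) ⁻¹' S p}
  have hG : Inv Γ G := by
    intro γ
    refine measurable_generateFrom ?_
    rintro _ ⟨δ, p, rfl⟩
    exact measurableSet_generateFrom ⟨δ * γ, p, by ext x; simp [mul_smul]⟩
  have hGS : ∀ p, MeasurableSet[G] (S p) := fun p =>
    measurableSet_generateFrom ⟨1, p, by ext x; simp⟩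
  have hGle : ∀ H : MeasurableSpace X, Inv Γ H → (∀ p, MeasurableSet[H] (S p)) → G ≤ H := by
    intro H hH h
    refine generateFrom_le ?_
    rintro _ ⟨δ, p, rfl⟩
    exact hH δ (h p)
  have hGm : G ≤ mX := hGle mX hμ.inv hS
  obtain ⟨hfix, t, ht, ht01, htinj⟩ := exists_time hμ hG hGS hsep
  have hAG : A ⊔ G ≤ aeCl (A ⊔ G) μ := le_aeCl (sup_le hA hGm)
  have hF : Inv Γ (aeCl (A ⊔ G) μ) := (hAi.sup hG.aInv).inv_aeCl hμ
  have := fun p : ℕ × ℕ => encode_set hμ hap hF aeCl_le (le_sup_left.trans hAG)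
    (fun γ => aeCl_le_aeCl (le_sup_right.trans hAG) _ (hfix γ))
    (ht.mono (le_sup_right.trans hAG) le_rfl) ht01 htinj f hgen (hθ p)
    (@measurableSet_natGeneratingSequence X mX _ p.1) (show (0 : ℝ) < 1 / (p.2 + 1) by positivity)
  choose 𝓦 C h1 h2 h3 h4 using this
  refine ⟨(⋃ p, {S p}) ∪ ⋃ p, 𝓦 p,
    ((Cheap.iUnion fun p => hsingle p _ (hS p) (hSη p)).mono hθ'.le).union
      ((Cheap.iUnion h1).mono hθ'.le), fun K hH hAK hWH => ?_⟩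
  have hFH : aeCl (A ⊔ G) μ ≤ aeCl K μ := by
    refine aeCl_le_aeCl (sup_le hAK ?_)
    exact hGle _ hH fun p => hWH _ (Or.inl (Set.mem_iUnion.2 ⟨p, rfl⟩))
  have hC : ∀ p, MeasurableSet[aeCl K μ] (C p) := fun p =>
    h4 p _ hH hFH fun W hW' => hWH W (Or.inr (Set.mem_iUnion.2 ⟨p, hW'⟩))
  refine le_trans (@generateFrom_natGeneratingSequence X mX _).symm.le (generateFrom_le ?_)
  rintro _ ⟨q, rfl⟩
  refine measurableSet_aeCl_of_ae_eq (@measurableSet_natGeneratingSequence X mX _ q)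
    (MeasurableSet.iUnion fun n => hC (q, n)) ?_
  have := ae_of_forall_measureReal_le (μ := μ)
    (p := fun x => x ∈ @natGeneratingSequence X mX _ q → x ∈ ⋃ n, C (q, n))
    (fun n => h3 (q, n)) (fun x hx n => by
      rw [Classical.not_imp] at hx
      exact ⟨hx.1, fun h => hx.2 (Set.mem_iUnion.2 ⟨n, h⟩)⟩)
  filter_upwards [this] with x hx
  refine propext ⟨hx, fun h => ?_⟩
  obtain ⟨n, hn⟩ := Set.mem_iUnion.1 h
  exact h2 (q, n) hn

theorem rokhlinEntropy_le_of_cheap [IsProbabilityMeasure μ] (hμ : MP Γ μ) (hA : A ≤ mX)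
    (hAi : AInv Γ A μ) {ε : ℝ≥0∞} (hε1 : ε ≤ 1) {𝓦 : Set (Set X)} (hch : Cheap μ ε 𝓦)
    (hgen : ∀ K : MeasurableSpace X, K ≤ mX → AInv Γ K μ → A ≤ K → @invSigma Γ X _ mX ≤ K →
      (∀ W ∈ 𝓦, MeasurableSet[aeCl K μ] W) → mX ≤ aeCl K μ) :
    rokhlinEntropy Γ A μ ≤ 4 * ε := by
  obtain ⟨α, hα, hent, hW⟩ := hch.exists_partition hε1
  set K : MeasurableSpace X := orbitSigma Γ α ⊔ A ⊔ @invSigma Γ X _ mX with hK
  have hom : orbitSigma Γ α ≤ mX := iSup_le fun γ => (hα.comp (hμ.inv γ)).comap_le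
  have hKm : K ≤ mX := sup_le (sup_le hom hA) invSigma_le
  have hWH : ∀ W ∈ 𝓦, MeasurableSet[aeCl K μ] W := by
    intro W hW'
    obtain ⟨s, hs⟩ := hW W hW'
    refine ⟨hch.measurableSet W hW', α ⁻¹' s, ?_, hs⟩
    refine (le_sup_left.trans le_sup_left : orbitSigma Γ α ≤ K) _ ?_
    refine (le_iSup (fun γ : Γ => MeasurableSpace.comap (fun x : X => α (γ • x)) ⊤) 1) _ ?_
    exact ⟨s, trivial, by ext x; simp⟩
  have hall := hgen K hKm (((inv_orbitSigma α).aInv.sup hAi).sup inv_invSigma.aInv)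
    (le_sup_right.trans le_sup_left) le_sup_right hWH
  refine le_trans ?_ (hent (A ⊔ @invSigma Γ X _ mX) (sup_le hA invSigma_le))
  exact iInf_le_of_le α (iInf_le_of_le hα (iInf_le_of_le (fun s hs => (hall s hs).2) le_rfl))

theorem exists_tail [IsFiniteMeasure μ] {φ : X → ℝ} (hφ : Measurable[mX] φ) {η : ℝ} (hη : 0 < η)
    (j : ℕ) : ∃ K : ℕ, j ≤ K ∧ μ {x | (K : ℝ) < φ x} ≤ ENNReal.ofReal η := by
  have h1 : Tendsto (fun n : ℕ => μ {x | (n : ℝ) < φ x}) atTop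
      (𝓝 (μ (⋂ n : ℕ, {x | (n : ℝ) < φ x}))) := by
    refine tendsto_measure_iInter_atTop (s := fun n : ℕ => {x | (n : ℝ) < φ x})
      (fun n => (measurableSet_lt measurable_const hφ).nullMeasurableSet) ?_
      ⟨0, measure_ne_top _ _⟩
    intro a b hab x hx
    have : (a : ℝ) ≤ b := by exact_mod_cast hab
    exact lt_of_le_of_lt this hx
  have h2 : (⋂ n : ℕ, {x | (n : ℝ) < φ x}) = ∅ := by
    refine Set.eq_empty_of_forall_notMem fun x hx => ?_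
    obtain ⟨n, hn⟩ := exists_nat_ge (φ x)
    exact absurd (Set.mem_iInter.1 hx n) (not_lt.2 hn)
  rw [h2, measure_empty] at h1
  obtain ⟨K, hK, hK'⟩ := ((eventually_ge_atTop j).and
    (h1.eventually (gt_mem_nhds (ENNReal.ofReal_pos.2 hη)))).exists
  exact ⟨K, hK, hK'.le⟩

theorem exists_dense_bdd [StandardBorelSpace X] [IsFiniteMeasure μ] (𝕜 : Type*) [RCLike 𝕜] :
    ∃ u : ℕ → Lp 𝕜 1 μ, (∀ n, MemLp (u n) ∞ μ) ∧ DenseRange u := by
  have hd : Dense {g : Lp 𝕜 1 μ | MemLp g ∞ μ} := by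
    refine (Lp.simpleFunc.dense (E := 𝕜) (μ := μ) (p := 1) ENNReal.one_ne_top).mono ?_
    intro g hg
    exact ((Lp.simpleFunc.toSimpleFunc ⟨g, hg⟩).memLp_top μ).ae_eq
      (Lp.simpleFunc.toSimpleFunc_eq_toFun ⟨g, hg⟩)
  have : Fact ((1 : ℝ≥0∞) ≠ ∞) := ⟨ENNReal.one_ne_top⟩
  obtain ⟨t, ht, htc, htd⟩ := hd.exists_countable_dense_subset
  obtain ⟨u, rfl⟩ := htc.exists_eq_range htd.nonempty
  exact ⟨u, fun n => ht ⟨n, rfl⟩, htd⟩

end Pool.Agent.Lib.MP_d3f853_an
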