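import Mathlib
import Pool.Agent.Lib.MP_d3f853_an.MeasA

namespace Pool.Agent.Lib.MP_d3f853_an

open Function MeasureTheory Filter Topology MeasurableSpace
open scoped Pointwise ENNReal

variable {Γ X : Type*} [Group Γ] [MulAction Γ X] {A A' F : MeasurableSpace X}
  {mX : MeasurableSpace X} {μ : Measure X}

/-- A bounded function that is close to a sum off a small `F`-measurable set is close in `L¹` to
the span over `F`. -/
theorem exists_span_close [IsProbabilityMeasure μ] (hμ : MP Γ μ) (hFm : F ≤ mX)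
    {𝕜 : Type*} [RCLike 𝕜] {m : ℕ} (f : Fin m → Lp 𝕜 1 μ) (g : Lp 𝕜 1 μ) {C : ℝ} (hC0 : 0 ≤ C)
    (hC : ∀ᵐ x ∂μ, ‖g x‖ ≤ C) {δ : ℝ} (hδ : 0 < δ) {n : ℕ} (b : Fin n → X → 𝕜) (γ : Fin n → Γ)
    (s : Fin n → Fin m) (hb : ∀ i, StronglyMeasurable[F] (b i)) {E : Set X}
    (hE : MeasurableSet[F] E) (hEδ : μ E ≤ ENNReal.ofReal δ)
    (hgood : ∀ᵐ x ∂μ, x ∉ E → ‖g x - ∑ i, b i x * f (s i) ((γ i)⁻¹ • x)‖ ≤ δ) :
    ∃ h ∈ Submodule.span 𝕜 {g : Lp 𝕜 1 μ | ∃ (a : X → 𝕜) (γ : Γ) (s : Fin m),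
      AEStronglyMeasurable[F] a μ ∧ MemLp a ∞ μ ∧
        g =ᵐ[μ] fun x => a x * f s (γ⁻¹ • x)}, dist g h ≤ (1 + 2 * C) * δ := by
  classical
  have hφ : Measurable[F] fun x => ∑ i, ‖b i x‖ :=
    Finset.measurable_sum _ fun i _ => (hb i).norm.measurable
  obtain ⟨R, -, hR⟩ := exists_tail (μ := μ) (hφ.mono hFm le_rfl) hδ 0
  set E' : Set X := E ∪ {x | (R : ℝ) < ∑ i, ‖b i x‖} with hE'
  have hE'F : MeasurableSet[F] E' := hE.union (measurableSet_lt measurable_const hφ)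
  have hE'm : MeasurableSet[mX] E' := hFm _ hE'F
  have hE'δ : μ.real E' ≤ 2 * δ := by
    have : μ E' ≤ ENNReal.ofReal (2 * δ) := by
      refine (measure_union_le _ _).trans ?_
      rw [two_mul, ENNReal.ofReal_add hδ.le hδ.le]
      exact add_le_add hEδ hR
    exact ENNReal.toReal_le_of_le_ofReal (by positivity) this
  set c : Fin n → X → 𝕜 := fun i => E'ᶜ.indicator (b i) with hc
  have hcF : ∀ i, StronglyMeasurable[F] (c i) := fun i => (hb i).indicator hE'F.compl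
  have hcb : ∀ i x, ‖c i x‖ ≤ R := by
    intro i x
    by_cases hx : x ∈ E'ᶜ
    · rw [hc]
      simp only [Set.indicator_of_mem hx]
      have h1 : ¬ (R : ℝ) < ∑ i, ‖b i x‖ := fun h => hx (Or.inr h)
      exact (Finset.single_le_sum (f := fun i => ‖b i x‖) (fun i _ => norm_nonneg _)
        (Finset.mem_univ i)).trans (not_lt.1 h1)
    · rw [hc]
      simp only [Set.indicator_of_notMem hx, norm_zero]
      exact Nat.cast_nonneg _
  have hcm : ∀ i, AEStronglyMeasurable (c i) μ := fun i =>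
    ((hcF i).mono hFm).aestronglyMeasurable
  have hct : ∀ i, MemLp (c i) ∞ μ := fun i => memLp_top_of_bound (hcm i) R (ae_of_all _ (hcb i))
  have hint : ∀ i, Integrable (fun x => c i x * f (s i) ((γ i)⁻¹ • x)) μ := fun i =>
    (((hμ (γ i)⁻¹).integrable_comp (Lp.aestronglyMeasurable (f (s i)))).2
      (L1.integrable_coeFn (f (s i)))).bdd_mul (hcm i) (ae_of_all _ (hcb i))
  refine ⟨∑ i, (hint i).toL1 _, Submodule.sum_mem _ fun i _ => Submodule.subset_span
    ⟨c i, γ i, s i, (hcF i).aestronglyMeasurable, hct i, (hint i).coeFn_toL1⟩, ?_⟩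
  have hsum : ((∑ i, (hint i).toL1 _ : Lp 𝕜 1 μ) : X → 𝕜) =ᵐ[μ]
      fun x => ∑ i, c i x * f (s i) ((γ i)⁻¹ • x) := by
    filter_upwards [Lp.coeFn_finsetSum Finset.univ fun i => (hint i).toL1 _,
      ae_all_iff.2 fun i => (hint i).coeFn_toL1] with x hx hx'
    rw [hx, Finset.sum_apply]
    exact Finset.sum_congr rfl fun i _ => hx' i
  rw [dist_eq_norm, L1.norm_eq_integral_norm]
  have hi2 : Integrable (fun x => δ + E'.indicator (fun _ => C) x) μ :=
    (integrable_const δ).add ((integrable_const C).indicator hE'm)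
  refine le_trans (integral_mono_ae (L1.integrable_coeFn _).norm hi2 ?_) ?_
  · filter_upwards [hsum, hC, hgood, Lp.coeFn_sub g (∑ i, (hint i).toL1 _)] with x h1 h2 h3 h4
    rw [h4, Pi.sub_apply, h1]
    by_cases hx : x ∈ E'
    · have : ∀ i, c i x = 0 := fun i => Set.indicator_of_notMem (s := E'ᶜ) (fun h => h hx) _
      simp only [this, zero_mul, Finset.sum_const_zero, sub_zero, Set.indicator_of_mem hx]
      linarith
    · have : ∀ i, c i x = b i x := fun i => Set.indicator_of_mem (s := E'ᶜ) hx _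
      simp only [this, Set.indicator_of_notMem hx, add_zero]
      exact h3 fun h => hx (Or.inl h)
  · rw [integral_add (integrable_const δ) ((integrable_const C).indicator hE'm),
      integral_indicator hE'm]
    simp only [integral_const, probReal_univ, smul_eq_mul, one_mul, MeasurableSet.univ,
      measureReal_restrict_apply, Set.univ_inter]
    nlinarith [mul_le_mul_of_nonneg_right hE'δ hC0]

theorem MP.ae_comp (hμ : MP Γ μ) (γ : Γ) {Y : Type*} {φ ψ : X → Y} (h : φ =ᵐ[μ] ψ) :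
    ∀ᵐ x ∂μ, φ (γ • x) = ψ (γ • x) :=
  (hμ γ).quasiMeasurePreserving.ae_eq_comp h

theorem exists_cheap_gen_measure [Countable Γ] [StandardBorelSpace X] [IsProbabilityMeasure μ]
    (hμ : MP Γ μ) (hap : ∀ᵐ x ∂μ, (MulAction.orbit Γ x).Infinite) (hA : A ≤ mX)
    (hAi : AInv Γ A μ) {𝕜 : Type*} [RCLike 𝕜] {m : ℕ} (f : Fin m → X → 𝕜)
    (hf : ∀ s, StronglyMeasurable[mX] (f s))
    (happ : ∀ g : X → 𝕜, MemLp g ∞ μ → ∀ δ : ℝ, 0 < δ →
      ∃ (n : ℕ) (a : Fin n → X → 𝕜) (γ : Fin n → Γ) (s : Fin n → Fin m),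
        (∀ i, AEStronglyMeasurable[A] (a i) μ) ∧
        μ {x | δ ≤ ‖g x - ∑ i, a i x * f (s i) ((γ i)⁻¹ • x)‖} ≤ ENNReal.ofReal δ)
    {ε : ℝ≥0∞} (hε : 0 < ε) :
    ∃ 𝓦, Cheap μ (ε + ε + ε) 𝓦 ∧ ∀ K : MeasurableSpace X, Inv Γ (aeCl K μ) → A ≤ aeCl K μ →
      (∀ W ∈ 𝓦, MeasurableSet[aeCl K μ] W) → mX ≤ aeCl K μ := by
  classical
  obtain ⟨θ, hθ, hθ'⟩ := ENNReal.exists_pos_sum_of_countable' hε.ne' ((Fin m × ℕ) ⊕ (ℕ × ℕ))
  choose η hη hsingle using fun p => cheap_single (μ := μ) (hθ p)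
  choose K hK1 hK2 using fun (s : Fin m) (j : ℕ) =>
    exists_tail (μ := μ) (hf s).norm.measurable (hη (Sum.inl (s, j))) j
  obtain ⟨u, hub, hud⟩ := exists_dense_bdd (μ := μ) 𝕜
  have hδ : ∀ p : ℕ × ℕ, (0 : ℝ) < min (η (Sum.inr p)) (1 / (p.2 + 1)) := fun p =>
    lt_min (hη _) (by positivity)
  choose n a γ s ha hE using fun p : ℕ × ℕ => happ (u p.1) (hub p.1) _ (hδ p)
  set W : (Fin m × ℕ) ⊕ (ℕ × ℕ) → Set X := Sum.elim
    (fun q => {x | (K q.1 q.2 : ℝ) < ‖f q.1 x‖})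
    (fun p => toMeasurable μ {x | min (η (Sum.inr p)) (1 / (p.2 + 1)) ≤
      ‖u p.1 x - ∑ i, a p i x * f (s p i) ((γ p i)⁻¹ • x)‖}) with hW
  have hWm : ∀ q, MeasurableSet[mX] (W q) := by
    rintro (q | p)
    · exact measurableSet_lt measurable_const (hf q.1).norm.measurable
    · exact measurableSet_toMeasurable _ _
  have hWη : ∀ q, μ (W q) ≤ ENNReal.ofReal (η q) := by
    rintro (q | p)
    · exact hK2 q.1 q.2
    · simp only [hW, Sum.elim_inr, measure_toMeasurable]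
      exact (hE p).trans (ENNReal.ofReal_le_ofReal (min_le_left _ _))
  have hWE : ∀ p : ℕ × ℕ, μ (W (Sum.inr p)) ≤
      ENNReal.ofReal (min (η (Sum.inr p)) (1 / ((p.2 : ℝ) + 1))) := by
    intro p
    simp only [hW, Sum.elim_inr, measure_toMeasurable]
    exact hE p
  have hWs : ∀ p : ℕ × ℕ, {x | min (η (Sum.inr p)) (1 / (p.2 + 1)) ≤
      ‖u p.1 x - ∑ i, a p i x * f (s p i) ((γ p i)⁻¹ • x)‖} ⊆ W (Sum.inr p) := fun p =>
    subset_toMeasurable _ _
  have hch : Cheap μ ε (⋃ q, {W q}) :=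
    (Cheap.iUnion fun q => hsingle q _ (hWm q) (hWη q)).mono hθ'.le
  let G : MeasurableSpace X :=
    generateFrom {t | ∃ (δ : Γ) (q : (Fin m × ℕ) ⊕ (ℕ × ℕ)), t = (fun x => δ • x) ⁻¹' W q}
  have hG : Inv Γ G := by
    intro γ
    refine measurable_generateFrom ?_
    rintro _ ⟨δ, p, rfl⟩
    exact measurableSet_generateFrom ⟨δ * γ, p, by ext x; simp [mul_smul]⟩
  have hGW : ∀ q, MeasurableSet[G] (W q) := fun q =>
    measurableSet_generateFrom ⟨1, q, by ext x; simp⟩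
  have hGle : ∀ H : MeasurableSpace X, Inv Γ H → (∀ q, MeasurableSet[H] (W q)) → G ≤ H := by
    intro H hH h
    refine generateFrom_le ?_
    rintro _ ⟨δ, p, rfl⟩
    exact hH δ (h p)
  have hGm : G ≤ mX := hGle mX hμ.inv hWm
  have hAG : A ⊔ G ≤ mX := sup_le hA hGm
  have hex : ∀ (t : Fin m) (x : X), ∃ j, ‖f t x‖ ≤ K t j := by
    intro t x
    obtain ⟨j, hj⟩ := exists_nat_ge ‖f t x‖
    exact ⟨j, hj.trans (by exact_mod_cast hK1 t j)⟩
  set w : Fin m → X → ℝ := fun t x => (K t (Nat.find (hex t x)) : ℝ) + 1 with hw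
  have hw0 : ∀ t x, 0 < w t x := fun t x => by positivity
  have hwf : ∀ t x, ‖f t x‖ ≤ w t x := fun t x => (Nat.find_spec (hex t x)).trans (by
    simp only [hw]; linarith)
  have hwG : ∀ t, Measurable[G] (w t) := by
    intro t
    have h1 : Measurable[G] fun x => Nat.find (hex t x) := by
      refine @measurable_find X G (fun x j => ‖f t x‖ ≤ K t j) _ (hex t) fun j => ?_
      have := (hGW (Sum.inl (t, j))).compl
      simpa [hW, Set.compl_ofPred] using this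
    exact (measurable_from_top (f := fun j : ℕ => (K t j : ℝ) + 1)).comp h1
  have hwk : ∀ t, StronglyMeasurable[G] fun x => ((w t x : ℝ) : 𝕜) := fun t =>
    RCLike.continuous_ofReal.comp_stronglyMeasurable (hwG t).stronglyMeasurable
  have hwi : ∀ t, StronglyMeasurable[mX] fun x => (((w t x)⁻¹ : ℝ) : 𝕜) := fun t =>
    RCLike.continuous_ofReal.comp_stronglyMeasurable
      ((hwG t).mono hGm le_rfl).inv.stronglyMeasurable
  have hint : ∀ t, Integrable (fun x => (((w t x)⁻¹ : ℝ) : 𝕜) * f t x) μ := by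
    intro t
    refine Integrable.of_bound ((hwi t).mul (hf t)).aestronglyMeasurable 1
      (ae_of_all _ fun x => ?_)
    rw [norm_mul, RCLike.norm_ofReal, abs_of_pos (inv_pos.2 (hw0 t x)), inv_mul_le_iff₀ (hw0 t x),
      mul_one]
    exact hwf t x
  suffices hgen : ∀ g : Lp 𝕜 1 μ, g ∈ orbitModule Γ (A ⊔ G) fun t => (hint t).toL1 _ by
    obtain ⟨𝓦, h1, h2⟩ := exists_cheap_gen hμ hap hAG (hAi.sup hG.aInv) hε
      (fun t => (hint t).toL1 _) fun g _ => hgen g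
    exact ⟨_, h1.union hch, fun H hH hAH hWH => h2 H hH (sup_le hAH (hGle _ hH fun q =>
      hWH _ (Or.inr (Set.mem_iUnion.2 ⟨q, rfl⟩)))) fun W hW => hWH W (Or.inl hW)⟩
  intro g
  have hall : ∀ k, u k ∈ orbitModule Γ (A ⊔ G) fun t => (hint t).toL1 _ := by
    intro k
    refine Metric.mem_closure_iff.2 fun r hr => ?_
    obtain ⟨C, hC⟩ := eLpNormEssSup_lt_top_iff_isBoundedUnder.1
      (show eLpNormEssSup (u k) μ < ∞ by simpa using (hub k).2)
    have hC' : ∀ᵐ x ∂μ, ‖u k x‖ ≤ (C : ℝ) := by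
      filter_upwards [eventually_map.1 hC] with x hx
      exact_mod_cast hx
    obtain ⟨j, hj⟩ := exists_nat_gt ((1 + 2 * (C : ℝ)) / r)
    have hEm : μ (W (Sum.inr (k, j))) ≤
        ENNReal.ofReal (min (η (Sum.inr (k, j))) (1 / ((j : ℝ) + 1))) := hWE (k, j)
    obtain ⟨h, hh, hd⟩ := exists_span_close (F := A ⊔ G) hμ hAG (fun t => (hint t).toL1 _) (u k)
      C.2 hC' (hδ (k, j))
      (fun i x => (ha (k, j) i).mk _ x * ((w (s (k, j) i) ((γ (k, j) i)⁻¹ • x) : ℝ) : 𝕜))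
      (γ (k, j)) (s (k, j))
      (fun i => ((ha (k, j) i).stronglyMeasurable_mk.mono le_sup_left).mul
        (((hwk _).comp_measurable (hG _)).mono le_sup_right))
      ((le_sup_right : G ≤ A ⊔ G) _ (hGW (Sum.inr (k, j))))
      hEm
      (by
        filter_upwards [ae_all_iff.2 fun i => (ha (k, j) i).ae_eq_mk,
          ae_all_iff.2 fun i => hμ.ae_comp (γ (k, j) i)⁻¹
            (hint (s (k, j) i)).coeFn_toL1] with x h1 h2 hx
        have h3 : ¬ min (η (Sum.inr (k, j))) (1 / ((j : ℝ) + 1)) ≤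
            ‖u k x - ∑ i, a (k, j) i x * f (s (k, j) i) ((γ (k, j) i)⁻¹ • x)‖ :=
          fun h => hx (hWs (k, j) h)
        refine le_trans (le_of_eq ?_) (not_le.1 h3).le
        congr 2
        refine Finset.sum_congr rfl fun i _ => ?_
        rw [h2 i, ← h1 i, mul_assoc, ← mul_assoc (((w _ _ : ℝ) : 𝕜)), ← RCLike.ofReal_mul,
          mul_inv_cancel₀ (hw0 _ _).ne', RCLike.ofReal_one, one_mul])
    refine ⟨h, hh, hd.trans_lt ?_⟩
    have h5 : (0 : ℝ) < 1 + 2 * C := by positivity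
    refine (mul_le_mul_of_nonneg_left (min_le_right _ _) h5.le).trans_lt ?_
    rw [div_lt_iff₀ hr] at hj
    rw [mul_one_div, div_lt_iff₀ (by positivity)]
    nlinarith
  exact hud.induction_on g (Submodule.isClosed_topologicalClosure _) hall

end Pool.Agent.Lib.MP_d3f853_an
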