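import Mathlib
import Pool.Agent.Lib.MP_d3f853_an.MeasB

namespace Pool.Agent.Lib.MP_d3f853_an

open Function MeasureTheory Filter Topology MeasurableSpace ProbabilityTheory
open scoped Pointwise ENNReal

variable {Γ X : Type*} [Group Γ] [MulAction Γ X] {A A' F : MeasurableSpace X}
  {mX : MeasurableSpace X} {μ : Measure X}

theorem measurableSet_invSigma [h : MeasurableSpace X] {s : Set X} (hs : MeasurableSet s)
    (hi : ∀ (γ : Γ) (x : X), γ • x ∈ s ↔ x ∈ s) : MeasurableSet[invSigma Γ X] s :=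
  MeasurableSpace.measurableSet_iInf.2 fun γ => ⟨hs, Set.ext fun x => hi γ x⟩

theorem fix_smul_iff (δ : Γ) (x : X) : (∀ γ : Γ, γ • δ • x = δ • x) ↔ ∀ γ : Γ, γ • x = x := by
  constructor
  · intro h
    have h1 := h δ⁻¹
    rw [inv_smul_smul] at h1
    rwa [← h1] at h
  · intro h
    rwa [h δ]

theorem MP.cond (hμ : MP Γ μ) {Y : Set X} (hY : MeasurableSet[mX] Y)
    (hi : ∀ (γ : Γ) (x : X), γ • x ∈ Y ↔ x ∈ Y) : MP Γ μ[|Y] := by
  intro γ
  refine ⟨(hμ γ).measurable, Measure.ext fun s hs => ?_⟩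
  rw [Measure.map_apply (hμ γ).measurable hs, cond_apply hY, cond_apply hY,
    ← (hμ γ).measure_preimage (hY.inter hs).nullMeasurableSet]
  congr 2
  ext x
  simp [hi]

theorem AInv.of_ac {ν : Measure X} (h : AInv Γ A μ) (hν : ν ≪ μ) : AInv Γ A ν := by
  intro γ s hs
  obtain ⟨t, ht, e⟩ := h γ s hs
  exact ⟨t, ht, hν.ae_eq e⟩

theorem exists_bdd_rep {𝕜 : Type*} [RCLike 𝕜] {g : X → 𝕜} (hg : MemLp g ∞ μ) :
    ∃ (g' : X → 𝕜) (C : ℝ), StronglyMeasurable[mX] g' ∧ (∀ x, ‖g' x‖ ≤ C) ∧ g =ᵐ[μ] g' := by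
  obtain ⟨C, hC⟩ := eLpNormEssSup_lt_top_iff_isBoundedUnder.1
    (show eLpNormEssSup g μ < ∞ by simpa using hg.2)
  refine ⟨{x | ‖hg.1.mk g x‖ ≤ C}.indicator (hg.1.mk g), C,
    hg.1.stronglyMeasurable_mk.indicator
      (measurableSet_le hg.1.stronglyMeasurable_mk.norm.measurable measurable_const),
    fun x => ?_, ?_⟩
  · by_cases hx : x ∈ {x | ‖hg.1.mk g x‖ ≤ C}
    · rw [Set.indicator_of_mem hx]; exact hx
    · rw [Set.indicator_of_notMem hx, norm_zero]; exact C.2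
  · filter_upwards [eventually_map.1 hC, hg.1.ae_eq_mk] with x h1 h2
    have : x ∈ {x | ‖hg.1.mk g x‖ ≤ C} := by
      change ‖hg.1.mk g x‖ ≤ C
      rw [← h2]
      exact_mod_cast h1
    rw [Set.indicator_of_mem this, h2]

theorem rokhlinEntropy_le_of_measure [Countable Γ] [StandardBorelSpace X] [IsProbabilityMeasure μ]
    (hμ : MP Γ μ) (horb : ∀ᵐ x ∂μ, (MulAction.orbit Γ x).Infinite ∨ ∀ γ : Γ, γ • x = x)
    (hA : A ≤ mX) (hAi : AInv Γ A μ) {𝕜 : Type*} [RCLike 𝕜] {m : ℕ} (f : Fin m → X → 𝕜)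
    (hf : ∀ s, StronglyMeasurable[mX] (f s))
    (happ : ∀ g : X → 𝕜, MemLp g ∞ μ → ∀ δ : ℝ, 0 < δ →
      ∃ (n : ℕ) (a : Fin n → X → 𝕜) (γ : Fin n → Γ) (s : Fin n → Fin m),
        (∀ i, AEStronglyMeasurable[A] (a i) μ) ∧
        μ {x | δ ≤ ‖g x - ∑ i, a i x * f (s i) ((γ i)⁻¹ • x)‖} ≤ ENNReal.ofReal δ)
    {ε : ℝ≥0∞} (hε : 0 < ε) (hε1 : ε + ε + ε ≤ 1) : rokhlinEntropy Γ A μ ≤ 4 * (ε + ε + ε) := by
  set Y : Set X := {x | ¬ ∀ γ : Γ, γ • x = x} with hYdef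
  have hY : MeasurableSet[mX] Y := by
    have : MeasurableSet[mX] {x : X | ∀ γ : Γ, γ • x = x} := by
      simp only [Set.ofPred_forall]
      exact MeasurableSet.iInter fun γ => measurableSet_fix hμ.inv γ
    exact this.compl
  have hYi : ∀ (γ : Γ) (x : X), γ • x ∈ Y ↔ x ∈ Y := fun γ x => not_congr (fix_smul_iff γ x)
  have hYI : MeasurableSet[@invSigma Γ X _ mX] Y := measurableSet_invSigma hY hYi
  have hdiff : ∀ s, MeasurableSet[mX] s → MeasurableSet[@invSigma Γ X _ mX] (s \ Y) := by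
    intro s hs
    refine measurableSet_invSigma (hs.diff hY) fun γ x => ?_
    by_cases hx : x ∈ Y
    · simp [hx, (hYi γ x).2 hx]
    · rw [not_not.1 hx γ]
  by_cases h0 : μ Y = 0
  · obtain ⟨η, -, h⟩ := cheap_single (μ := μ) hε
    refine rokhlinEntropy_le_of_cheap hμ hA hAi hε1
      ((h ∅ MeasurableSet.empty (by simp)).mono (le_add_self)) fun K _ _ _ hI _ s hs => ?_
    exact ⟨hs, s \ Y, hI _ (hdiff s hs), (sdiff_null_ae_eq_self h0).symm⟩
  have hν : IsProbabilityMeasure μ[|Y] := cond_isProbabilityMeasure h0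
  have hac : μ[|Y] ≪ μ := cond_absolutelyContinuous
  have hac' : μ.restrict Y ≪ μ[|Y] :=
    Measure.absolutelyContinuous_smul (ENNReal.inv_ne_zero.2 (measure_ne_top _ _))
  have hy : 0 < μ.real Y := ENNReal.toReal_pos h0 (measure_ne_top _ _)
  obtain ⟨𝓦, ⟨ι, hι, W, c, hW, hc, hcost, rfl⟩, hgen⟩ :=
    exists_cheap_gen_measure (μ := μ[|Y]) (hμ.cond hY hYi)
    (by filter_upwards [hac.ae_le horb, ae_cond_mem hY] with x h1 h2 using h1.resolve_right h2)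
    hA (hAi.of_ac hac) f hf (fun g hg δ hδ => by
      obtain ⟨g', C, h1, h2, h3⟩ := exists_bdd_rep hg
      obtain ⟨n, a, γ, s, ha, hlt⟩ := happ g' (memLp_top_of_bound h1.aestronglyMeasurable C
        (ae_of_all _ h2)) (δ * μ.real Y) (mul_pos hδ hy)
      refine ⟨n, a, γ, s, fun i => (ha i).mono_ac hac, ?_⟩
      have e : {x | δ ≤ ‖g x - ∑ i, a i x * f (s i) ((γ i)⁻¹ • x)‖} =ᵐ[μ[|Y]]
          {x | δ ≤ ‖g' x - ∑ i, a i x * f (s i) ((γ i)⁻¹ • x)‖} := by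
        filter_upwards [h3] with x hx
        change (δ ≤ _) = (δ ≤ _)
        rw [hx]
      rw [measure_congr e, cond_apply hY]
      refine (ENNReal.inv_mul_le_iff h0 (measure_ne_top _ _)).2 ?_
      refine le_trans (measure_mono fun x hx => ?_) (hlt.trans (le_of_eq ?_))
      · exact le_trans (mul_le_of_le_one_right hδ.le measureReal_le_one) hx.2
      · rw [ENNReal.ofReal_mul hδ.le, ofReal_measureReal, mul_comm]) hε
  refine rokhlinEntropy_le_of_cheap hμ hA hAi hε1 (𝓦 := Set.range fun i => Y ∩ W i)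
    ⟨ι, hι, _, c, fun i => hY.inter (hW i), hc, le_trans (ENNReal.tsum_le_tsum fun i => ?_) hcost,
      rfl⟩ fun K hKm hKi hAK hI hWK s hs => ?_
  · unfold cost
    refine add_le_add (mul_le_mul_right ?_ _) le_rfl
    rw [cond_apply hY]
    exact le_mul_of_one_le_left zero_le (ENNReal.one_le_inv.2 prob_le_one)
  · obtain ⟨-, t, ht, e⟩ := hgen K ((hKi.of_ac hac).inv_aeCl (hμ.cond hY hYi))
      (hAK.trans (le_aeCl hKm)) (by
        rintro _ ⟨i, rfl⟩
        obtain ⟨-, t, ht, e⟩ := hWK _ ⟨i, rfl⟩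
        refine ⟨hW i, t, ht, EventuallyEq.trans ?_ (hac.ae_eq e)⟩
        filter_upwards [ae_cond_mem hY] with x hx
        exact propext ⟨fun h => ⟨hx, h⟩, fun h => h.2⟩) s hs
    refine ⟨hs, (t ∩ Y) ∪ (s \ Y), (ht.inter (hI _ hYI)).union (hI _ (hdiff s hs)), ?_⟩
    filter_upwards [(ae_restrict_iff' hY).1 (hac'.ae_eq e)] with x hx
    by_cases h : x ∈ Y
    · exact propext ⟨fun h' => Or.inl ⟨(hx h).mp h', h⟩,
        fun h' => h'.elim (fun h' => (hx h).mpr h'.1) fun h' => h'.1⟩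
    · exact propext ⟨fun h' => Or.inr ⟨h', h⟩, fun h' => h'.elim (fun h' => absurd h'.2 h)
        fun h' => h'.1⟩

theorem main_measure [Countable Γ] [StandardBorelSpace X] [IsProbabilityMeasure μ]
    (hμ : MP Γ μ) (horb : ∀ᵐ x ∂μ, (MulAction.orbit Γ x).Infinite ∨ ∀ γ : Γ, γ • x = x)
    (hA : A ≤ mX) (hAi : AInv Γ A μ) {𝕜 : Type*} [RCLike 𝕜] (hpos : 0 < rokhlinEntropy Γ A μ)
    {m : ℕ} (f : Fin m → X → 𝕜) (hf : ∀ s, AEStronglyMeasurable (f s) μ) :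
    ∃ g : X → 𝕜, MemLp g ∞ μ ∧ μ[g | A] =ᵐ[μ] 0 ∧ ∃ δ : ℝ, 0 < δ ∧
      ∀ (n : ℕ) (a : Fin n → X → 𝕜) (γ : Fin n → Γ) (s : Fin n → Fin m),
        (∀ i, AEStronglyMeasurable[A] (a i) μ) →
        ENNReal.ofReal δ ≤ μ {x | δ ≤ ‖g x - ∑ i, a i x * f (s i) ((γ i)⁻¹ • x)‖} := by
  by_contra hcon
  push Not at hcon
  obtain ⟨r, hr0, hr⟩ := ENNReal.lt_iff_exists_nnreal_btwn.1 (lt_min hpos one_pos)
  have h0 : (0 : ℝ≥0∞) < r / 12 := ENNReal.div_pos hr0.ne' (by norm_num)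
  have h1 : 4 * ((r : ℝ≥0∞) / 12 + r / 12 + r / 12) = r := by
    rw [← two_mul, ← add_one_mul, ← mul_assoc, show (4 : ℝ≥0∞) * (2 + 1) = 12 by norm_num,
      ENNReal.mul_div_cancel (by norm_num) (by norm_num)]
  have h2 : (r : ℝ≥0∞) / 12 + r / 12 + r / 12 ≤ 1 := by
    refine le_trans ?_ (hr.le.trans (min_le_right _ _))
    conv_rhs => rw [← h1]
    exact le_mul_of_one_le_left zero_le (by norm_num)
  have := rokhlinEntropy_le_of_measure hμ horb hA hAi (𝕜 := 𝕜) (m := m + 1)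
    (Fin.cons (fun _ => 1) fun t => (hf t).mk _) ?_ ?_ h0 h2
  · rw [h1] at this
    exact absurd (hr.trans_le (min_le_left _ _)) (not_lt.2 this)
  · refine Fin.cases ?_ fun t => ?_
    · exact stronglyMeasurable_const
    · exact (hf t).stronglyMeasurable_mk
  · intro g hg δ hδ
    have hi : Integrable g μ := hg.integrable le_top
    have hc : MemLp (μ[g | A]) ∞ μ := hg.condExp le_top
    have h0 : μ[g - μ[g | A] | A] =ᵐ[μ] 0 := by
      filter_upwards [condExp_sub hi (integrable_condExp (f := g) (m := A)) A] with x hx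
      rw [hx, condExp_of_stronglyMeasurable hA stronglyMeasurable_condExp integrable_condExp]
      simp
    obtain ⟨n, a, γ, s, ha, hlt⟩ := hcon _ (hg.sub hc) h0 δ hδ
    refine ⟨n + 1, Fin.cons (μ[g | A]) a, Fin.cons 1 γ, Fin.cons 0 fun i => (s i).succ, ?_, ?_⟩
    · refine Fin.cases ?_ fun i => ?_
      · exact stronglyMeasurable_condExp.aestronglyMeasurable
      · exact ha i
    · refine le_trans (le_of_eq (measure_congr ?_)) hlt.le
      filter_upwards [ae_all_iff.2 fun i => hμ.ae_comp (γ i)⁻¹ (hf (s i)).ae_eq_mk] with x hx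
      change (δ ≤ _) = (δ ≤ _)
      simp only [Fin.sum_univ_succ, Fin.cons_zero, Fin.cons_succ, mul_one, Pi.sub_apply, hx,
        sub_sub]

end Pool.Agent.Lib.MP_d3f853_an
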