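import Mathlib
import Pool.Agent.Lib.MP_d3f853_an.MeasC

set_option warn.classDefReducibility false

namespace Pool.Agent.Lib.MP_d3f853_an

open Function MeasureTheory Filter Topology MeasurableSpace
open scoped Pointwise ENNReal

variable {Γ X : Type*} [Group Γ] [MulAction Γ X] {A : MeasurableSpace X}
  {mX : MeasurableSpace X} {μ : Measure X}

variable (Γ) in
/-- Measurable sets that do not separate points of the orbits starting in `Q`. -/
def satSigma (mX : MeasurableSpace X) (Q : Set X) : MeasurableSpace X where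
  MeasurableSet' s := MeasurableSet[mX] s ∧ ∀ (γ : Γ) (x : X), x ∈ Q → (γ • x ∈ s ↔ x ∈ s)
  measurableSet_empty := ⟨MeasurableSet.empty, fun _ _ _ => Iff.rfl⟩
  measurableSet_compl _ hs := ⟨hs.1.compl, fun γ x hx => not_congr (hs.2 γ x hx)⟩
  measurableSet_iUnion f hf := ⟨MeasurableSet.iUnion fun i => (hf i).1, fun γ x hx => by
    simp only [Set.mem_iUnion]
    exact exists_congr fun i => (hf i).2 γ x hx⟩

theorem satSigma_le {Q : Set X} : satSigma Γ mX Q ≤ mX := fun _ hs => hs.1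

theorem satSigma_anti {Q Q' : Set X} (h : Q' ⊆ Q) : satSigma Γ mX Q ≤ satSigma Γ mX Q' :=
  fun _ hs => ⟨hs.1, fun γ x hx => hs.2 γ x (h hx)⟩

theorem inv_satSigma (hX : Inv Γ mX) {Q : Set X} : Inv Γ (satSigma Γ mX Q) := by
  intro δ s hs
  refine ⟨hX δ hs.1, fun γ x hx => ?_⟩
  simp only [Set.mem_preimage, smul_smul]
  exact (hs.2 _ x hx).trans (hs.2 _ x hx).symm

theorem invSigma_le_satSigma {Q : Set X} : @invSigma Γ X _ mX ≤ satSigma Γ mX Q := by
  intro s hs
  refine ⟨invSigma_le s hs, fun γ x _ => ?_⟩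
  have h : (fun x : X => γ • x) ⁻¹' s = s := (MeasurableSpace.measurableSet_iInf.1 hs γ).2
  exact Set.ext_iff.1 h x

theorem satSigma_apply {Q : Set X} {Y : Type*} [TopologicalSpace Y]
    [TopologicalSpace.MetrizableSpace Y] {φ : X → Y}
    (hφ : StronglyMeasurable[satSigma Γ mX Q] φ) (γ : Γ) {x : X} (hx : x ∈ Q) :
    φ (γ • x) = φ x :=
  ((hφ.measurableSet_eq_fun (g := fun _ => φ x) stronglyMeasurable_const).2 γ x hx).2 rfl

theorem measure_low_le [IsProbabilityMeasure μ] (hA : A ≤ mX) {α : X → ℕ}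
    (hα : Measurable[mX] α) :
    μ {x | (μ[(α ⁻¹' {α x}).indicator (fun _ => (1 : ℝ)) | A]) x ≤ 1 / 2} ≤
      2 * condEntropy A μ α := by
  set p : ℕ → X → ℝ := fun n => μ[(α ⁻¹' {n}).indicator (fun _ => (1 : ℝ)) | A] with hp
  have hs : ∀ n, MeasurableSet[mX] (α ⁻¹' {n}) := fun n => hα (measurableSet_singleton n)
  have hT : ∀ n, MeasurableSet[A] {x | p n x ≤ 1 / 2} := fun n =>
    measurableSet_le stronglyMeasurable_condExp.measurable measurable_const
  have h0 : ∀ n, 0 ≤ᵐ[μ] p n := fun n =>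
    condExp_nonneg (ae_of_all _ fun x => Set.indicator_nonneg (by simp) x)
  refine le_trans (measure_mono (t := ⋃ n, {x | p n x ≤ 1 / 2} ∩ α ⁻¹' {n})
    fun x hx => Set.mem_iUnion.2 ⟨α x, hx, rfl⟩) ((measure_iUnion_le _).trans ?_)
  unfold condEntropy
  rw [← ENNReal.tsum_mul_left]
  refine ENNReal.tsum_le_tsum fun n => ?_
  rw [← ofReal_measureReal, ← setIntegral_condExp_ind hA (hs n) (hT n),
    ofReal_integral_eq_lintegral_ofReal integrable_condExp.integrableOn
      (ae_restrict_of_ae (h0 n)), ← lintegral_const_mul' _ _ ENNReal.ofNat_ne_top,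
    ← lintegral_indicator (hA _ (hT n))]
  refine lintegral_mono_ae ?_
  filter_upwards [h0 n] with x hx
  by_cases h : x ∈ {x | p n x ≤ 1 / 2}
  · rw [Set.indicator_of_mem h, ← ENNReal.ofReal_ofNat, ← ENNReal.ofReal_mul (by norm_num)]
    refine ENNReal.ofReal_le_ofReal ?_
    change p n x ≤ 2 * Real.negMulLog (p n x)
    have h' : p n x ≤ 1 / 2 := h
    have hx' : 0 ≤ p n x := hx
    rcases hx'.eq_or_lt with e | e
    · rw [← e]; simp
    · have := Real.log_le_sub_one_of_pos e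
      rw [Real.negMulLog]
      nlinarith
  · rw [Set.indicator_of_notMem h]
    exact zero_le

theorem measure_move_le [IsProbabilityMeasure μ] (hμ : MP Γ μ) {Q : Set X} {α : X → ℕ}
    (hα : Measurable[mX] α) (γ : Γ) :
    μ {x | x ∈ Q ∧ α (γ • x) ≠ α x} ≤ 4 * condEntropy (satSigma Γ mX Q) μ α := by
  have hA : satSigma Γ mX Q ≤ mX := satSigma_le
  set p : ℕ → X → ℝ := fun n =>
    μ[(α ⁻¹' {n}).indicator (fun _ => (1 : ℝ)) | satSigma Γ mX Q] with hp
  have hs : ∀ n, MeasurableSet[mX] (α ⁻¹' {n}) := fun n => hα (measurableSet_singleton n)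
  have hi : ∀ n, Integrable ((α ⁻¹' {n}).indicator (fun _ => (1 : ℝ))) μ := fun n =>
    (integrable_const 1).indicator (hs n)
  have hsum : ∀ n n', n ≠ n' → ∀ᵐ x ∂μ, p n x + p n' x ≤ 1 := by
    intro n n' hne
    have h1 := condExp_mono (m := satSigma Γ mX Q) ((hi n).add (hi n')) (integrable_const (1 : ℝ))
      (ae_of_all _ fun x => by
        by_cases a : α x = n
        · simp [a, hne]
        · by_cases b : α x = n' <;> simp [a, b, hne.symm])
    rw [condExp_const hA] at h1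
    filter_upwards [h1, condExp_add (hi n) (hi n') (satSigma Γ mX Q)] with x h2 h3
    rw [h3] at h2
    exact h2
  set L : Set X := {x | p (α x) x ≤ 1 / 2} with hL
  have hLm : MeasurableSet[mX] L := by
    have : L = ⋃ n, {x | p n x ≤ 1 / 2} ∩ α ⁻¹' {n} := by
      ext x
      simp only [hL, Set.mem_ofPred_eq, Set.mem_iUnion, Set.mem_inter_iff, Set.mem_preimage,
        Set.mem_singleton_iff]
      exact ⟨fun h => ⟨_, h, rfl⟩, fun ⟨n, h, e⟩ => e ▸ h⟩
    rw [this]
    exact MeasurableSet.iUnion fun n => (measurableSet_le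
      (stronglyMeasurable_condExp.mono hA).measurable measurable_const).inter (hs n)
  have hle : μ L ≤ 2 * condEntropy (satSigma Γ mX Q) μ α := measure_low_le hA hα
  have hsub : {x | x ∈ Q ∧ α (γ • x) ≠ α x} ≤ᵐ[μ] (L ∪ (fun x => γ • x) ⁻¹' L : Set X) := by
    filter_upwards [ae_all_iff.2 fun n => ae_all_iff.2 fun n' =>
      (eventually_imp_distrib_left.2 (hsum n n'))] with x hx h
    have h1 := hx _ _ h.2
    have h2 : p (α (γ • x)) (γ • x) = p (α (γ • x)) x :=
      satSigma_apply stronglyMeasurable_condExp γ h.1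
    by_cases h3 : p (α x) x ≤ 1 / 2
    · exact Or.inl h3
    · refine Or.inr ?_
      change p (α (γ • x)) (γ • x) ≤ 1 / 2
      rw [h2]
      linarith [not_le.1 h3]
  refine (measure_mono_ae hsub).trans ((measure_union_le _ _).trans ?_)
  rw [(hμ γ).measure_preimage hLm.nullMeasurableSet, show (4 : ℝ≥0∞) = 2 + 2 by norm_num, add_mul]
  exact add_le_add hle hle

theorem satSigma_entropy_pos [Countable Γ] [StandardBorelSpace X] [IsProbabilityMeasure μ]
    (hμ : MP Γ μ) {Q : Set X} (hQ0 : μ Q ≠ 0) (hQ1 : ∀ x ∈ Q, ∃ γ : Γ, γ • x ≠ x) (Δ : Finset Γ)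
    (hQ2 : ∀ x ∈ Q, ∀ γ : Γ, ∃ δ ∈ Δ, δ • x = γ • x) :
    0 < @rokhlinEntropy Γ X _ (satSigma Γ mX Q) mX μ := by
  have hc : (Δ.card : ℝ≥0∞) * 4 ≠ ∞ := ENNReal.mul_ne_top (ENNReal.natCast_ne_top _) (by norm_num)
  refine lt_of_lt_of_le (ENNReal.div_pos hQ0 hc) ?_
  refine le_iInf fun α => le_iInf fun hα => le_iInf fun hgen => ?_
  rw [sup_eq_left.2 invSigma_le_satSigma]
  refine ENNReal.div_le_of_le_mul' ?_
  set N : Set X := {x | x ∈ Q ∧ ∀ γ : Γ, α (γ • x) = α x} with hN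
  have hK : orbitSigma Γ α ⊔ satSigma Γ mX Q ⊔ @invSigma Γ X _ mX ≤ satSigma Γ mX N := by
    refine sup_le (sup_le (iSup_le fun δ => ?_) (satSigma_anti fun x hx => hx.1))
      invSigma_le_satSigma
    rintro _ ⟨s, -, rfl⟩
    refine ⟨(hα.comp (hμ.inv δ)) trivial, fun γ x hx => ?_⟩
    simp only [Set.mem_preimage, smul_smul, hx.2]
  have hPm : ∀ k, MeasurableSet[mX] {x | mapNatBool X x k = true} := fun k =>
    ((measurable_pi_apply k).comp (measurable_mapNatBool X)) (measurableSet_singleton true)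
  choose t ht hte using fun k => hgen _ (hPm k)
  have hN0 : ∀ᵐ x ∂μ, x ∉ N := by
    filter_upwards [ae_all_iff.2 fun k => ae_all_iff.2 fun γ : Γ => hμ.ae_comp γ (hte k),
      ae_all_iff.2 hte] with x h1 h2 hx
    obtain ⟨γ, hγ⟩ := hQ1 x hx.1
    refine hγ (injective_mapNatBool X (funext fun k => Bool.eq_iff_iff.2 ?_))
    exact (iff_of_eq (h1 k γ)).trans (((hK _ (ht k)).2 γ x hx).trans (iff_of_eq (h2 k)).symm)
  have hsub : Q ≤ᵐ[μ] (⋃ δ ∈ Δ, {x | x ∈ Q ∧ α (δ • x) ≠ α x} : Set X) := by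
    filter_upwards [hN0] with x hx h
    by_contra hcon
    refine hx ⟨h, fun γ => ?_⟩
    obtain ⟨δ, hδ, e⟩ := hQ2 x h γ
    by_contra hne
    exact hcon (Set.mem_iUnion₂.2 ⟨δ, hδ, h, by rwa [e]⟩)
  refine (measure_mono_ae hsub).trans ((measure_biUnion_finset_le _ _).trans ?_)
  refine (Finset.sum_le_sum fun δ _ => measure_move_le hμ hα δ).trans (le_of_eq ?_)
  rw [Finset.sum_const, nsmul_eq_mul, mul_assoc]

theorem exists_good_set [Countable Γ] [StandardBorelSpace X] (hX : Inv Γ mX)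
    (h : 0 < μ {x | (MulAction.orbit Γ x).Finite ∧ ∃ γ : Γ, γ • x ≠ x}) :
    ∃ (Q : Set X) (Δ : Finset Γ) (N : ℕ), MeasurableSet[mX] Q ∧ μ Q ≠ 0 ∧
      (∀ (γ : Γ) (x : X), γ • x ∈ Q ↔ x ∈ Q) ∧ (∀ x ∈ Q, ∃ γ : Γ, γ • x ≠ x) ∧
      (∀ x ∈ Q, ∀ γ : Γ, ∃ δ ∈ Δ, δ • x = γ • x) ∧
      ∀ x ∈ Q, ∀ γ : Γ, (∀ k < N, mapNatBool X (γ • x) k = mapNatBool X x k) → γ • x = x := by
  let R : Finset Γ × ℕ → Set X := fun q => {x | (∃ γ : Γ, γ • x ≠ x) ∧
    (∀ γ : Γ, ∃ δ ∈ q.1, δ • x = γ • x) ∧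
    ∀ γ : Γ, (∀ k < q.2, mapNatBool X (γ • x) k = mapNatBool X x k) → γ • x = x}
  let Q : Finset Γ × ℕ → Set X := fun q => {x | ∀ σ : Γ, σ • x ∈ R q}
  have hP : ∀ k, Measurable[mX] fun x => mapNatBool X x k := fun k =>
    (measurable_pi_apply k).comp (measurable_mapNatBool X)
  have hR : ∀ q, MeasurableSet[mX] (R q) := by
    intro q
    refine MeasurableSet.inter ?_ (MeasurableSet.inter ?_ ?_)
    · change MeasurableSet {x : X | ∃ γ : Γ, γ • x ≠ x}
      simp only [Set.ofPred_exists]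
      exact MeasurableSet.iUnion fun γ => (measurableSet_fix hX γ).compl
    · change MeasurableSet {x : X | ∀ γ : Γ, ∃ δ ∈ q.1, δ • x = γ • x}
      simp only [Set.ofPred_forall, Set.ofPred_exists]
      exact MeasurableSet.iInter fun γ => MeasurableSet.iUnion fun δ =>
        (MeasurableSet.const _).inter (measurableSet_eq_fun (hX δ) (hX γ))
    · change MeasurableSet {x : X | ∀ γ : Γ,
        (∀ k < q.2, mapNatBool X (γ • x) k = mapNatBool X x k) → γ • x = x}
      rw [Set.ofPred_forall]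
      refine MeasurableSet.iInter fun γ => MeasurableSet.imp ?_ (measurableSet_fix hX γ)
      simp only [Set.ofPred_forall]
      exact MeasurableSet.iInter fun k => MeasurableSet.iInter fun _ =>
        measurableSet_eq_fun ((hP k).comp (hX γ)) (hP k)
  have hcov : {x | (MulAction.orbit Γ x).Finite ∧ ∃ γ : Γ, γ • x ≠ x} ⊆ ⋃ q, Q q := by
    rintro x ⟨hfin, hne⟩
    have h1 : ∀ᶠ Δ : Finset Γ in atTop, ∀ y ∈ MulAction.orbit Γ x, ∀ z ∈ MulAction.orbit Γ x,
        ∃ δ ∈ Δ, δ • y = z := by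
      refine (eventually_all_finite hfin).2 ?_
      rintro _ ⟨a, rfl⟩
      refine (eventually_all_finite hfin).2 ?_
      rintro _ ⟨b, rfl⟩
      filter_upwards [eventually_ge_atTop {b * a⁻¹}] with Δ hΔ
      exact ⟨b * a⁻¹, hΔ (Finset.mem_singleton_self _), by simp [mul_smul]⟩
    have h2 : ∀ᶠ N : ℕ in atTop, ∀ y ∈ MulAction.orbit Γ x, ∀ z ∈ MulAction.orbit Γ x,
        (∀ k < N, mapNatBool X y k = mapNatBool X z k) → y = z := by
      refine (eventually_all_finite hfin).2 fun y _ => (eventually_all_finite hfin).2 fun z _ => ?_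
      by_cases e : y = z
      · exact Eventually.of_forall fun _ _ => e
      · obtain ⟨i, hi⟩ := Function.ne_iff.1 ((injective_mapNatBool X).ne e)
        filter_upwards [eventually_gt_atTop i] with N hN h using absurd (h i hN) hi
    obtain ⟨Δ, hΔ⟩ := h1.exists
    obtain ⟨N, hN⟩ := h2.exists
    refine Set.mem_iUnion.2 ⟨(Δ, N), fun σ => ⟨?_, fun γ => ?_, fun γ => ?_⟩⟩
    · by_contra hcon
      simp only [not_exists, not_not] at hcon
      obtain ⟨γ, hγ⟩ := hne
      exact hγ ((fix_smul_iff σ x).1 hcon γ)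
    · exact hΔ _ ⟨σ, rfl⟩ _ ⟨γ * σ, mul_smul _ _ _⟩
    · exact hN _ ⟨γ * σ, mul_smul _ _ _⟩ _ ⟨σ, rfl⟩
  obtain ⟨q, hq⟩ : ∃ q, μ (Q q) ≠ 0 := by
    by_contra hcon
    simp only [not_exists, not_not] at hcon
    exact h.ne' (measure_mono_null hcov (measure_iUnion_null hcon))
  have hQR : ∀ x ∈ Q q, x ∈ R q := fun x hx => by simpa using hx 1
  refine ⟨Q q, q.1, q.2, ?_, hq, fun γ x => ⟨fun h σ => ?_, fun h σ => ?_⟩,
    fun x hx => (hQR x hx).1, fun x hx => (hQR x hx).2.1, fun x hx => (hQR x hx).2.2⟩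
  · simp only [Q, Set.ofPred_forall]
    exact MeasurableSet.iInter fun σ => hX σ (hR q)
  · have := h (σ * γ⁻¹)
    rwa [mul_smul, inv_smul_smul] at this
  · rw [smul_smul]
    exact h _

end Pool.Agent.Lib.MP_d3f853_an
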