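import Mathlib
import Pool.Agent.Lib.MP_d3f853_an.ClassA

namespace Pool.Agent.Lib.MP_d3f853_an

open Function MeasureTheory Filter Topology MeasurableSpace
open scoped Pointwise ENNReal

variable {Γ X : Type*} [Group Γ] [MulAction Γ X] {A : MeasurableSpace X}
  {mX : MeasurableSpace X} {μ : Measure X} {𝕜 : Type*} [RCLike 𝕜]

theorem condExp_zero_iff [IsFiniteMeasure μ] (hA : A ≤ mX) {g : X → 𝕜} (hg : Integrable g μ) :
    μ[g | A] =ᵐ[μ] 0 ↔ ∀ s, MeasurableSet[A] s → ∫ x in s, g x ∂μ = 0 := by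
  constructor
  · intro h s hs
    rw [← setIntegral_condExp hA hg hs, integral_congr_ae (ae_restrict_of_ae h)]
    simp
  · intro h
    exact (ae_eq_condExp_of_forall_setIntegral_eq hA hg
      (fun s _ _ => (integrable_zero _ _ _).integrableOn) (fun s hs _ => by simp [h s hs])
      stronglyMeasurable_zero.aestronglyMeasurable).symm

theorem condExp_mul_left {a g : X → 𝕜} (ha : AEStronglyMeasurable[A] a μ)
    (hag : Integrable (fun x => a x * g x) μ) (hg : Integrable g μ) :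
    μ[fun x => a x * g x | A] =ᵐ[μ] fun x => a x * (μ[g | A]) x :=
  condExp_bilin_of_aestronglyMeasurable_left (ContinuousLinearMap.mul ℝ 𝕜) ha hag hg

theorem condExp_zero_of_mem [IsFiniteMeasure μ] (hμ : MP Γ μ) (hA : A ≤ mX) (hAi : Inv Γ A)
    {m : ℕ} {f : Fin m → Lp 𝕜 1 μ} (hf : ∀ s, μ[f s | A] =ᵐ[μ] 0) {g : Lp 𝕜 1 μ}
    (hg : g ∈ orbitModule Γ A f) : μ[g | A] =ᵐ[μ] 0 := by
  rw [condExp_zero_iff hA (L1.integrable_coeFn g)]
  intro t ht
  have hcl : IsClosed {g : Lp 𝕜 1 μ | ∫ x in t, g x ∂μ = 0} :=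
    isClosed_eq (continuous_setIntegral t) continuous_const
  refine closure_minimal (fun g hg => ?_) hcl hg
  induction hg using Submodule.span_induction with
  | mem g hg =>
    obtain ⟨a, γ, s, ha, hab, h⟩ := hg
    obtain ⟨a', C, -, hC, e'⟩ := exists_bdd_rep hab
    have hb : StronglyMeasurable[A] fun x => t.indicator (ha.mk a) (γ • x) :=
      (ha.stronglyMeasurable_mk.indicator ht).comp_measurable (hAi γ)
    have hi : Integrable (fun x => t.indicator (ha.mk a) (γ • x) * f s x) μ := by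
      refine (L1.integrable_coeFn (f s)).bdd_mul (c := max C 0)
        (hb.mono hA).aestronglyMeasurable ?_
      filter_upwards [hμ.ae_comp γ ha.ae_eq_mk, hμ.ae_comp γ e'] with x h1 h2
      refine (norm_indicator_le_norm_self _ _).trans ?_
      rw [← h1, h2]
      exact (hC _).trans (le_max_left _ _)
    have h1 := condExp_mul_left hb.aestronglyMeasurable hi (L1.integrable_coeFn (f s))
    have h2 : ∫ x, t.indicator (ha.mk a) (γ • x) * f s x ∂μ = 0 := by
      rw [← integral_condExp hA, integral_congr_ae h1, integral_congr_ae (g := fun _ => 0)]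
      · simp
      · filter_upwards [hf s] with x hx
        rw [hx]; simp
    have h3 := integral_map (μ := μ) (φ := fun x : X => γ⁻¹ • x)
      (f := fun x => t.indicator (ha.mk a) (γ • x) * f s x) (hμ γ⁻¹).measurable.aemeasurable
      (by rw [(hμ γ⁻¹).map_eq]; exact hi.aestronglyMeasurable)
    rw [(hμ γ⁻¹).map_eq, h2] at h3
    change ∫ x in t, g x ∂μ = 0
    rw [← integral_indicator (hA _ ht), h3]
    refine integral_congr_ae ?_
    filter_upwards [h, ha.ae_eq_mk] with x h4 h5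
    rw [smul_inv_smul]
    by_cases hx : x ∈ t
    · rw [Set.indicator_of_mem hx, Set.indicator_of_mem hx, h4, h5]
    · rw [Set.indicator_of_notMem hx, Set.indicator_of_notMem hx, zero_mul]
  | zero =>
    change ∫ x in t, (0 : Lp 𝕜 1 μ) x ∂μ = 0
    rw [integral_congr_ae (ae_restrict_of_ae (Lp.coeFn_zero 𝕜 1 μ))]
    simp
  | add g g' _ _ h h' =>
    change ∫ x in t, (g + g') x ∂μ = 0
    rw [integral_congr_ae (ae_restrict_of_ae (Lp.coeFn_add g g'))]
    simp only [Pi.add_apply]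
    rw [integral_add (L1.integrable_coeFn g).integrableOn (L1.integrable_coeFn g').integrableOn,
      show ∫ x in t, g x ∂μ = 0 from h, show ∫ x in t, g' x ∂μ = 0 from h', add_zero]
  | smul c g _ h =>
    change ∫ x in t, (c • g) x ∂μ = 0
    rw [integral_congr_ae (ae_restrict_of_ae (Lp.coeFn_smul c g))]
    simp only [Pi.smul_apply]
    rw [integral_smul, show ∫ x in t, g x ∂μ = 0 from h, smul_zero]

theorem stronglyMeasurable_satSigma {Q : Set X} {φ : X → 𝕜} (hφ : Measurable[mX] φ)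
    (hi : ∀ (γ : Γ) (x : X), x ∈ Q → φ (γ • x) = φ x) :
    StronglyMeasurable[satSigma Γ mX Q] φ := by
  refine Measurable.stronglyMeasurable fun s hs => ⟨hφ hs, fun γ x hx => ?_⟩
  simp only [Set.mem_preimage, hi γ x hx]

theorem exists_orbit_value [Countable Γ] (hX : Inv Γ mX) {T : Set X} (hT : MeasurableSet[mX] T)
    (huniq : ∀ x ∈ T, ∀ γ : Γ, γ • x ∈ T → γ • x = x) {g : X → 𝕜} (hg : Measurable[mX] g) {C : ℝ}
    (hC : ∀ x, ‖g x‖ ≤ C) :
    ∃ a : X → 𝕜, Measurable[mX] a ∧ (∀ x, ‖a x‖ ≤ C) ∧ (∀ (γ : Γ) x, a (γ • x) = a x) ∧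
      ∀ x ∈ T, a x = g x := by
  classical
  let a : X → 𝕜 := fun x => if h : ∃ γ : Γ, γ • x ∈ T then g (h.choose • x) else 0
  have h1 : ∀ (γ : Γ) x, γ • x ∈ T → a x = g (γ • x) := by
    intro γ x hx
    have h : ∃ γ : Γ, γ • x ∈ T := ⟨γ, hx⟩
    have := huniq _ hx (h.choose * γ⁻¹) (by rw [mul_smul, inv_smul_smul]; exact h.choose_spec)
    rw [mul_smul, inv_smul_smul] at this
    simp only [a, dif_pos h, this]
  have h2 : ∀ x, (¬ ∃ γ : Γ, γ • x ∈ T) → a x = 0 := fun x hx => dif_neg hx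
  refine ⟨a, fun s hs => ?_, fun x => ?_, fun γ x => ?_, fun x hx => ?_⟩
  · have : a ⁻¹' s = (⋃ γ : Γ, (fun x => γ • x) ⁻¹' (T ∩ g ⁻¹' s)) ∪
        ((⋃ γ : Γ, (fun x => γ • x) ⁻¹' T)ᶜ ∩ {_x | (0 : 𝕜) ∈ s}) := by
      ext x
      simp only [Set.mem_preimage, Set.mem_union, Set.mem_iUnion, Set.mem_inter_iff,
        Set.mem_compl_iff, Set.mem_ofPred_eq]
      by_cases h : ∃ γ : Γ, γ • x ∈ T
      · obtain ⟨γ, hγ⟩ := h
        refine ⟨fun h => Or.inl ⟨γ, hγ, h1 γ x hγ ▸ h⟩, ?_⟩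
        rintro (⟨δ, hδ, h⟩ | h)
        · rwa [h1 δ x hδ]
        · exact absurd ⟨γ, hγ⟩ h.1
      · rw [h2 x h]
        exact ⟨fun h' => Or.inr ⟨h, h'⟩, fun h' => h'.elim (fun ⟨δ, hδ, _⟩ => absurd ⟨δ, hδ⟩ h)
          fun h' => h'.2⟩
    rw [this]
    exact (MeasurableSet.iUnion fun γ => hX γ (hT.inter (hg hs))).union
      ((MeasurableSet.iUnion fun γ => hX γ hT).compl.inter (MeasurableSet.const _))
  · by_cases h : ∃ γ : Γ, γ • x ∈ T
    · obtain ⟨γ, hγ⟩ := h
      rw [h1 γ x hγ]; exact hC _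
    · rw [h2 x h, norm_zero]; exact (norm_nonneg _).trans (hC x)
  · by_cases h : ∃ δ : Γ, δ • γ • x ∈ T
    · obtain ⟨δ, hδ⟩ := h
      rw [h1 δ _ hδ, h1 (δ * γ) x (by rwa [mul_smul]), mul_smul]
    · rw [h2 _ h, h2]
      rintro ⟨δ, hδ⟩
      exact h ⟨δ * γ⁻¹, by rwa [mul_smul, inv_smul_smul]⟩
  · rw [h1 1 x (by rwa [one_smul]), one_smul]

theorem satSigma_generated [Countable Γ] [StandardBorelSpace X] [IsProbabilityMeasure μ]
    (hμ : MP Γ μ) {Q : Set X} (hQ : MeasurableSet[mX] Q)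
    (hQi : ∀ (γ : Γ) (x : X), γ • x ∈ Q ↔ x ∈ Q) (N : ℕ)
    (hQ3 : ∀ x ∈ Q, ∀ γ : Γ, (∀ k < N, mapNatBool X (γ • x) k = mapNatBool X x k) → γ • x = x)
    (𝕜 : Type*) [RCLike 𝕜] :
    ∃ (m : ℕ) (f : Fin m → Lp 𝕜 1 μ), 1 ≤ m ∧ (∀ s, μ[f s | satSigma Γ mX Q] =ᵐ[μ] 0) ∧
      ∀ g : Lp 𝕜 1 μ, g ∈ orbitModule Γ (satSigma Γ mX Q) f ↔
        μ[g | satSigma Γ mX Q] =ᵐ[μ] 0 := by
  classical
  have hA : satSigma Γ mX Q ≤ mX := satSigma_le
  let e := (Fintype.equivFin (Fin N → Bool)).symm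
  let T : Fin (Fintype.card (Fin N → Bool)) → Set X := fun w =>
    Q ∩ {x | ∀ k : Fin N, mapNatBool X x k = e w k}
  have hT : ∀ w, MeasurableSet[mX] (T w) := by
    intro w
    refine hQ.inter ?_
    simp only [Set.ofPred_forall]
    exact MeasurableSet.iInter fun k => measurableSet_eq_fun
      ((measurable_pi_apply (k : ℕ)).comp (measurable_mapNatBool X)) measurable_const
  have huniq : ∀ w, ∀ x ∈ T w, ∀ γ : Γ, γ • x ∈ T w → γ • x = x := fun w x hx γ hγ =>
    hQ3 x hx.1 γ fun k hk => (hγ.2 ⟨k, hk⟩).trans (hx.2 ⟨k, hk⟩).symm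
  let I : Fin (Fintype.card (Fin N → Bool)) → X → 𝕜 := fun w => (T w).indicator fun _ => 1
  have hI : ∀ w, Integrable (I w) μ := fun w => (integrable_const 1).indicator (hT w)
  have hsub : ∀ g : X → 𝕜, Integrable g μ →
      μ[g - μ[g | satSigma Γ mX Q] | satSigma Γ mX Q] =ᵐ[μ] 0 := by
    intro g hi
    filter_upwards [condExp_sub hi (integrable_condExp (f := g) (m := satSigma Γ mX Q))
      (satSigma Γ mX Q)] with x hx
    rw [hx, condExp_of_stronglyMeasurable hA stronglyMeasurable_condExp integrable_condExp]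
    simp
  have hF : ∀ w, Integrable (I w - μ[I w | satSigma Γ mX Q]) μ := fun w =>
    (hI w).sub integrable_condExp
  have hf0 : ∀ w, μ[(hF w).toL1 _ | satSigma Γ mX Q] =ᵐ[μ] 0 := fun w =>
    (condExp_congr_ae (hF w).coeFn_toL1).trans (hsub _ (hI w))
  refine ⟨_, fun w => (hF w).toL1 _, Fintype.card_pos, hf0, fun g =>
    ⟨condExp_zero_of_mem hμ hA (inv_satSigma hμ.inv) hf0, fun hg => ?_⟩⟩
  refine Metric.mem_closure_iff.2 fun r hr => ?_
  obtain ⟨u, hub, hud⟩ := exists_dense_bdd (μ := μ) 𝕜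
  obtain ⟨n, hn⟩ := hud.exists_dist_lt g (half_pos hr)
  obtain ⟨g', C, hg'm, hC, hg'⟩ := exists_bdd_rep (hub n)
  have hg'i : Integrable g' μ := (L1.integrable_coeFn (u n)).congr hg'
  choose a ham hab hai haT using fun w =>
    exists_orbit_value hμ.inv (hT w) (huniq w) hg'm.measurable hC
  have haA : ∀ w, StronglyMeasurable[satSigma Γ mX Q] (a w) := fun w =>
    stronglyMeasurable_satSigma (ham w) fun γ x _ => hai w γ x
  have haX : ∀ w, AEStronglyMeasurable (a w) μ := fun w => ((haA w).mono hA).aestronglyMeasurable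
  have hint : ∀ w, Integrable (fun x => a w x * (I w - μ[I w | satSigma Γ mX Q]) x) μ := fun w =>
    (hF w).bdd_mul (haX w) (ae_of_all _ (hab w))
  have hintI : ∀ w, Integrable (fun x => a w x * I w x) μ := fun w =>
    (hI w).bdd_mul (haX w) (ae_of_all _ (hab w))
  refine ⟨∑ w, (hint w).toL1 _, Submodule.sum_mem _ fun w _ => Submodule.subset_span
    ⟨a w, 1, w, (haA w).aestronglyMeasurable,
      memLp_top_of_bound (haX w) C (ae_of_all _ (hab w)), ?_⟩, ?_⟩
  · filter_upwards [(hint w).coeFn_toL1, (hF w).coeFn_toL1] with x h1 h2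
    rw [h1, inv_one, one_smul, h2]
  have hdec : g' = Qᶜ.indicator g' + ∑ w, fun x => a w x * I w x := by
    funext x
    rw [Pi.add_apply, Finset.sum_apply]
    by_cases hx : x ∈ Q
    · have hw : x ∈ T (e.symm fun k => mapNatBool X x k) := ⟨hx, fun k => by simp⟩
      rw [Set.indicator_of_notMem (s := Qᶜ) (fun h => h hx), zero_add,
        Finset.sum_eq_single (e.symm fun k => mapNatBool X x k)]
      · simp only [I, Set.indicator_of_mem hw, mul_one, haT _ x hw]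
      · intro w _ hne
        have : x ∉ T w := fun h => hne (e.eq_symm_apply.2 (funext fun k => (h.2 k).symm))
        simp only [I, Set.indicator_of_notMem this, mul_zero]
      · simp
    · rw [Set.indicator_of_mem (s := Qᶜ) hx, Finset.sum_eq_zero, add_zero]
      intro w _
      have : x ∉ T w := fun h => hx h.1
      simp only [I, Set.indicator_of_notMem this, mul_zero]
  have hc : StronglyMeasurable[satSigma Γ mX Q] (Qᶜ.indicator g') := by
    refine stronglyMeasurable_satSigma (hg'm.measurable.indicator hQ.compl) fun γ x hx => ?_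
    rw [Set.indicator_of_notMem (s := Qᶜ) (fun h => h hx),
      Set.indicator_of_notMem (s := Qᶜ) (fun h => h ((hQi γ x).2 hx))]
  have hci : Integrable (Qᶜ.indicator g') μ := hg'i.indicator hQ.compl
  have hE : μ[g' | satSigma Γ mX Q] =ᵐ[μ]
      fun x => Qᶜ.indicator g' x + ∑ w, a w x * (μ[I w | satSigma Γ mX Q]) x := by
    have h1 := condExp_add hci (integrable_finsetSum' Finset.univ fun w _ => hintI w)
      (satSigma Γ mX Q)
    rw [← hdec, condExp_of_stronglyMeasurable hA hc hci] at h1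
    filter_upwards [h1, condExp_finsetSum (s := Finset.univ) (fun w _ => hintI w)
      (satSigma Γ mX Q), ae_all_iff.2 fun w =>
        condExp_mul_left (A := satSigma Γ mX Q) (haA w).aestronglyMeasurable (hintI w)
          (hI w)] with x h2 h3 h4
    rw [h2, Pi.add_apply, h3, Finset.sum_apply]
    simp only [h4]
  have hgi : Integrable ((g : X → 𝕜) - g') μ := (L1.integrable_coeFn g).sub hg'i
  have hd : ∫ x, ‖((g : X → 𝕜) - g') x‖ ∂μ < r / 2 := by
    rw [dist_eq_norm, L1.norm_eq_integral_norm] at hn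
    refine lt_of_eq_of_lt (integral_congr_ae ?_) hn
    filter_upwards [hg', Lp.coeFn_sub g (u n)] with x h1 h2
    rw [h2, Pi.sub_apply, Pi.sub_apply, h1]
  rw [dist_eq_norm, L1.norm_eq_integral_norm]
  have hle := integral_norm_condExp_le (μ := μ) (m := satSigma Γ mX Q) ((g : X → 𝕜) - g')
  have hi2 : Integrable (μ[(g : X → 𝕜) - g' | satSigma Γ mX Q]) μ := integrable_condExp
  refine lt_of_le_of_lt (integral_mono_ae (L1.integrable_coeFn _).norm (hgi.norm.add hi2.norm) ?_) ?_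
  · filter_upwards [Lp.coeFn_sub g (∑ w, (hint w).toL1 _),
      Lp.coeFn_finsetSum Finset.univ fun w => (hint w).toL1 _,
      ae_all_iff.2 fun w => (hint w).coeFn_toL1, hE, hg,
      condExp_sub (L1.integrable_coeFn g) hg'i (satSigma Γ mX Q)] with x h1 h2 h3 h4 h5 h6
    refine le_trans (le_of_eq ?_) (norm_sub_le _ _)
    rw [h1, Pi.sub_apply, h2, Finset.sum_apply, h6, Pi.sub_apply, Pi.sub_apply, h5, h4]
    have h7 := congrFun hdec x
    rw [Pi.add_apply, Finset.sum_apply] at h7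
    rw [Finset.sum_congr rfl fun i _ => h3 i]
    simp only [Pi.sub_apply, mul_sub, Finset.sum_sub_distrib, Pi.zero_apply]
    congr 1
    linear_combination h7
  · simp only [Pi.add_apply]
    rw [integral_add hgi.norm hi2.norm]
    linarith

theorem exists_not_mem [Countable Γ] [StandardBorelSpace X] [IsProbabilityMeasure μ]
    (hμ : MP Γ μ) (horb : ∀ᵐ x ∂μ, (MulAction.orbit Γ x).Infinite ∨ ∀ γ : Γ, γ • x = x)
    (hA : A ≤ mX) (hAi : AInv Γ A μ) (hpos : 0 < rokhlinEntropy Γ A μ)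
    {m : ℕ} (f : Fin m → Lp 𝕜 1 μ) :
    ∃ g : Lp 𝕜 1 μ, μ[g | A] =ᵐ[μ] 0 ∧ g ∉ orbitModule Γ A f := by
  obtain ⟨g, hg, hg0, δ, hδ, h⟩ := main_measure hμ horb hA hAi hpos (fun s => f s)
    fun s => Lp.aestronglyMeasurable (f s)
  have hi : Integrable g μ := hg.integrable le_top
  refine ⟨hi.toL1 g, (condExp_congr_ae hi.coeFn_toL1).trans hg0, fun hmem => ?_⟩
  obtain ⟨g', hg', hd⟩ := Metric.mem_closure_iff.1 hmem (δ * δ) (mul_pos hδ hδ)
  obtain ⟨n, c, v, rfl⟩ := Submodule.mem_span_set'.1 hg'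
  choose a γ s ha _ hv using fun i => (v i).2
  have h1 := h n (fun i x => c i * a i x) γ s fun i => (ha i).const_mul (c i)
  rw [dist_eq_norm, L1.norm_eq_integral_norm] at hd
  have h2 := mul_meas_ge_le_integral_of_nonneg (ae_of_all _ fun x => norm_nonneg _)
    (L1.integrable_coeFn (hi.toL1 g - ∑ i, c i • (v i : Lp 𝕜 1 μ))).norm δ
  have h3 : {x | δ ≤ ‖g x - ∑ i, c i * a i x * f (s i) ((γ i)⁻¹ • x)‖} =ᵐ[μ]
      {x | δ ≤ ‖(hi.toL1 g - ∑ i, c i • (v i : Lp 𝕜 1 μ)) x‖} := by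
    filter_upwards [Lp.coeFn_sub (hi.toL1 g) (∑ i, c i • (v i : Lp 𝕜 1 μ)), hi.coeFn_toL1,
      Lp.coeFn_finsetSum Finset.univ fun i => c i • (v i : Lp 𝕜 1 μ),
      ae_all_iff.2 fun i => Lp.coeFn_smul (c i) (v i : Lp 𝕜 1 μ), ae_all_iff.2 hv]
      with x e1 e2 e3 e4 e5
    change (δ ≤ _) = (δ ≤ _)
    rw [e1, Pi.sub_apply, e2, e3, Finset.sum_apply]
    simp only [e4, Pi.smul_apply, e5, smul_eq_mul, mul_assoc]
  rw [measure_congr h3, ENNReal.ofReal_le_iff_le_toReal (measure_ne_top _ _)] at h1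
  exact absurd ((mul_le_mul_of_nonneg_left h1 hδ.le).trans h2) (not_le.2 hd)

theorem main_class [Countable Γ] [StandardBorelSpace X] [IsProbabilityMeasure μ] (hμ : MP Γ μ)
    (𝕜 : Type*) [RCLike 𝕜] :
    (∃ A : MeasurableSpace X, A ≤ mX ∧ AInv Γ A μ ∧ 0 < @rokhlinEntropy Γ X _ A mX μ ∧
      ∃ (m : ℕ) (f : Fin m → Lp 𝕜 1 μ), 1 ≤ m ∧ (∀ s, μ[f s | A] =ᵐ[μ] 0) ∧
        ∀ g : Lp 𝕜 1 μ, g ∈ orbitModule Γ A f ↔ μ[g | A] =ᵐ[μ] 0) ↔
    0 < μ {x | (MulAction.orbit Γ x).Finite ∧ ∃ γ : Γ, γ • x ≠ x} := by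
  constructor
  · rintro ⟨A, hA, hAi, hpos, m, f, -, -, hf⟩
    refine pos_iff_ne_zero.2 fun h0 => ?_
    obtain ⟨g, h1, h2⟩ := exists_not_mem hμ (by
      filter_upwards [measure_eq_zero_iff_ae_notMem.1 h0] with x hx
      by_contra hcon
      rw [not_or, Set.not_infinite, not_forall] at hcon
      exact hx hcon) hA hAi hpos f
    exact h2 ((hf g).2 h1)
  · intro h
    obtain ⟨Q, Δ, N, hQ, hQ0, hQi, hQ1, hQ2, hQ3⟩ := exists_good_set hμ.inv h
    exact ⟨satSigma Γ mX Q, satSigma_le, (inv_satSigma hμ.inv).aInv,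
      satSigma_entropy_pos hμ hQ0 hQ1 Δ hQ2, satSigma_generated hμ hQ hQi N hQ3 𝕜⟩

end Pool.Agent.Lib.MP_d3f853_an
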