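import Mathlib
import Pool.Agent.Lib.MP_d3f853_an.Defs

namespace Pool.Agent.Lib.MP_d3f853_an

open Function MeasureTheory Filter
open scoped ENNReal

variable {Γ X : Type*} [Group Γ] [MulAction Γ X] {mX : MeasurableSpace X} {μ : Measure X}

theorem invSigma_eq_bot [MulAction.IsPretransitive Γ X] : invSigma Γ X = ⊥ := by
  refine le_antisymm (fun s hs => ?_) bot_le
  rw [MeasurableSpace.measurableSet_bot_iff]
  rcases s.eq_empty_or_nonempty with h | ⟨x, hx⟩
  · exact Or.inl h
  · refine Or.inr (Set.eq_univ_of_forall fun y => ?_)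
    obtain ⟨γ, rfl⟩ := MulAction.exists_smul_eq Γ y x
    have h : (fun x : X => γ • x) ⁻¹' s = s := (MeasurableSpace.measurableSet_iInf.1 hs γ).2
    rw [← h]; exact hx

theorem fin_entropy_pos [Fintype X] [Nontrivial X] [DiscreteMeasurableSpace X]
    [MulAction.IsPretransitive Γ X] [IsProbabilityMeasure μ] (hsupp : ∀ x, μ {x} ≠ 0) :
    0 < @rokhlinEntropy Γ X _ ⊥ mX μ := by
  obtain ⟨x0, -, hx0⟩ := Finset.exists_min_image Finset.univ (fun x => μ.real {x})
    Finset.univ_nonempty
  have hδ : 0 < μ.real {x0} := ENNReal.toReal_pos (hsupp x0) (measure_ne_top _ _)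
  refine lt_of_lt_of_le (ENNReal.ofReal_pos.2 (mul_pos hδ hδ)) ?_
  refine le_iInf fun α => le_iInf fun _ => le_iInf fun hgen => ?_
  obtain ⟨x1, hx1⟩ : ∃ x1, α x1 ≠ α x0 := by
    by_contra hcon
    simp only [not_exists, not_not] at hcon
    have h1 : orbitSigma Γ α = ⊥ := by
      refine le_antisymm (iSup_le fun γ => ?_) bot_le
      have : (fun x : X => α (γ • x)) = fun _ => α x0 := funext fun x => hcon _
      rw [this]
      exact (MeasurableSpace.comap_const _).le
    obtain ⟨t, ht, e⟩ := hgen {x0} (MeasurableSet.singleton _)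
    rw [h1, invSigma_eq_bot, sup_bot_eq, sup_bot_eq, MeasurableSpace.measurableSet_bot_iff] at ht
    have e' := fun x => ae_iff_of_countable.1 e x (hsupp x)
    rcases ht with rfl | rfl
    · exact (e' x0).mp rfl
    · obtain ⟨y, hy⟩ := exists_ne x0
      exact hy ((e' y).mpr trivial)
  rw [invSigma_eq_bot, sup_bot_eq]
  refine le_trans ?_ (ENNReal.le_tsum (α x0))
  rw [condExp_bot, integral_indicator MeasurableSet.of_discrete]
  simp only [integral_const, MeasurableSet.univ, measureReal_restrict_apply, Set.univ_inter,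
    smul_eq_mul, mul_one, lintegral_const, measure_univ]
  refine ENNReal.ofReal_le_ofReal ?_
  have h1 : μ.real {x0} ≤ μ.real (α ⁻¹' {α x0}) := measureReal_mono (by simp)
  have h2 : μ.real {x0} ≤ 1 - μ.real (α ⁻¹' {α x0}) := by
    rw [← probReal_compl_eq_one_sub MeasurableSet.of_discrete]
    exact (hx0 x1 (Finset.mem_univ _)).trans (measureReal_mono (by simpa using hx1))
  have h3 := Real.log_le_sub_one_of_pos (hδ.trans_le h1)
  rw [Real.negMulLog]
  nlinarith [mul_le_mul h1 h2 hδ.le (hδ.le.trans h1)]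

theorem fin_generated [Fintype X] [DiscreteMeasurableSpace X] [IsProbabilityMeasure μ]
    (hμ : ∀ γ : Γ, MeasurePreserving (fun x : X => γ • x) μ μ) (𝕜 : Type*) [RCLike 𝕜] :
    ∃ f : Fin (Fintype.card X) → Lp 𝕜 1 μ, (∀ s, μ[f s | ⊥] =ᵐ[μ] 0) ∧
      ∀ g : Lp 𝕜 1 μ, g ∈ orbitModule Γ ⊥ f ↔ μ[g | ⊥] =ᵐ[μ] 0 := by
  classical
  have h0 : ∀ g : X → 𝕜, μ[g | ⊥] =ᵐ[μ] 0 ↔ ∫ x, g x ∂μ = 0 := by
    intro g
    rw [condExp_bot]
    exact ⟨fun h => h.exists.choose_spec, fun h => by rw [h]; rfl⟩
  let e := (Fintype.equivFin X).symm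
  let F : Fin (Fintype.card X) → X → 𝕜 := fun s x =>
    (if x = e s then 1 else 0) - ((μ.real {e s} : ℝ) : 𝕜)
  let f : Fin (Fintype.card X) → Lp 𝕜 1 μ := fun s => (Integrable.of_finite (f := F s)).toL1 _
  have hf : ∀ s, f s =ᵐ[μ] F s := fun s => Integrable.coeFn_toL1 _
  have hf0 : ∀ s, ∫ x, f s x ∂μ = 0 := by
    intro s
    rw [integral_congr_ae (hf s), integral_sub .of_finite .of_finite, integral_fintype .of_finite]
    simp [RCLike.real_smul_eq_coe_mul]
  refine ⟨f, fun s => (h0 _).2 (hf0 s), fun g => ?_⟩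
  rw [h0]
  constructor
  · intro hg
    have : orbitModule Γ ⊥ f ≤
        LinearMap.ker (L1.integralCLM' (α := X) (μ := μ) (E := 𝕜) 𝕜).toLinearMap := by
      refine Submodule.topologicalClosure_minimal _ (Submodule.span_le.2 ?_)
        (ContinuousLinearMap.isClosed_ker _)
      rintro g ⟨a, γ, s, ⟨b, hb, hab⟩, -, h⟩
      obtain ⟨c, rfl⟩ := stronglyMeasurable_bot_iff.1 hb
      change L1.integralCLM' 𝕜 g = 0
      rw [← L1.integral_eq', L1.integral_eq_integral, integral_congr_ae h,
        integral_congr_ae (g := fun x => c * f s (γ⁻¹ • x))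
          (by filter_upwards [hab] with x hx; rw [hx]), integral_const_mul,
        ← integral_map (φ := fun x : X => γ⁻¹ • x) (f := fun x => f s x)
          (hμ _).measurable.aemeasurable (StronglyMeasurable.of_discrete).aestronglyMeasurable,
        (hμ _).map_eq, hf0, mul_zero]
    have h1 : L1.integralCLM' 𝕜 g = 0 := this hg
    rwa [← L1.integral_eq', L1.integral_eq_integral] at h1
  · intro hg
    refine Submodule.le_topologicalClosure _ ?_
    have : g = ∑ s, g (e s) • f s := by
      refine Lp.ext ?_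
      have h2 : ∀ t : Finset (Fin (Fintype.card X)),
          (∑ s ∈ t, g (e s) • f s : Lp 𝕜 1 μ) =ᵐ[μ] fun x => ∑ s ∈ t, g (e s) * F s x := by
        intro t
        induction t using Finset.induction_on with
        | empty => exact Lp.coeFn_zero 𝕜 1 μ
        | insert s t hs ih =>
          rw [Finset.sum_insert hs]
          filter_upwards [Lp.coeFn_add (g (e s) • f s) (∑ s ∈ t, g (e s) • f s),
            Lp.coeFn_smul (g (e s)) (f s), hf s, ih] with x h1 h2 h3 h4
          rw [h1, Pi.add_apply, h2, h4, Pi.smul_apply, h3, Finset.sum_insert hs, smul_eq_mul]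
      refine EventuallyEq.trans (ae_of_all _ fun x => ?_) (h2 Finset.univ).symm
      rw [integral_fintype .of_finite] at hg
      simp only [F, mul_sub, Finset.sum_sub_distrib]
      rw [e.sum_comp (fun y => g y * if x = y then 1 else 0),
        e.sum_comp (fun y => g y * ((μ.real {y} : ℝ) : 𝕜))]
      simp only [RCLike.real_smul_eq_coe_mul, mul_comm _ (g _)] at hg
      rw [hg]
      simp
    rw [this]
    refine Submodule.sum_mem _ fun s _ => Submodule.smul_mem _ _ (Submodule.subset_span ?_)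
    exact ⟨fun _ => 1, 1, s, stronglyMeasurable_const.aestronglyMeasurable, memLp_top_const 1,
      by simp⟩

end Pool.Agent.Lib.MP_d3f853_an
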